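import Pool.Agent.H.MP_0e6b5f_nt.DefsDefect
import Pool.Agent.H.MP_0e6b5f_nt.Dom.Per

/-!
# The orbit over an extension from rational periodic points
-/

namespace Pool.Agent.H.MP_0e6b5f_nt.Df

open Pool.Agent.H.MP_0e6b5f_nt Pool.Agent.H.MP_0e6b5f_nt.Dom
open Polynomial

/-- A finite set of `K`-rational periodic points gives an orbit over an extension `E` of `L` in
which the leading coefficient is a power `c ^ (d - 1)`. -/
theorem exists_dat {K L E : Type*} [Field K] [Field L] [Field E] [Algebra K L] [Algebra L E]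
    [Algebra K E] [IsScalarTower K L E] {d : ℕ} (hd : 2 ≤ d) (F : K[X]) {δ : K} (hδ : δ ≠ 0)
    (hFd : F.natDegree = d) (ζ : Fin d → L)
    (hF : F.map (algebraMap K L) = C (1 + algebraMap K L δ) * X +
      C (algebraMap K L F.leadingCoeff) * ∏ i, (X - C (ζ i)))
    {c : E} (hc : c ^ (d - 1) = algebraMap L E (algebraMap K L F.leadingCoeff)) (i₀ : Fin d)
    (T : Finset (K × K)) (hT : ∀ P ∈ T, P ∈ perRat F δ) :
    ∃ (S : Finset (E × E)) (O : Orb (fun i => c * (algebraMap L E (ζ i) - algebraMap L E (ζ i₀)))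
        (algebraMap L E (algebraMap K L δ)) S), T.card ≤ S.card ∧
      (∀ P : S, ∃ x : K, O.y P = c * (algebraMap K E x - algebraMap L E (ζ i₀))) ∧
      (∀ P Q, O.y P = O.y Q → O.y (O.σ⁻¹ P) = O.y (O.σ⁻¹ Q) → P = Q) := by
  classical
  obtain ⟨S₀, hTS, hS₀⟩ := exists_invariant (hen F δ) T hT
  obtain ⟨ι, hι⟩ : ∃ ι : K →+* E, ι = algebraMap K E := ⟨_, rfl⟩
  have hιi : Function.Injective ι := ι.injective
  have htow : ∀ x : K, algebraMap L E (algebraMap K L x) = ι x := fun x => by
    rw [hι, ← IsScalarTower.algebraMap_apply K L E x]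
  have hF0 : F ≠ 0 := by
    rintro rfl
    rw [natDegree_zero] at hFd
    omega
  have hc0 : c ≠ 0 := by
    rintro rfl
    rw [zero_pow (by omega), htow] at hc
    have h1 := (map_eq_zero ι).1 hc.symm
    exact hF0 (leadingCoeff_eq_zero.1 h1)
  have hδE : ι δ ≠ 0 := (map_ne_zero ι).2 hδ
  have hmap : F.map ι = fixPoly c (ι δ) (fun i => algebraMap L E (ζ i)) := by
    have h1 : F.map ι = (F.map (algebraMap K L)).map (algebraMap L E) := by
      rw [Polynomial.map_map, hι, IsScalarTower.algebraMap_eq K L E]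
    rw [h1, hF, fixPoly, hc]
    simp only [Polynomial.map_add, Polynomial.map_mul, map_C, map_X, Polynomial.map_prod,
      Polynomial.map_sub, map_add, map_one, Polynomial.map_one, htow]
  obtain ⟨e, he⟩ : ∃ e : K × K → E × E, e = fun P => (ι P.1, ι P.2) := ⟨_, rfl⟩
  have hei : Function.Injective e := by
    intro P Q h
    rw [he] at h
    have h1 := congrArg Prod.fst h
    have h2 := congrArg Prod.snd h
    exact Prod.ext (hιi h1) (hιi h2)
  have hS : ∀ P ∈ S₀.image e, hen (fixPoly c (ι δ) (fun i => algebraMap L E (ζ i))) (ι δ) P ∈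
      S₀.image e := by
    intro P hP
    rw [Finset.mem_image] at hP
    obtain ⟨Q, hQ, rfl⟩ := hP
    rw [Finset.mem_image]
    refine ⟨hen F δ Q, hS₀ Q hQ, ?_⟩
    rw [he, ← hmap]
    simp only [hen, map_sub, map_mul]
    rw [eval_map, eval₂_at_apply]
  obtain ⟨O, hy, hx⟩ := exists_orb hd hδE (fun i => algebraMap L E (ζ i)) i₀ (S₀.image e) hS
  rw [htow]
  refine ⟨S₀.image e, O, ?_, ?_, ?_⟩
  · rw [Finset.card_image_of_injective _ hei]
    exact Finset.card_le_card hTS
  · intro P
    have hP := P.2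
    rw [Finset.mem_image] at hP
    obtain ⟨Q, -, hQ⟩ := hP
    refine ⟨Q.2, ?_⟩
    rw [hy, ← hQ, he, hι]
  · intro P Q h1 h2
    rw [hy, hy] at h1
    rw [hx, hx] at h2
    have h3 := mul_right_injective₀ hc0 h1
    have h4 := mul_right_injective₀ hc0 h2
    apply Subtype.ext
    apply Prod.ext
    · exact sub_left_injective h4
    · exact sub_left_injective h3

end Pool.Agent.H.MP_0e6b5f_nt.Df
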