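import Pool.Agent.H.MP_0e6b5f_nt.Eng.Defs
import Pool.Agent.H.MP_0e6b5f_nt.Dom.Enum

/-!
# Polynomials which are small on the points of a set
-/

namespace Pool.Agent.H.MP_0e6b5f_nt.Df

open Pool.Agent.H.MP_0e6b5f_nt.Dom Pool.Agent.H.MP_0e6b5f_nt.Eng
open Polynomial

variable {K : Type*} [Field K]

/-- A monic polynomial `g` which is small at the place `v` at both coordinates of the points of
`S`. -/
structure Gain {d : ℕ} {ζ : Fin d → K} {δ : K} {ι : Type*} (O : Orb ζ δ ι) (S : Finset ι) (μ : K)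
    (v : AbsoluteValue K ℝ) (l : ℝ) (g : K[X]) : Prop where
  monic : g.Monic
  pos : 1 ≤ g.natDegree
  le : g.natDegree ≤ d
  hy : ∀ P ∈ S, v (g.eval (O.y P)) ≤ (Real.exp (-l) * max 1 (v μ)) ^ g.natDegree
  hx : ∀ P ∈ S, v (g.eval (O.y (O.σ⁻¹ P))) ≤ (Real.exp (-l) * max 1 (v μ)) ^ g.natDegree

/-- The part of the dynamical monomial which depends on the past. -/
def bb {d : ℕ} {ζ : Fin d → K} {δ : K} {ι : Type*} (O : Orb ζ δ ι) (L j : ℕ) : ι → K :=
  dynP d (fun k P => O.y ((O.σ⁻¹ ^ (k + 1)) P)) L j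

/-- The part of the dynamical monomial which depends on the future. -/
def uu {d : ℕ} {ζ : Fin d → K} {δ : K} {ι : Type*} (O : Orb ζ δ ι) (L q : ℕ) : ι → K :=
  dynP d (fun k P => O.y ((O.σ ^ k) P)) L q

/-- A monic polynomial of degree `q` in `z` made of powers of `g`. -/
noncomputable def gp (g : K[X]) (q : ℕ) (z : K) : K :=
  g.eval z ^ (q / g.natDegree) * z ^ (q % g.natDegree)

end Pool.Agent.H.MP_0e6b5f_nt.Df
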