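import Pool.Agent.H.MP_0e6b5f_nt.Df.Def
import Pool.Agent.H.MP_0e6b5f_nt.Eng.Degen

/-!
# A relation on a large subset of an invariant set
-/

namespace Pool.Agent.H.MP_0e6b5f_nt.Df

open Pool.Agent.H.MP_0e6b5f_nt.Dom Pool.Agent.H.MP_0e6b5f_nt.Eng
open Polynomial

variable {K : Type*} [Field K]

/-- The filtration and algebra homomorphisms. -/
theorem W_map {A B : Type*} [CommRing A] [Algebra K A] [CommRing B] [Algebra K B] (φ : A →ₐ[K] B)
    {x y : A} {m : ℕ} {u : A} (h : u ∈ W K x y m) : φ u ∈ W K (φ x) (φ y) m := by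
  have h1 : W K x y m ≤ (W K (φ x) (φ y) m).comap φ.toLinearMap := by
    rw [W, Submodule.span_le]
    rintro _ ⟨i, j, hij, rfl⟩
    show φ (x ^ i * y ^ j) ∈ W K (φ x) (φ y) m
    rw [map_mul, map_pow, map_pow]
    exact mon_mem i j hij
  exact h1 h

theorem isTop_map {A B : Type*} [CommRing A] [Algebra K A] [CommRing B] [Algebra K B]
    (φ : A →ₐ[K] B) {x y : A} {m : ℕ} {u g : A} (h : IsTop K x y m u g) :
    IsTop K (φ x) (φ y) m (φ u) (φ g) := by
  refine ⟨?_, W_map φ h.2⟩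
  rw [← map_sub]
  exact W_map φ h.1

/-- If a nontrivial combination of dynamical monomials vanishes on at least three quarters of an
invariant set, then the set is small. -/
theorem degen_sub {d : ℕ} (hd : 2 ≤ d) {ζ : Fin d → K} {δ : K} (hδ : δ ≠ 0) {ι : Type*}
    [Fintype ι] [DecidableEq ι] (O : Orb ζ δ ι)
    (hinj : ∀ P Q, O.y P = O.y Q → O.y (O.σ⁻¹ P) = O.y (O.σ⁻¹ Q) → P = Q)
    (L : ℕ) (S : Finset ι) (hS : 4 * (Finset.univ \ S).card ≤ Fintype.card ι)
    (I : Finset (ℕ × ℕ)) (a : ℕ × ℕ → K) (hI : ∀ s ∈ I, s.1 < d ^ L ∧ s.2 < d ^ L)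
    (ha : ∃ s ∈ I, a s ≠ 0) (hrel : ∀ P ∈ S, ∑ s ∈ I, a s * ee O L s P = 0) :
    Fintype.card ι ≤ 2 * (d ^ (2 * L)) ^ 2 := by
  classical
  have hd1 : 1 ≤ d := by omega
  set X : ι → K := fun P => O.y (O.σ⁻¹ P) with hX
  set Y : ι → K := fun P => O.y P with hY
  have hXY : ∀ P Q, P ≠ Q → X P ≠ X Q ∨ Y P ≠ Y Q := by
    intro P Q hPQ
    by_contra hcon
    push Not at hcon
    exact hPQ (hinj _ _ hcon.2 hcon.1)
  obtain ⟨hmon, hdeg⟩ := nf_monic hd ζ δ
  set u : ℕ → (ι → K) := fun k P => O.y ((O.σ ^ k) P) with hu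
  set b : ℕ → (ι → K) := fun k P => O.y ((O.σ⁻¹ ^ (k + 1)) P) with hb
  have htopu : ∀ k, IsTop K X Y (d ^ k) (u k) ((1 : K) ^ gexp d k • Y ^ (d ^ k)) := by
    intro k
    have h0 : u 0 = Y := by funext j; simp [hu, hY]
    have := top_iter (K := K) (x := X) (y := Y) hd hmon hdeg 1 δ u X
      (by rw [h0]; exact y_mem_W) x_mem_W
      (by
        funext j
        simp only [Pi.sub_apply, Pi.smul_apply, degen_aeval_apply, smul_eq_mul, one_mul]
        rw [h0]
        have h1 := O.rel j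
        simp only [hu, hX, hY, pow_one]
        rw [← h1]; ring)
      (fun k => by
        funext j
        simp only [Pi.sub_apply, Pi.smul_apply, degen_aeval_apply, smul_eq_mul, one_mul]
        have h1 := O.rel ((O.σ ^ (k + 1)) j)
        simp only [hu]
        rw [← h1]
        have h2 : O.σ ((O.σ ^ (k + 1)) j) = (O.σ ^ (k + 2)) j := by
          rw [pow_succ' O.σ (k + 1)]; rfl
        have h3 : O.σ⁻¹ ((O.σ ^ (k + 1)) j) = (O.σ ^ k) j := by
          rw [pow_succ' O.σ k]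
          exact O.σ.symm_apply_apply _
        rw [h2, h3]; ring) k
    rw [h0] at this
    exact this
  have htopb : ∀ k, IsTop K X Y (d ^ k) (b k) ((δ⁻¹ : K) ^ gexp d k • X ^ (d ^ k)) := by
    intro k
    have h0 : b 0 = X := by funext j; simp [hb, hX]
    have := top_iter (K := K) (x := X) (y := Y) hd hmon hdeg δ⁻¹ δ⁻¹ b Y
      (by rw [h0]; exact x_mem_W) y_mem_W
      (by
        funext j
        simp only [Pi.sub_apply, Pi.smul_apply, degen_aeval_apply, smul_eq_mul]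
        rw [h0]
        have h1 := O.rel (O.σ⁻¹ j)
        have h4 : O.σ (O.σ⁻¹ j) = j := O.σ.apply_symm_apply _
        rw [h4] at h1
        simp only [hb, hX, hY]
        rw [← h1]
        have h5 : (O.σ⁻¹ ^ (1 + 1)) j = O.σ⁻¹ (O.σ⁻¹ j) := by
          rw [pow_succ, pow_one]; rfl
        rw [h5]
        field_simp
        ring)
      (fun k => by
        funext j
        simp only [Pi.sub_apply, Pi.smul_apply, degen_aeval_apply, smul_eq_mul]
        have h1 := O.rel ((O.σ⁻¹ ^ (k + 2)) j)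
        simp only [hb]
        rw [← h1]
        have h2 : O.σ ((O.σ⁻¹ ^ (k + 2)) j) = (O.σ⁻¹ ^ (k + 1)) j := by
          rw [pow_succ' O.σ⁻¹ (k + 1)]
          exact O.σ.apply_symm_apply _
        have h3 : O.σ⁻¹ ((O.σ⁻¹ ^ (k + 2)) j) = (O.σ⁻¹ ^ (k + 2 + 1)) j := by
          rw [pow_succ' O.σ⁻¹ (k + 2)]; rfl
        rw [h2, h3]
        field_simp
        ring) k
    rw [h0] at this
    exact this
  have hee : ∀ s P, ee O L s P = dynP d b L s.1 P * dynP d u L s.2 P := fun _ _ => rfl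
  -- forward shift
  have hF : ∀ s P, ee O L s ((O.σ ^ L) P) = dynP d u (2 * L) (degI d L s) P := by
    intro s P
    rw [hee]
    refine degen_dynP hd1 L s u b u P ((O.σ ^ L) P) (fun k hk => ?_) (fun k _ => ?_)
    · simp only [hb, hu]
      congr 1
      have h1 : O.σ ^ L = O.σ ^ (k + 1) * O.σ ^ (L - 1 - k) := by
        rw [← pow_add]; congr 1; omega
      rw [h1, Equiv.Perm.mul_apply, inv_pow]
      exact (O.σ ^ (k + 1)).symm_apply_apply _
    · simp only [hu]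
      rw [add_comm L k, pow_add, Equiv.Perm.mul_apply]
  have hB : ∀ s P, ee O L s ((O.σ⁻¹ ^ L) P) = dynP d b (2 * L) (degI d L s.swap) P := by
    intro s P
    rw [hee, mul_comm]
    refine degen_dynP hd1 L s.swap b u b P ((O.σ⁻¹ ^ L) P) (fun k hk => ?_) (fun k _ => ?_)
    · simp only [hb, hu]
      congr 1
      have h1 : O.σ⁻¹ ^ L = (O.σ ^ k)⁻¹ * O.σ⁻¹ ^ (L - 1 - k + 1) := by
        rw [← inv_pow, ← pow_add]; congr 1; omega
      rw [h1, Equiv.Perm.mul_apply]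
      exact (O.σ ^ k).apply_symm_apply _
    · simp only [hb]
      rw [show L + k + 1 = (k + 1) + L by ring, pow_add O.σ⁻¹ (k + 1) L, Equiv.Perm.mul_apply]
  -- the subset
  obtain ⟨T, hT⟩ : ∃ T : Finset ι, T = Finset.univ.filter fun P =>
    (O.σ ^ L) P ∈ S ∧ (O.σ⁻¹ ^ L) P ∈ S := ⟨_, rfl⟩
  have hTm0 : ∀ P, P ∈ T → (O.σ ^ L) P ∈ S ∧ (O.σ⁻¹ ^ L) P ∈ S := by
    intro P hP
    rw [hT, Finset.mem_filter] at hP
    exact hP.2
  have hTm : ∀ P : {P // P ∈ T}, (O.σ ^ L) P.val ∈ S ∧ (O.σ⁻¹ ^ L) P.val ∈ S := fun P =>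
    hTm0 P.1 P.2
  have hTc : (Finset.univ \ T).card ≤ 2 * (Finset.univ \ S).card := by
    have h1 : Finset.univ \ T ⊆ (Finset.univ \ S).image ((O.σ ^ L)⁻¹ : Equiv.Perm ι) ∪
        (Finset.univ \ S).image ((O.σ⁻¹ ^ L)⁻¹ : Equiv.Perm ι) := by
      intro P hP
      rw [Finset.mem_sdiff, hT, Finset.mem_filter] at hP
      rw [Finset.mem_union, Finset.mem_image, Finset.mem_image]
      by_cases h2 : (O.σ ^ L) P ∈ S
      · right
        have h3 : (O.σ⁻¹ ^ L) P ∉ S := fun h3 => hP.2 ⟨Finset.mem_univ _, h2, h3⟩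
        exact ⟨(O.σ⁻¹ ^ L) P, Finset.mem_sdiff.2 ⟨Finset.mem_univ _, h3⟩,
          (O.σ⁻¹ ^ L).symm_apply_apply P⟩
      · left
        exact ⟨(O.σ ^ L) P, Finset.mem_sdiff.2 ⟨Finset.mem_univ _, h2⟩,
          (O.σ ^ L).symm_apply_apply P⟩
    refine (Finset.card_le_card h1).trans ((Finset.card_union_le _ _).trans ?_)
    rw [two_mul]
    exact Nat.add_le_add Finset.card_image_le Finset.card_image_le
  have hTS : Fintype.card ι ≤ 2 * Fintype.card {P // P ∈ T} := by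
    rw [Fintype.card_coe]
    have h1 : (Finset.univ \ T).card + T.card = Fintype.card ι := by
      rw [Finset.card_sdiff_add_card_eq_card (Finset.subset_univ _), Finset.card_univ]
    omega
  obtain ⟨φ, hφ⟩ : ∃ φ : (ι → K) →ₐ[K] ({P // P ∈ T} → K), ∀ f P, φ f P = f P.val :=
    ⟨Pi.algHom K (fun _ : {P // P ∈ T} => K) fun P => Pi.evalAlgHom K (fun _ : ι => K) P.val,
      fun _ _ => rfl⟩
  have hXY' : ∀ P Q : {P // P ∈ T}, P ≠ Q → φ X P ≠ φ X Q ∨ φ Y P ≠ φ Y Q := by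
    intro P Q hPQ
    rw [hφ, hφ, hφ, hφ]
    exact hXY _ _ fun h => hPQ (Subtype.ext h)
  obtain ⟨Q0, hQ0, hYQ⟩ := degen_pow (K := K) (x := φ X) (y := φ Y) (z := φ Y)
    (w := fun i => φ (dynP d u (2 * L) i)) (β := fun i => (1 : K) ^ dynE d (2 * L) i)
    (fun i => pow_ne_zero _ one_ne_zero) (N := d ^ (2 * L))
    (fun i hi => by
      have h1 := isTop_map φ (top_dynP u Y 1 htopu (2 * L) i hi)
      rwa [map_smul, map_pow] at h1) 1 (fun _ => 0) (degI d L)
    (by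
      intro c
      refine ⟨I, a, fun s _ => (degen_digits hd1 _ (degC_lt hd1 L s) (2 * L)).1,
        fun s hs t ht h => degI_inj hd1 L (hI s hs) (hI t ht) h, ha, fun P _ => ?_⟩
      rw [← hrel _ (hTm P).1]
      exact Finset.sum_congr rfl fun s _ => by rw [hF, hφ])
  obtain ⟨J0, hJ0, hXJ⟩ := degen_pow (K := K) (x := φ X) (y := φ Y) (z := φ X)
    (w := fun i => φ (dynP d b (2 * L) i)) (β := fun i => (δ⁻¹ : K) ^ dynE d (2 * L) i)
    (fun i => pow_ne_zero _ (inv_ne_zero hδ)) (N := d ^ (2 * L))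
    (fun i hi => by
      have h1 := isTop_map φ (top_dynP b X δ⁻¹ htopb (2 * L) i hi)
      rwa [map_smul, map_pow] at h1) 1 (fun _ => 0)
    (fun s => degI d L s.swap)
    (by
      intro c
      refine ⟨I, a, fun s _ => (degen_digits hd1 _ (degC_lt hd1 L s.swap) (2 * L)).1,
        fun s hs t ht h => ?_, ha, fun P _ => ?_⟩
      · exact Prod.swap_injective (degI_inj hd1 L (hI s hs).symm (hI t ht).symm h)
      · rw [← hrel _ (hTm P).2]
        exact Finset.sum_congr rfl fun s _ => by rw [hB, hφ])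
  have htop := degen_span (K := K) hXJ hYQ (Fintype.card {P // P ∈ T})
  rw [degen_W_top (φ X) (φ Y) hXY'] at htop
  have h1 : Fintype.card {P // P ∈ T} ≤ J0 * Q0 := by
    have h2 : Module.finrank K ({P // P ∈ T} → K) = Fintype.card {P // P ∈ T} :=
      Module.finrank_fintype_fun_eq_card K
    rw [← h2, ← finrank_top (R := K) (M := {P // P ∈ T} → K), ← top_le_iff.mp htop,
      ← Finset.coe_image]
    refine (finrank_span_finset_le_card _).trans (Finset.card_image_le.trans ?_)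
    simp
  calc Fintype.card ι ≤ 2 * Fintype.card {P // P ∈ T} := hTS
    _ ≤ 2 * (J0 * Q0) := Nat.mul_le_mul_left _ h1
    _ ≤ 2 * ((1 * d ^ (2 * L)) * (1 * d ^ (2 * L))) := Nat.mul_le_mul_left _ (Nat.mul_le_mul hJ0 hQ0)
    _ = 2 * (d ^ (2 * L)) ^ 2 := by ring

end Pool.Agent.H.MP_0e6b5f_nt.Df
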