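import Pool.Agent.H.MP_0e6b5f_nt.Df.Def

/-!
# Unimodular changes of the interpolation determinant
-/

namespace Pool.Agent.H.MP_0e6b5f_nt.Df

open Pool.Agent.H.MP_0e6b5f_nt.Dom
open Submodule

variable {K : Type*} [Field K]

/-- A family which is triangular with respect to another family (not necessarily independent). -/
theorem det_tri_any {n : ℕ} (a ψ : Fin n → (Fin n → K)) (c : Fin n → K)
    (h : ∀ k, ψ k - c k • a k ∈ span K (a '' {l | l < k})) :
    (Matrix.of ψ).det = (∏ k, c k) * (Matrix.of a).det := by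
  classical
  have h1 : ∀ k, ∃ l : Fin n →₀ K, l ∈ Finsupp.supported K K {l : Fin n | l < k} ∧
      Finsupp.linearCombination K a l = ψ k - c k • a k := fun k =>
    (Finsupp.mem_span_image_iff_linearCombination K).mp (h k)
  choose l hl hla using h1
  set T : Matrix (Fin n) (Fin n) K := Matrix.of (fun k j => (if j = k then c k else 0) + l k j)
    with hT
  have hzero : ∀ k j, ¬ j < k → l k j = 0 := by
    intro k j hjk
    by_contra hcon
    exact hjk ((Finsupp.mem_supported K (l k)).mp (hl k) (Finsupp.mem_support_iff.mpr hcon))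
  have hmul : Matrix.of ψ = T * Matrix.of a := by
    ext k P
    rw [Matrix.mul_apply]
    have h2 : ψ k = c k • a k + Finsupp.linearCombination K a (l k) := by rw [hla]; abel
    have h3 : ψ k P = c k * a k P + ∑ j, l k j * a j P := by
      conv_lhs => rw [h2]
      rw [Finsupp.linearCombination_apply, Finsupp.sum_fintype _ _ (fun i => by simp)]
      simp [Finset.sum_apply]
    simp only [Matrix.of_apply, hT]
    rw [h3]
    simp only [add_mul, Finset.sum_add_distrib, ite_mul, zero_mul, Finset.sum_ite_eq',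
      Finset.mem_univ, if_true]
  have hlow : T.IsLowerTriangular := by
    intro k j hkj
    have hkj' : k < j := hkj
    simp only [hT, Matrix.of_apply]
    rw [if_neg hkj'.ne', hzero k j (not_lt.mpr hkj'.le), add_zero]
  rw [hmul, Matrix.det_mul, Matrix.det_of_isLowerTriangular T hlow]
  congr 1
  refine Finset.prod_congr rfl (fun k _ => ?_)
  simp only [hT, Matrix.of_apply]
  rw [if_true, hzero k k (lt_irrefl k), add_zero]

/-- Interpolation determinants depend only on the leading parts. -/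
theorem det_top {n : ℕ} (X Y : Fin n → K) (ψ : Fin n → (Fin n → K)) (c : Fin n → K)
    (h : ∀ k : Fin n, IsTop K X Y (edeg k) (ψ k) (c k • (X ^ (enum k).1 * Y ^ (enum k).2))) :
    (Matrix.of ψ).det =
      (∏ k, c k) * (Matrix.of (fun k : Fin n => X ^ (enum k).1 * Y ^ (enum k).2)).det := by
  apply det_tri_any
  intro t
  have h1 := (h t).1
  have h2 : W K X Y (edeg t) ≤
      span K ((fun k : Fin n => X ^ (enum k).1 * Y ^ (enum k).2) '' {l | l < t}) := by
    rw [W]
    apply span_mono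
    rintro _ ⟨i, j, hij, rfl⟩
    obtain ⟨t', ht', he⟩ := exists_enum hij
    refine ⟨⟨t', ht'.trans t.2⟩, ht', ?_⟩
    simp only [he]
  exact h2 h1

theorem sum_enum (f : ℕ × ℕ → ℕ) (n : ℕ) :
    ∑ t ∈ Finset.range (tri n), f (enum t) =
      ∑ s ∈ Finset.range n, ∑ i ∈ Finset.range (s + 1), f (i, s - i) := by
  induction n with
  | zero => simp [tri]
  | succ n ih =>
    rw [Finset.sum_range_succ, ← ih, tri, add_assoc, Finset.sum_range_add]
    congr 1
    refine Finset.sum_congr rfl fun i hi => ?_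
    rw [enum_tri n i (by rw [Finset.mem_range] at hi; omega)]

theorem sum_fst (N : ℕ) :
    6 * ∑ k ∈ Finset.range (tri (N + 1)), (enum k).1 = N * (N + 1) * (N + 2) := by
  rw [sum_enum (fun p => p.1)]
  induction N with
  | zero => simp
  | succ n ih =>
    rw [Finset.sum_range_succ, mul_add, ih]
    have h1 : 2 * ∑ i ∈ Finset.range (n + 1 + 1), i = (n + 2) * (n + 1) := by
      rw [mul_comm, Finset.sum_range_id_mul_two]; rfl
    have h2 : 6 * ∑ i ∈ Finset.range (n + 1 + 1), i = 3 * ((n + 2) * (n + 1)) := by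
      rw [← h1]; ring
    rw [h2]; ring

theorem sum_snd (N : ℕ) :
    6 * ∑ k ∈ Finset.range (tri (N + 1)), (enum k).2 = N * (N + 1) * (N + 2) := by
  rw [← sum_fst, sum_enum (fun p => p.1), sum_enum (fun p => p.2)]
  congr 1
  refine Finset.sum_congr rfl fun s _ => ?_
  simp only
  rw [← Finset.sum_range_reflect]
  refine Finset.sum_congr rfl fun i hi => ?_
  rw [Finset.mem_range] at hi
  omega

theorem gain_aux {N m d : ℕ} (hm : 1 ≤ m) (hmd : m ≤ d) (f : ℕ → ℕ)
    (hf : 6 * ∑ t ∈ Finset.range (tri (N + 1)), f t = N * (N + 1) * (N + 2)) :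
    (tri (N + 1) : ℝ) * (N / 3 - d) ≤ ∑ k : Fin (tri (N + 1)), ((m * (f k / m) : ℕ) : ℝ) := by
  have h1 : ∑ t ∈ Finset.range (tri (N + 1)), f t ≤
      (∑ t ∈ Finset.range (tri (N + 1)), m * (f t / m)) + d * tri (N + 1) := by
    calc ∑ t ∈ Finset.range (tri (N + 1)), f t
        ≤ ∑ t ∈ Finset.range (tri (N + 1)), (m * (f t / m) + d) := by
          refine Finset.sum_le_sum fun t _ => ?_
          have := Nat.div_add_mod (f t) m
          have := Nat.mod_lt (f t) hm
          omega
      _ = _ := by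
          rw [Finset.sum_add_distrib, Finset.sum_const, Finset.card_range, smul_eq_mul, mul_comm d]
  have h2 := two_tri (N + 1)
  have h3 : ∑ k : Fin (tri (N + 1)), ((m * (f k / m) : ℕ) : ℝ) =
      ((∑ t ∈ Finset.range (tri (N + 1)), m * (f t / m) : ℕ) : ℝ) := by
    rw [← Nat.cast_sum, Fin.sum_univ_eq_sum_range (fun t => m * (f t / m))]
  rw [h3]
  have h1' : ((∑ t ∈ Finset.range (tri (N + 1)), f t : ℕ) : ℝ) ≤
      ((∑ t ∈ Finset.range (tri (N + 1)), m * (f t / m) : ℕ) : ℝ) + d * tri (N + 1) := by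
    exact_mod_cast h1
  have h2' : 2 * ((tri (N + 1) : ℕ) : ℝ) = ((N : ℝ) + 1) * (N + 1 + 1) := by exact_mod_cast h2
  have hf' : 6 * ((∑ t ∈ Finset.range (tri (N + 1)), f t : ℕ) : ℝ) =
      (N : ℝ) * (N + 1) * (N + 2) := by exact_mod_cast hf
  nlinarith

theorem gain_fst {N m d : ℕ} (hm : 1 ≤ m) (hmd : m ≤ d) :
    (tri (N + 1) : ℝ) * (N / 3 - d) ≤
      ∑ k : Fin (tri (N + 1)), ((m * ((enum k).1 / m) : ℕ) : ℝ) :=
  gain_aux hm hmd (fun t => (enum t).1) (sum_fst N)

theorem gain_snd {N m d : ℕ} (hm : 1 ≤ m) (hmd : m ≤ d) :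
    (tri (N + 1) : ℝ) * (N / 3 - d) ≤
      ∑ k : Fin (tri (N + 1)), ((m * ((enum k).2 / m) : ℕ) : ℝ) :=
  gain_aux hm hmd (fun t => (enum t).2) (sum_snd N)

end Pool.Agent.H.MP_0e6b5f_nt.Df
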