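import Pool.Agent.H.MP_0e6b5f_nt.Df.Def
import Pool.Agent.H.MP_0e6b5f_nt.Eng.Hts
import Pool.Agent.H.MP_0e6b5f_nt.Eng.Rev

/-!
# Small polynomials from fixed points far away from the points of the set
-/

namespace Pool.Agent.H.MP_0e6b5f_nt.Df

open Pool.Agent.H.MP_0e6b5f_nt.Dom Pool.Agent.H.MP_0e6b5f_nt.Eng
open Polynomial Real

variable {K : Type*} [Field K]

theorem max_pow (m : ℕ) {x : ℝ} (hx : 0 ≤ x) : (max 1 x) ^ m = max 1 (x ^ m) := by
  rcases le_total 1 x with h1 | h1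
  · rw [max_eq_right h1, max_eq_right (one_le_pow₀ h1)]
  · rw [max_eq_left h1, max_eq_left (pow_le_one₀ hx h1), one_pow]

theorem max_root {d : ℕ} {δ μ : K} (hμ : μ ^ (d - 1) = δ) (v : AbsoluteValue K ℝ) :
    max 1 (v δ) = (max 1 (v μ)) ^ (d - 1) := by
  rw [max_pow _ (v.nonneg _), ← map_pow, hμ]

theorem rho_nonneg {d : ℕ} (ζ : Fin d → K) (μ : K) (v : AbsoluteValue K ℝ) : 0 ≤ rho ζ μ v := by
  rw [rho]
  exact div_nonneg (Real.iSup_nonneg (fun p => v.nonneg _)) (by positivity)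

/-- The zeros are bounded by the normalised diameter. -/
theorem zeta_le {d : ℕ} {ζ : Fin d → K} {i₀ : Fin d} (hi₀ : ζ i₀ = 0) (μ : K)
    (v : AbsoluteValue K ℝ) (i : Fin d) : v (ζ i) ≤ rho ζ μ v * max 1 (v μ) := by
  have h1 : (0 : ℝ) < max 1 (v μ) := by positivity
  rw [rho, div_mul_cancel₀ _ h1.ne']
  have h2 := le_ciSup (f := fun p : Fin d × Fin d => v (ζ p.1 - ζ p.2))
    (Set.finite_range _).bddAbove (i, i₀)
  simp only [hi₀, sub_zero] at h2
  exact h2

/-- The size of the points in normalised coordinates. -/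
theorem size_norm {d : ℕ} (hd : 2 ≤ d) {ζ : Fin d → K} {i₀ : Fin d} (hi₀ : ζ i₀ = 0) {δ μ : K}
    (hδ : δ ≠ 0) (hμ : μ ^ (d - 1) = δ) {ι : Type*} [Finite ι] (O : Orb ζ δ ι)
    {v : AbsoluteValue K ℝ} {A : ℝ} (hqu : QU v A) (hA : 1 ≤ A) (P : ι) :
    v (O.y P) ≤ A ^ (d + 3) * max 1 (rho ζ μ v) * max 1 (v μ) := by
  have hB : 1 ≤ max 1 (rho ζ μ v) := le_max_left _ _
  have hroot := max_root hμ v
  rcases le_or_gt (v μ) 1 with h | h
  · rw [max_eq_left h, one_pow] at hroot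
    have h1 : v δ ≤ 1 := by
      have := le_max_right 1 (v δ)
      rwa [hroot] at this
    rw [max_eq_left h, mul_one]
    refine O.size hd hqu hA hB (fun i => ?_) (h1.trans hB) P
    have h2 := zeta_le hi₀ μ v i
    rw [max_eq_left h, mul_one] at h2
    exact h2.trans (le_max_right _ _)
  · have hμ0 : μ ≠ 0 := by
      rintro rfl
      rw [map_zero] at h
      linarith
    have hvμ : 0 < v μ := v.pos hμ0
    have h1 := (rev hd hδ hμ O).size hd hqu hA hB (fun i => by
        show v (μ⁻¹ * ζ i) ≤ _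
        rw [v.map_mul, map_inv₀]
        have h2 := zeta_le hi₀ μ v i
        rw [max_eq_right h.le] at h2
        calc (v μ)⁻¹ * v (ζ i) ≤ (v μ)⁻¹ * (rho ζ μ v * v μ) :=
              mul_le_mul_of_nonneg_left h2 (by positivity)
          _ = rho ζ μ v := by field_simp
          _ ≤ _ := le_max_right _ _)
      (by
        rw [map_inv₀]
        have h3 : 1 ≤ v δ := by
          rw [← hμ, map_pow]
          exact one_le_pow₀ h.le
        exact (inv_le_one_of_one_le₀ h3).trans hB) P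
    have h2 : v (μ⁻¹ * O.y P) ≤ A ^ (d + 3) * max 1 (rho ζ μ v) := h1
    rw [v.map_mul, map_inv₀, inv_mul_le_iff₀ hvμ] at h2
    rw [max_eq_right h.le, mul_comm _ (v μ)]
    exact h2

/-- The product of the distances to the fixed points at a nonarchimedean place. -/
theorem prod_le {d : ℕ} (hd : 2 ≤ d) {ζ : Fin d → K} {i₀ : Fin d} (hi₀ : ζ i₀ = 0) {δ μ : K}
    (hδ : δ ≠ 0) (hμ : μ ^ (d - 1) = δ) {ι : Type*} [Finite ι] (O : Orb ζ δ ι)
    {v : AbsoluteValue K ℝ} (hv : IsNonarchimedean v) (P : ι) :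
    ∏ i, v (O.y P - ζ i) ≤ max 1 (rho ζ μ v) * max 1 (v μ) ^ d := by
  have hs : ∀ P, v (O.y P) ≤ max 1 (rho ζ μ v) * max 1 (v μ) := by
    intro P
    have := size_norm hd hi₀ hδ hμ O (QU.of_nonarch hv) le_rfl P
    rwa [one_pow, one_mul] at this
  set B := max 1 (rho ζ μ v) * max 1 (v μ) with hB
  have hB0 : 0 ≤ B := by positivity
  have e0 : max 1 (rho ζ μ v) * max 1 (v μ) ^ d = max 1 (v δ) * B := by
    rw [max_root hμ v, hB]
    have e1 : max 1 (v μ) ^ d = max 1 (v μ) ^ (d - 1) * max 1 (v μ) := by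
      rw [← pow_succ]; congr 1; omega
    rw [e1]; ring
  rw [e0, ← map_prod]
  have h1 := O.rel P
  rw [nf_eval] at h1
  have h2 : ∏ i, (O.y P - ζ i) =
      (O.y (O.σ P) + δ * O.y (O.σ⁻¹ P)) + (-(1 + δ)) * O.y P := by
    rw [h1]; ring
  rw [h2]
  have hD1 : 1 ≤ max 1 (v δ) := le_max_left _ _
  have hD2 : v δ ≤ max 1 (v δ) := le_max_right _ _
  have hD3 : v (-(1 + δ)) ≤ max 1 (v δ) := by
    rw [v.map_neg]
    refine (hv 1 δ).trans ?_
    rw [v.map_one]
  have hb1 : v (O.y (O.σ P)) ≤ max 1 (v δ) * B :=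
    (hs _).trans (le_mul_of_one_le_left hB0 hD1)
  have hb2 : v (δ * O.y (O.σ⁻¹ P)) ≤ max 1 (v δ) * B := by
    rw [v.map_mul]
    exact mul_le_mul hD2 (hs _) (v.nonneg _) (by positivity)
  have hb3 : v (-(1 + δ) * O.y P) ≤ max 1 (v δ) * B := by
    rw [v.map_mul]
    exact mul_le_mul hD3 (hs _) (v.nonneg _) (by positivity)
  exact (hv _ _).trans (max_le ((hv _ _).trans (max_le hb1 hb2)) hb3)

theorem exp_log_rho {x : ℝ} (hx : 0 ≤ x) : exp (max 0 (log x)) = max 1 x := by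
  rcases hx.eq_or_lt with h | h
  · rw [← h, log_zero, max_self, exp_zero, max_eq_left zero_le_one]
  · rcases le_total (log x) 0 with h1 | h1
    · rw [max_eq_left h1, exp_zero, max_eq_left]
      by_contra hcon
      push Not at hcon
      have := log_pos hcon
      linarith
    · rw [max_eq_right h1, exp_log h, max_eq_right]
      by_contra hcon
      push Not at hcon
      have := log_neg h hcon
      linarith

/-- A gain from lower bounds for the distances to the fixed points. -/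
theorem gain_of_dist {d : ℕ} (hd : 2 ≤ d) {ζ : Fin d → K} {i₀ : Fin d} (hi₀ : ζ i₀ = 0)
    {δ μ : K} (hδ : δ ≠ 0) (hμ : μ ^ (d - 1) = δ) {ι : Type*} [Fintype ι] [Nonempty ι]
    (O : Orb ζ δ ι) {v : AbsoluteValue K ℝ} (hv : IsNonarchimedean v) (ℓ : Fin d → ℝ)
    (h0 : ∀ i, 0 ≤ ℓ i) (h : ∀ i, 0 < ℓ i → ∀ P, exp (ℓ i) * max 1 (v μ) ≤ v (O.y P - ζ i))
    (hpos : 0 < ∑ i, ℓ i - max 0 (log (rho ζ μ v))) :
    ∃ g, Gain O Finset.univ μ v ((∑ i, ℓ i - max 0 (log (rho ζ μ v))) / d) g := by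
  classical
  set r := max 0 (log (rho ζ μ v)) with hr
  set Λ := ∑ i, ℓ i - r with hΛ
  set F := Finset.univ.filter (fun i => 0 < ℓ i) with hF
  set M := Finset.univ.filter (fun i => ¬ 0 < ℓ i) with hM
  have hcard : M.card + F.card = d := by
    have := Finset.card_filter_add_card_filter_not (s := (Finset.univ : Finset (Fin d)))
      (fun i => 0 < ℓ i)
    rw [Finset.card_univ, Fintype.card_fin] at this
    rw [hM, hF]
    omega
  have hsumF : ∑ i, ℓ i = ∑ i ∈ F, ℓ i := by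
    rw [← Finset.sum_filter_add_sum_filter_not Finset.univ (fun i => 0 < ℓ i)]
    have : ∑ i ∈ Finset.univ.filter (fun i => ¬ 0 < ℓ i), ℓ i = 0 := by
      refine Finset.sum_eq_zero (fun i hi => ?_)
      have := (Finset.mem_filter.mp hi).2
      exact le_antisymm (not_lt.mp this) (h0 i)
    rw [this, add_zero]
  set m := max 1 (v μ) with hm
  have hm0 : 0 < m := by positivity
  have hm1 : 1 ≤ m := le_max_left _ _
  have key : ∀ P, ∏ i ∈ M, v (O.y P - ζ i) ≤ exp (-Λ) * m ^ M.card := by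
    intro P
    have h1 := prod_le hd hi₀ hδ hμ O hv P
    rw [← exp_log_rho (rho_nonneg ζ μ v), ← hr, ← hm] at h1
    have h2 : ∏ i, v (O.y P - ζ i) =
        (∏ i ∈ F, v (O.y P - ζ i)) * ∏ i ∈ M, v (O.y P - ζ i) := by
      rw [hF, hM]
      exact (Finset.prod_filter_mul_prod_filter_not Finset.univ (fun i => 0 < ℓ i) _).symm
    have h3 : exp (∑ i ∈ F, ℓ i) * m ^ F.card ≤ ∏ i ∈ F, v (O.y P - ζ i) := by
      rw [exp_sum, ← Finset.prod_const, ← Finset.prod_mul_distrib]
      refine Finset.prod_le_prod (fun i _ => by positivity) (fun i hi => ?_)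
      exact h i (Finset.mem_filter.mp hi).2 P
    have h4 : 0 ≤ ∏ i ∈ M, v (O.y P - ζ i) := Finset.prod_nonneg (fun i _ => v.nonneg _)
    have h5 : (exp (∑ i ∈ F, ℓ i) * m ^ F.card) * ∏ i ∈ M, v (O.y P - ζ i) ≤ exp r * m ^ d := by
      refine le_trans ?_ (h2 ▸ h1)
      exact mul_le_mul_of_nonneg_right h3 h4
    have h6 : exp r * m ^ d =
        (exp (∑ i ∈ F, ℓ i) * m ^ F.card) * (exp (-Λ) * m ^ M.card) := by
      have e1 : exp r = exp (∑ i ∈ F, ℓ i) * exp (-Λ) := by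
        rw [← exp_add]
        congr 1
        rw [hΛ, hsumF]; ring
      have e2 : m ^ d = m ^ M.card * m ^ F.card := by rw [← pow_add, hcard]
      rw [e1, e2]
      ring
    rw [h6] at h5
    exact le_of_mul_le_mul_left h5 (by positivity)
  have hd0 : (0 : ℝ) < d := by
    have : 0 < d := by omega
    exact_mod_cast this
  have hMpos : 1 ≤ M.card := by
    by_contra hcon
    have hM0 : M.card = 0 := by omega
    have hM1 : M = ∅ := Finset.card_eq_zero.mp hM0
    obtain ⟨P⟩ := (inferInstance : Nonempty ι)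
    have h1 := key P
    rw [hM1, Finset.prod_empty, Finset.card_empty, pow_zero, mul_one] at h1
    have h2 : exp (-Λ) < 1 := by
      rw [← exp_zero]
      exact exp_lt_exp.mpr (by linarith)
    linarith
  have hMd : M.card ≤ d := by omega
  have hdeg : (∏ i ∈ M, (X - C (ζ i)) : K[X]).natDegree = M.card := by
    rw [natDegree_prod_of_monic _ _ (fun i _ => monic_X_sub_C _)]
    simp
  have hval : ∀ P, v ((∏ i ∈ M, (X - C (ζ i)) : K[X]).eval (O.y P)) ≤
      (exp (-(Λ / d)) * m) ^ M.card := by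
    intro P
    rw [eval_prod, map_prod]
    simp only [eval_sub, eval_X, eval_C]
    refine (key P).trans ?_
    rw [mul_pow, ← exp_nat_mul]
    refine mul_le_mul_of_nonneg_right (exp_le_exp.mpr ?_) (by positivity)
    have h1 : ((M.card : ℕ) : ℝ) ≤ d := by exact_mod_cast hMd
    have h2 : (M.card : ℝ) * (Λ / d) ≤ Λ := by
      rw [mul_div_assoc', div_le_iff₀ hd0]
      nlinarith
    linarith
  refine ⟨∏ i ∈ M, (X - C (ζ i)), ?_⟩
  constructor
  · exact monic_prod_of_monic _ _ (fun i _ => monic_X_sub_C _)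
  · rw [hdeg]; exact hMpos
  · rw [hdeg]; exact hMd
  · intro P _
    rw [hdeg]
    exact hval P
  · intro P _
    rw [hdeg]
    exact hval _

end Pool.Agent.H.MP_0e6b5f_nt.Df
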