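import Pool.Agent.H.MP_0e6b5f_nt.Dom.Enum
import Pool.Agent.H.MP_0e6b5f_nt.Eng.Num

/-!
# The choice of the parameters
-/

namespace Pool.Agent.H.MP_0e6b5f_nt.Df

open Pool.Agent.H.MP_0e6b5f_nt.Dom
open Pool.Agent.H.MP_0e6b5f_nt.Eng
open Real

/-- The number of monomials. -/
theorem tri_le {x : ℝ} (hx : 2 ≤ x) {N : ℕ} (hN : (N : ℝ) ≤ x + 1) :
    (tri (N + 1) : ℝ) ≤ (2 * x) ^ 2 := by
  have h : 2 * tri (N + 1) = (N + 1) * (N + 2) := two_tri (N + 1)
  have h' : 2 * (tri (N + 1) : ℝ) = (N + 1) * (N + 2) := by exact_mod_cast h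
  have hN0 : (0 : ℝ) ≤ N := Nat.cast_nonneg N
  nlinarith

theorem log_len {d : ℕ} (hd : 2 ≤ d) {x : ℝ} (hx : 2 ≤ x) {N : ℕ} (hN1 : 1 ≤ N)
    (hN : (N : ℝ) ≤ x + 1) : ((Nat.log d N + 1 : ℕ) : ℝ) ≤ 2 * (1 + log x) := by
  have h1 : Nat.log d N ≤ Nat.log 2 N := Nat.log_anti_left (by norm_num) hd
  have h3 : ((Nat.log 2 N : ℕ) : ℝ) * log 2 ≤ log (2 * x) := by
    rw [← log_pow]
    apply log_le_log (by positivity)
    have h4 : (((2 : ℕ) ^ Nat.log 2 N : ℕ) : ℝ) ≤ (N : ℝ) := by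
      exact_mod_cast Nat.pow_log_le_self 2 (by omega)
    push_cast at h4
    linarith
  rw [log_mul (by norm_num) (by linarith)] at h3
  have h5 : ((Nat.log d N : ℕ) : ℝ) ≤ ((Nat.log 2 N : ℕ) : ℝ) := by exact_mod_cast h1
  have h6 := log_two_gt_d9
  have h7 : 0 ≤ log x := log_nonneg (by linarith)
  have h8 : ((Nat.log 2 N : ℕ) : ℝ) ≤ 1 + 2 * log x := by
    by_contra hc
    push Not at hc
    have : (1 + 2 * log x) * log 2 < ((Nat.log 2 N : ℕ) : ℝ) * log 2 :=
      mul_lt_mul_of_pos_right hc (by linarith)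
    nlinarith
  push_cast
  linarith

/-- The choice of the degree `N` and of the length `L` of the expansions. -/
theorem numeric2 {d : ℕ} (hd : 2 ≤ d) : ∃ C : ℝ, 0 ≤ C ∧ ∀ D h Λ : ℝ, 0 ≤ D → 0 ≤ h → 0 < Λ →
    ∃ N L : ℕ, 1 ≤ L ∧ N < d ^ L ∧ 3 * d ≤ N ∧
      D * (log ((tri (N + 1)).factorial : ℝ) +
        (((d + 3) * (2 * (d - 1) * L * tri (N + 1)) : ℕ) : ℝ) * log 2) +
        ((2 * (d - 1) * L * tri (N + 1) : ℕ) : ℝ) * h <
        Λ * ((tri (N + 1) : ℝ) * (N / 3 - d)) ∧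
      2 * (((d ^ (2 * L) : ℕ) : ℝ)) ^ 2 ≤
        C * ((1 + (D + h) / Λ) * (1 + log (1 + (D + h) / Λ))) ^ 4 := by
  have hd' : (2 : ℝ) ≤ d := by exact_mod_cast hd
  have hC3 := C3_ge hd
  have hC1 := C1_ge hd
  have hC30 : 0 < C3 d := by linarith [hC3.2]
  have hC50 : 0 ≤ C5 d := by unfold C5; positivity
  refine ⟨2 * d ^ 4 * 2 ^ 4 * C5 d ^ 4, by positivity, ?_⟩
  intro D h Λ hD hh hΛ
  set Y := 1 + (D + h) / Λ with hY
  have hY1 : 1 ≤ Y := by
    have : 0 ≤ (D + h) / Λ := by positivity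
    linarith
  have hlY : Λ + D + h = Λ * Y := by
    rw [hY]; field_simp; ring
  have hlogY : 0 ≤ log Y := log_nonneg hY1
  set x := C5 d * (Y * (1 + log Y)) with hx
  have hxl : C3 d * Y * (1 + log x) ≤ x := x_large hd hY1
  have hC5 : 1 ≤ C5 d := by unfold C5; nlinarith [hC3.2]
  have hx1 : 1 ≤ x := by
    have h2 : 1 ≤ Y * (1 + log Y) := one_le_mul_of_one_le_of_one_le hY1 (by linarith)
    exact one_le_mul_of_one_le_of_one_le hC5 h2
  have hlogx : 0 ≤ log x := log_nonneg hx1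
  have hYx : 1 ≤ Y * (1 + log x) := one_le_mul_of_one_le_of_one_le hY1 (by linarith)
  -- the constants
  have hC3b : 3 * C1 d + 3 * d ≤ C3 d := by
    unfold C3
    have h1 : (2 : ℝ) ≤ d * (d - 1) := by nlinarith
    have h2 : 2 * C1 d ≤ d * (d - 1) * C1 d :=
      mul_le_mul_of_nonneg_right h1 (by linarith)
    linarith
  have hxb : (3 * C1 d + 3 * d) * (Y * (1 + log x)) ≤ x := by
    refine le_trans (mul_le_mul_of_nonneg_right hC3b (by linarith)) ?_
    linarith
  have hx3d : 3 * (d : ℝ) ≤ x := by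
    have h1 : 3 * (d : ℝ) * 1 ≤ (3 * C1 d + 3 * d) * (Y * (1 + log x)) :=
      mul_le_mul (by linarith) hYx zero_le_one (by linarith)
    linarith
  have hx2 : 2 ≤ x := by linarith
  set N := ⌊x⌋₊ + 1 with hN
  have hNx : x ≤ (N : ℝ) := by
    rw [hN]; push_cast; exact (Nat.lt_floor_add_one x).le
  have hNx' : (N : ℝ) ≤ x + 1 := by
    rw [hN]; push_cast
    have := Nat.floor_le (show 0 ≤ x by linarith)
    linarith
  have hN1 : 1 ≤ N := by omega
  set L := Nat.log d N + 1 with hL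
  have hLle : (L : ℝ) ≤ 2 * (1 + log x) := log_len hd hx2 hN1 hNx'
  set n := tri (N + 1) with hn
  have hn4x : (n : ℝ) ≤ (2 * x) ^ 2 := tri_le hx2 hNx'
  have hn1 : 1 ≤ n := by
    rw [hn, tri]
    omega
  have hn0 : (0 : ℝ) < n := by exact_mod_cast hn1
  refine ⟨N, L, by omega, Nat.lt_pow_succ_log_self (by omega) N, ?_, ?_, ?_⟩
  · have : (((3 * d : ℕ)) : ℝ) ≤ (N : ℝ) := by push_cast; linarith
    exact_mod_cast this
  · have hlog2 : log 2 ≤ 1 := by have := log_two_lt_d9; linarith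
    have hlog20 : 0 ≤ log 2 := log_nonneg (by norm_num)
    have hlogn : log (n : ℝ) ≤ 2 * (1 + log x) := by
      have h2 := log_le_log hn0 hn4x
      rw [log_pow, log_mul (by norm_num) (by linarith)] at h2
      push_cast at h2
      linarith
    have hfac : log (n.factorial : ℝ) ≤ n * (2 * (1 + log x)) := by
      have h1 : log (n.factorial : ℝ) ≤ n * log n := by
        rw [← log_pow]
        apply log_le_log (by exact_mod_cast Nat.factorial_pos n)
        exact_mod_cast Nat.factorial_le_pow n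
      exact h1.trans (mul_le_mul_of_nonneg_left hlogn (by positivity))
    have hdm : ((d - 1 : ℕ) : ℝ) = (d : ℝ) - 1 := by rw [Nat.cast_sub (by omega)]; norm_num
    have hd1 : (0 : ℝ) < (d : ℝ) - 1 := by linarith
    have hL0 : (0 : ℝ) ≤ L := Nat.cast_nonneg L
    have hloss : D * (log (n.factorial : ℝ) + ((d + 3) * (2 * (d - 1) * L * n) : ℕ) * log 2) +
        (2 * (d - 1) * L * n : ℕ) * h ≤ n * ((D + h) * (C1 d * (1 + log x))) := by
      have e4 : ((2 * (d - 1) * L * n : ℕ) : ℝ) = 2 * ((d : ℝ) - 1) * L * n := by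
        push_cast [hdm]; ring
      have e5 : (((d + 3) * (2 * (d - 1) * L * n) : ℕ) : ℝ) =
          ((d : ℝ) + 3) * (2 * ((d : ℝ) - 1) * L * n) := by
        push_cast [hdm]; ring
      rw [e4, e5]
      have e6 : ((d : ℝ) + 3) * (2 * ((d : ℝ) - 1) * L * n) * log 2 ≤
          n * (4 * (d - 1) * (d + 3) * (1 + log x)) := by
        calc ((d : ℝ) + 3) * (2 * ((d : ℝ) - 1) * L * n) * log 2 ≤
              ((d : ℝ) + 3) * (2 * ((d : ℝ) - 1) * L * n) * 1 :=
              mul_le_mul_of_nonneg_left hlog2 (by positivity)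
          _ = (((d : ℝ) + 3) * (2 * ((d : ℝ) - 1)) * n) * L := by ring
          _ ≤ (((d : ℝ) + 3) * (2 * ((d : ℝ) - 1)) * n) * (2 * (1 + log x)) :=
              mul_le_mul_of_nonneg_left hLle (by positivity)
          _ = _ := by ring
      have e7 : 2 * ((d : ℝ) - 1) * L * n * h ≤
          n * (4 * (d - 1) * (d + 3) * (1 + log x)) * h := by
        apply mul_le_mul_of_nonneg_right _ hh
        calc 2 * ((d : ℝ) - 1) * L * n = (2 * ((d : ℝ) - 1) * n) * L := by ring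
          _ ≤ (2 * ((d : ℝ) - 1) * n) * (2 * (1 + log x)) :=
              mul_le_mul_of_nonneg_left hLle (by positivity)
          _ ≤ (2 * ((d : ℝ) - 1) * n) * (2 * (1 + log x)) * (d + 3) :=
              le_mul_of_one_le_right (by positivity) (by linarith)
          _ = _ := by ring
      calc _ ≤ D * (n * (2 * (1 + log x)) + n * (4 * (d - 1) * (d + 3) * (1 + log x))) +
            n * (4 * (d - 1) * (d + 3) * (1 + log x)) * h :=
            add_le_add (mul_le_mul_of_nonneg_left (add_le_add hfac e6) hD) e7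
        _ ≤ D * (n * (2 * (1 + log x)) + n * (4 * (d - 1) * (d + 3) * (1 + log x))) +
            (n * (4 * (d - 1) * (d + 3) * (1 + log x)) * h + n * (2 * (1 + log x)) * h) := by
            have : 0 ≤ n * (2 * (1 + log x)) * h := by positivity
            linarith
        _ = n * ((D + h) * (C1 d * (1 + log x))) := by unfold C1; ring
    have hC10 : 0 < C1 d := by linarith
    have hDh : D + h < Λ * Y := by linarith
    have hkey : (D + h) * (C1 d * (1 + log x)) < Λ * ((N : ℝ) / 3 - d) := by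
      have h1 : (D + h) * (C1 d * (1 + log x)) < Λ * Y * (C1 d * (1 + log x)) :=
        mul_lt_mul_of_pos_right hDh (by positivity)
      have h2 : C1 d * (Y * (1 + log x)) ≤ (N : ℝ) / 3 - d := by
        have h3 : (d : ℝ) * 1 ≤ d * (Y * (1 + log x)) :=
          mul_le_mul_of_nonneg_left hYx (by linarith)
        linarith
      have h4 := mul_le_mul_of_nonneg_left h2 hΛ.le
      calc (D + h) * (C1 d * (1 + log x)) < Λ * Y * (C1 d * (1 + log x)) := h1
        _ = Λ * (C1 d * (Y * (1 + log x))) := by ring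
        _ ≤ _ := h4
    refine lt_of_le_of_lt hloss ?_
    calc (n : ℝ) * ((D + h) * (C1 d * (1 + log x))) < n * (Λ * ((N : ℝ) / 3 - d)) :=
          mul_lt_mul_of_pos_left hkey hn0
      _ = _ := by ring
  · have h1 : ((d ^ L : ℕ) : ℝ) ≤ d * (2 * x) := by
      have h2 : d ^ L ≤ d * N := by
        rw [hL, pow_succ, mul_comm]
        exact Nat.mul_le_mul_left d (Nat.pow_log_le_self d (by omega))
      calc ((d ^ L : ℕ) : ℝ) ≤ ((d * N : ℕ) : ℝ) := by exact_mod_cast h2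
        _ = d * N := by push_cast; ring
        _ ≤ d * (2 * x) := mul_le_mul_of_nonneg_left (by linarith) (by linarith)
    have h3 : (((d ^ (2 * L) : ℕ) : ℝ)) ^ 2 = ((d ^ L : ℕ) : ℝ) ^ 4 := by
      push_cast
      ring
    rw [h3]
    have h4 : ((d ^ L : ℕ) : ℝ) ^ 4 ≤ (d * (2 * x)) ^ 4 :=
      pow_le_pow_left₀ (Nat.cast_nonneg _) h1 4
    calc 2 * ((d ^ L : ℕ) : ℝ) ^ 4 ≤ 2 * (d * (2 * x)) ^ 4 := by linarith
      _ = 2 * d ^ 4 * 2 ^ 4 * C5 d ^ 4 * (Y * (1 + log Y)) ^ 4 := by rw [hx]; ring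

end Pool.Agent.H.MP_0e6b5f_nt.Df
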