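import Pool.Agent.H.MP_0e6b5f_nt.Df.Glob
import Pool.Agent.H.MP_0e6b5f_nt.Df.Num
import Pool.Agent.H.MP_0e6b5f_nt.Df.DegenS

/-!
# The engine with gains at many places
-/

namespace Pool.Agent.H.MP_0e6b5f_nt.Df

open Pool.Agent.H.MP_0e6b5f_nt.Dom Pool.Agent.H.MP_0e6b5f_nt.Eng
open Height Height.AdmissibleAbsValues Function Real Polynomial

theorem enum_injective' : Function.Injective enum := by
  intro t t' h
  obtain ⟨s, i, hi, rfl⟩ := exists_tri t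
  obtain ⟨s', i', hi', rfl⟩ := exists_tri t'
  rw [enum_tri s i hi, enum_tri s' i' hi', Prod.mk.injEq] at h
  obtain ⟨h1, h2⟩ := h
  subst h1
  have : s = s' := by omega
  rw [this]

theorem enum_lt_pow {d L N : ℕ} (hN : N < d ^ L) {t : ℕ} (ht : t < tri (N + 1)) :
    (enum t).1 < d ^ L ∧ (enum t).2 < d ^ L := by
  have h := edeg_lt ht
  rw [edeg] at h
  constructor <;> omega

/-- A relation in terms of the index set. -/
theorem rel_enum {K : Type*} [Field K] {ι : Type*} {n : ℕ} (f : ℕ × ℕ → ι → K) {S : Finset ι}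
    {a : Fin n → K} (ha : a ≠ 0) (hrel : ∀ P ∈ S, ∑ i, a i * f (enum i) P = 0) :
    ∃ (I : Finset (ℕ × ℕ)) (b : ℕ × ℕ → K), (∀ s ∈ I, ∃ t, t < n ∧ enum t = s) ∧
      (∃ s ∈ I, b s ≠ 0) ∧ ∀ P ∈ S, ∑ s ∈ I, b s * f s P = 0 := by
  classical
  refine ⟨Finset.univ.image (fun i : Fin n => enum i), fun s => ∑ i : Fin n,
    if enum (i : ℕ) = s then a i else 0, ?_, ?_, ?_⟩
  · intro s hs
    obtain ⟨i, -, hi⟩ := Finset.mem_image.1 hs
    exact ⟨i, i.2, hi⟩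
  · obtain ⟨i, hi⟩ := Function.ne_iff.1 ha
    refine ⟨enum i, Finset.mem_image.2 ⟨i, Finset.mem_univ _, rfl⟩, ?_⟩
    have h1 : (∑ j : Fin n, if enum (j : ℕ) = enum (i : ℕ) then a j else 0) = a i := by
      rw [Finset.sum_eq_single i]
      · simp
      · intro j _ hj
        rw [if_neg]
        intro h
        exact hj (Fin.ext (enum_injective' h))
      · intro h
        exact absurd (Finset.mem_univ i) h
    simpa [h1] using hi
  · intro P hP
    refine Eq.trans ?_ (hrel P hP)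
    simp_rw [Finset.sum_mul]
    rw [Finset.sum_comm]
    refine Finset.sum_congr rfl fun i _ => ?_
    rw [Finset.sum_eq_single (enum (i : ℕ))]
    · simp
    · intro s _ hs
      rw [if_neg (fun h => hs h.symm), zero_mul]
    · intro h
      exact absurd (Finset.mem_image.2 ⟨i, Finset.mem_univ _, rfl⟩) h

/-- The bound for a finite invariant set with gains at many places. -/
theorem engine2 {d : ℕ} (hd : 2 ≤ d) : ∃ C : ℝ, 0 ≤ C ∧ ∀ {K : Type*} [Field K]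
    [AdmissibleAbsValues K] {ζ : Fin d → K} {i₀ : Fin d}, ζ i₀ = 0 → ∀ {δ μ : K}, δ ≠ 0 →
    μ ^ (d - 1) = δ → ∀ {ι : Type*} [Fintype ι] [DecidableEq ι] (O : Orb ζ δ ι),
    (∀ P Q, O.y P = O.y Q → O.y (O.σ⁻¹ P) = O.y (O.σ⁻¹ Q) → P = Q) →
    ∀ (S : Finset ι), 4 * (Finset.univ \ S).card ≤ Fintype.card ι →
    ∀ (T : Finset (nonarchAbsVal (K := K))) (lam : nonarchAbsVal (K := K) → ℝ)
    (g : nonarchAbsVal (K := K) → K[X]), (∀ w ∈ T, 0 ≤ lam w) →
    (∀ w ∈ T, Gain O S μ w.val (lam w) (g w)) →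
    ∀ (w₁ : AbsoluteValue K ℝ), w₁ ∈ archAbsVal (K := K) → ∀ {l₁ : ℝ}, 0 ≤ l₁ →
    (l₁ = 0 ∨ ∃ g₁, Gain O S μ w₁ l₁ g₁) → ∀ {Λ h : ℝ}, Λ = ∑ w ∈ T, lam w + l₁ → 0 < Λ →
    log (mulHeight (tup ζ) * mulHeight₁ δ) ≤ h →
    (Fintype.card ι : ℝ) ≤
      C * ((1 + (totalWeight K + h) / Λ) * (1 + log (1 + (totalWeight K + h) / Λ))) ^ 4 := by
  obtain ⟨C, hC0, hC⟩ := numeric2 hd
  refine ⟨C, hC0, ?_⟩
  intro K _ _ ζ i₀ hi₀ δ μ hδ hμ ι _ _ O hinj S hS T lam g hlam hT w₁ hw₁ l₁ hl₁ h₁ Λ h hΛ hΛ0 hh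
  have hH : 1 ≤ mulHeight (tup ζ) * mulHeight₁ δ :=
    one_le_mul_of_one_le_of_one_le (one_le_mulHeight _) (one_le_mulHeight₁ _)
  have hh0 : 0 ≤ h := (log_nonneg hH).trans hh
  obtain ⟨N, L, hL, hN, hNd, hnum, hbound⟩ := hC (totalWeight K) h Λ (Nat.cast_nonneg _) hh0 hΛ0
  refine le_trans ?_ hbound
  rcases rel_or_det S (fun i : Fin (tri (N + 1)) => ee O L (enum i)) with
    ⟨a, ha, hrel⟩ | ⟨p, hp, hdet⟩
  · obtain ⟨I, b, hI, hb, hb2⟩ := rel_enum (fun s P => ee O L s P) ha hrel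
    have hdeg := degen_sub hd hδ O hinj L S hS I b (fun s hs => by
      obtain ⟨t, ht, rfl⟩ := hI s hs
      exact enum_lt_pow hN ht) hb hb2
    exact_mod_cast hdeg
  · exfalso
    have h1 := glob_multi hd hi₀ hδ hμ O S T lam g hlam hT w₁ hw₁ hl₁ h₁ hL hN p hp hNd hdet
    rw [← hΛ] at h1
    set n := tri (N + 1) with hn
    have hfac : (0 : ℝ) < n.factorial := by exact_mod_cast Nat.factorial_pos n
    have hH0 : 0 < mulHeight (tup ζ) * mulHeight₁ δ := by linarith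
    have h3 := log_nonneg h1
    rw [log_mul (exp_pos _).ne' (by positivity), log_exp, log_mul (by positivity) (by positivity),
      log_pow, log_mul hfac.ne' (by positivity), log_pow, log_pow] at h3
    have h4 : ((2 * (d - 1) * L * n : ℕ) : ℝ) * log (mulHeight (tup ζ) * mulHeight₁ δ) ≤
        ((2 * (d - 1) * L * n : ℕ) : ℝ) * h := mul_le_mul_of_nonneg_left hh (Nat.cast_nonneg _)
    linarith

end Pool.Agent.H.MP_0e6b5f_nt.Df
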