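import Pool.Agent.H.MP_0e6b5f_nt.DefsDefect
import Pool.Agent.H.MP_0e6b5f_nt.Eng.OnePlace

/-!
# The extension by roots, and heights
-/

namespace Pool.Agent.H.MP_0e6b5f_nt.Df

open Pool.Agent.H.MP_0e6b5f_nt Pool.Agent.H.MP_0e6b5f_nt.Dom Pool.Agent.H.MP_0e6b5f_nt.Eng
open Polynomial Module Height Height.AdmissibleAbsValues

/-- The height of the normalised data over an extension. -/
theorem height_ext {L E : Type*} [Field L] [NumberField L] [Field E] [NumberField E]
    [Algebra L E] {d : ℕ} (hd : 2 ≤ d) {a δ : L} {c : E} (hc : c ^ (d - 1) = algebraMap L E a)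
    (ζ : Fin d → L) (i₀ : Fin d) :
    Real.log (mulHeight (tup (fun i => c * (algebraMap L E (ζ i) - algebraMap L E (ζ i₀))))) +
      Real.log (mulHeight₁ (algebraMap L E δ)) ≤ finrank L E * fixHeight a δ ζ := by
  set X : Option (Fin d × Fin d) → E :=
    tup (fun i => c * (algebraMap L E (ζ i) - algebraMap L E (ζ i₀))) with hX
  set Y : Option (Fin d × Fin d) → L :=
    fun o => o.elim 1 (fun p => a * (ζ p.1 - ζ p.2) ^ (d - 1)) with hY
  have h1 : X ^ (d - 1) = fun o => algebraMap L E (Y o) := by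
    funext o
    cases o with
    | none => simp [hX, hY, tup]
    | some p =>
      have e1 : X (some p) = c * algebraMap L E (ζ p.1 - ζ p.2) := by
        simp only [hX, tup, Option.elim_some, map_sub]
        ring
      rw [Pi.pow_apply, e1, mul_pow, hc]
      simp only [hY, Option.elim_some, map_mul, map_pow]
  have h2 : mulHeight X ≤ mulHeight Y ^ finrank L E := by
    rw [← mulHeight_ext (L := E) Y, ← h1, mulHeight_pow]
    exact le_self_pow₀ (one_le_mulHeight X) (by omega)
  have h3 : Real.log (mulHeight X) ≤ finrank L E * Real.log (mulHeight Y) := by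
    rw [← Real.log_pow]
    exact Real.log_le_log (mulHeight_pos X) h2
  rw [mulHeight₁_ext (L := E) δ, Real.log_pow]
  have h4 : fixHeight a δ ζ = Real.log (mulHeight Y) + Real.log (mulHeight₁ δ) := rfl
  rw [h4, mul_add]
  linarith

theorem pow_max_one (m : ℕ) {x : ℝ} (hx : 0 ≤ x) : (max 1 x) ^ m = max 1 (x ^ m) := by
  rcases le_total 1 x with h1 | h1
  · rw [max_eq_right h1, max_eq_right (one_le_pow₀ h1)]
  · rw [max_eq_left h1, max_eq_left (pow_le_one₀ hx h1), one_pow]

theorem pow_iSup_fin {ι : Type*} [Finite ι] [Nonempty ι] (f : ι → ℝ) (hf : ∀ i, 0 ≤ f i)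
    (m : ℕ) : (⨆ i, f i) ^ m = ⨆ i, f i ^ m := by
  apply le_antisymm
  · obtain ⟨p, hp⟩ := exists_eq_ciSup_of_finite (f := f)
    rw [← hp]
    exact le_ciSup (f := fun i => f i ^ m) (Set.finite_range _).bddAbove p
  · apply ciSup_le
    intro p
    apply pow_le_pow_left₀ (hf p)
    exact le_ciSup (f := f) (Set.finite_range _).bddAbove p

/-- The normalised size at a place above `w`. -/
theorem size_ext {L E : Type*} [Field L] [Field E] [Algebra L E] {d : ℕ} (hd : 2 ≤ d)
    {a δ : L} {c μ : E} (hc : c ^ (d - 1) = algebraMap L E a)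
    (hμ : μ ^ (d - 1) = algebraMap L E δ) (w : AbsoluteValue L ℝ) (w' : AbsoluteValue E ℝ) (k : ℕ)
    (hw' : ∀ x : L, w' (algebraMap L E x) = w x ^ k) (z : L) :
    (w' (c * algebraMap L E z) / max 1 (w' μ)) ^ (d - 1) = normSize w a δ d z ^ k := by
  have h1 : w' (c * algebraMap L E z) ^ (d - 1) = (w a * w z ^ (d - 1)) ^ k := by
    rw [← map_pow, mul_pow, hc, ← map_pow, ← map_mul, hw', map_mul, map_pow]
  have h2 : (w' μ) ^ (d - 1) = (w δ) ^ k := by rw [← map_pow, hμ, hw']
  rw [normSize, div_pow, div_pow, h1, pow_max_one _ (w'.nonneg _), pow_max_one _ (w.nonneg _), h2]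

/-- The normalised diameter at a place above `w`. -/
theorem rho_fixDiam {L E : Type*} [Field L] [Field E] [Algebra L E] {d : ℕ} (hd : 2 ≤ d)
    {a δ : L} {c μ : E} (hc : c ^ (d - 1) = algebraMap L E a)
    (hμ : μ ^ (d - 1) = algebraMap L E δ) (ζ : Fin d → L) (i₀ : Fin d)
    (w : AbsoluteValue L ℝ) (w' : AbsoluteValue E ℝ) (k : ℕ)
    (hw' : ∀ x : L, w' (algebraMap L E x) = w x ^ k) :
    rho (fun i => c * (algebraMap L E (ζ i) - algebraMap L E (ζ i₀))) μ w' ^ (d - 1) =
      fixDiam w a δ ζ ^ k := by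
  have hne : Nonempty (Fin d × Fin d) := ⟨(⟨0, by omega⟩, ⟨0, by omega⟩)⟩
  have hM : (0 : ℝ) ≤ (max 1 (w' μ))⁻¹ := by positivity
  have h1 : rho (fun i => c * (algebraMap L E (ζ i) - algebraMap L E (ζ i₀))) μ w' =
      ⨆ p : Fin d × Fin d, w' (c * algebraMap L E (ζ p.1 - ζ p.2)) / max 1 (w' μ) := by
    rw [rho, div_eq_mul_inv, Real.iSup_mul_of_nonneg hM]
    congr 1
    funext p
    have e1 : c * (algebraMap L E (ζ p.1) - algebraMap L E (ζ i₀)) -
        c * (algebraMap L E (ζ p.2) - algebraMap L E (ζ i₀)) =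
        c * algebraMap L E (ζ p.1 - ζ p.2) := by
      rw [(algebraMap L E).map_sub]
      ring
    rw [div_eq_mul_inv]
    simp only [e1]
  have hnn : ∀ z : L, 0 ≤ normSize w a δ d z := fun z => by
    unfold normSize
    exact div_nonneg (mul_nonneg (w.nonneg _) (pow_nonneg (w.nonneg _) _)) (by positivity)
  rw [h1, pow_iSup_fin _ (fun p => div_nonneg (w'.nonneg _) (by positivity)), fixDiam,
    pow_iSup_fin _ (fun p => hnn _)]
  congr 1
  funext p
  exact size_ext hd hc hμ w w' k hw' (ζ p.1 - ζ p.2)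

end Pool.Agent.H.MP_0e6b5f_nt.Df
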