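import Pool.Agent.H.MP_0e6b5f_nt.Eng.ExtField

/-!
# The extension by roots of the leading coefficient and of the Jacobian
-/

namespace Pool.Agent.H.MP_0e6b5f_nt.Df

open Pool.Agent.H.MP_0e6b5f_nt Pool.Agent.H.MP_0e6b5f_nt.Dom Pool.Agent.H.MP_0e6b5f_nt.Eng
open Polynomial Module

/-- The extension by a root of the leading coefficient and a root of the Jacobian. -/
theorem exists_ext2 {L : Type*} [Field L] [NumberField L] {d : ℕ} (hd : 2 ≤ d) (a δ : L) :
    ∃ (E : IntermediateField L (AlgebraicClosure L)) (_ : FiniteDimensional L E) (c μ : E),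
      finrank L E ≤ (2 * d).factorial ∧ c ^ (d - 1) = algebraMap L E a ∧
      μ ^ (d - 1) = algebraMap L E δ := by
  classical
  have hA : ∀ x : L, (X ^ (d - 1) - C x : L[X]) ≠ 0 := fun x => X_pow_sub_C_ne_zero (by omega) x
  set p : L[X] := (X ^ (d - 1) - C a) * (X ^ (d - 1) - C δ) with hp
  have hp0 : p ≠ 0 := mul_ne_zero (hA a) (hA δ)
  have hpn : p.natDegree ≤ 2 * d := by
    rw [hp, natDegree_mul (hA a) (hA δ), natDegree_X_pow_sub_C, natDegree_X_pow_sub_C]
    omega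
  obtain ⟨E, hfd, hfr, hroots⟩ := extField_roots (Ω := AlgebraicClosure L) p.natDegree L p hp0 rfl
  have hex : ∀ x : L, ∃ y : AlgebraicClosure L, y ^ (d - 1) = algebraMap L _ x := fun x =>
    IsAlgClosed.exists_pow_nat_eq _ (by omega)
  obtain ⟨c₀, hc₀⟩ := hex a
  obtain ⟨μ₀, hμ₀⟩ := hex δ
  have hcE : c₀ ∈ E := by
    apply hroots
    rw [hp, map_mul]
    have : aeval c₀ (X ^ (d - 1) - C a : L[X]) = 0 := by
      rw [map_sub, map_pow, aeval_X, aeval_C, hc₀, sub_self]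
    rw [this, zero_mul]
  have hμE : μ₀ ∈ E := by
    apply hroots
    rw [hp, map_mul]
    have : aeval μ₀ (X ^ (d - 1) - C δ : L[X]) = 0 := by
      rw [map_sub, map_pow, aeval_X, aeval_C, hμ₀, sub_self]
    rw [this, mul_zero]
  exact ⟨E, hfd, ⟨c₀, hcE⟩, ⟨μ₀, hμE⟩, hfr.trans (Nat.factorial_le hpn), Subtype.ext hc₀,
    Subtype.ext hμ₀⟩

end Pool.Agent.H.MP_0e6b5f_nt.Df
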