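import Pool.Agent.H.MP_0e6b5f_nt.Df.Dist
import Pool.Agent.H.MP_0e6b5f_nt.Df.ExtC
import Pool.Agent.H.MP_0e6b5f_nt.Eng.Places

/-!
# The gains at the finite places
-/

namespace Pool.Agent.H.MP_0e6b5f_nt.Df

open Pool.Agent.H.MP_0e6b5f_nt Pool.Agent.H.MP_0e6b5f_nt.Dom Pool.Agent.H.MP_0e6b5f_nt.Eng
open Polynomial Module NumberField Height Height.AdmissibleAbsValues

/-- The place chosen above a finite place determines it. -/
theorem over_injective {L E : Type*} [Field L] [NumberField L] [Field E] [NumberField E]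
    [Algebra L E] (p : FinitePlace L → FinitePlace E) (k : FinitePlace L → ℕ)
    (hk : ∀ v, 1 ≤ k v) (hp : ∀ v, ∀ x : L, p v (algebraMap L E x) = v x ^ k v) :
    Function.Injective p := by
  intro v v' h
  have h1 := liesOver_of_pow (p v) v (k v) (hk v) (hp v)
  have h2 := liesOver_of_pow (p v') v' (k v') (hk v') (hp v')
  rw [h] at h1
  apply FinitePlace.maximalIdeal_injective
  apply IsDedekindDomain.HeightOneSpectrum.ext
  rw [h1.over, h2.over]

/-- The gains at the finite places. -/
theorem nar_gains {K L E : Type*} [Field K] [Field L] [NumberField L] [Field E] [NumberField E]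
    [Algebra K L] [Algebra L E] [Algebra K E] [IsScalarTower K L E] {d : ℕ} (hd : 2 ≤ d)
    {a δ : L} (hδ : δ ≠ 0) {c μ : E} (hc : c ^ (d - 1) = algebraMap L E a)
    (hμ : μ ^ (d - 1) = algebraMap L E δ) (ζ : Fin d → L) (i₀ : Fin d) {ι : Type*} [Fintype ι]
    [Nonempty ι]
    (O : Orb (fun i => c * (algebraMap L E (ζ i) - algebraMap L E (ζ i₀))) (algebraMap L E δ) ι)
    (hrat : ∀ P, ∃ x : K, O.y P = c * (algebraMap K E x - algebraMap L E (ζ i₀)))
    (T : Finset (FinitePlace L)) :
    ∃ (T' : Finset (nonarchAbsVal (K := E))) (lam : nonarchAbsVal (K := E) → ℝ)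
      (g : nonarchAbsVal (K := E) → E[X]), (∀ w ∈ T', 0 ≤ lam w) ∧
      (∀ w ∈ T', Gain O Finset.univ μ w.val (lam w) (g w)) ∧
      ∑ v ∈ T, ratDefect K v.val a δ ζ ≤ (d : ℝ) ^ 2 * ∑ w ∈ T', lam w := by
  classical
  choose p k hk hp using fun v : FinitePlace L => exists_finitePlace_over E v
  have hinj := over_injective p k hk hp
  let raw : FinitePlace L → ℝ := fun v =>
    ∑ i, max 0 (Real.log (ratDist K v.val a δ d (ζ i))) - max 0 (Real.log (fixDiam v.val a δ ζ))
  have hd1 : (0 : ℝ) < ((d - 1 : ℕ) : ℝ) := by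
    have : 0 < d - 1 := by omega
    exact_mod_cast this
  have hd0 : (0 : ℝ) < (d : ℝ) := by
    have : 0 < d := by omega
    exact_mod_cast this
  let lam₀ : FinitePlace L → ℝ := fun v => (k v : ℝ) * raw v / ((d - 1 : ℕ) : ℝ) / d
  have hgain : ∀ v, ∃ g, 0 < raw v → Gain O Finset.univ μ (p v).val (lam₀ v) g := by
    intro v
    by_cases hraw : 0 < raw v
    swap
    · exact ⟨0, fun h => absurd h hraw⟩
    have hpv : ∀ x : L, (p v).val (algebraMap L E x) = v.val x ^ k v := hp v
    have hk0 : (0 : ℝ) < k v := by exact_mod_cast hk v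
    set ℓ : Fin d → ℝ := fun i =>
      (k v : ℝ) * max 0 (Real.log (ratDist K v.val a δ d (ζ i))) / ((d - 1 : ℕ) : ℝ) with hℓ
    have h0 : ∀ i, 0 ≤ ℓ i := fun i => by
      have := le_max_left 0 (Real.log (ratDist K v.val a δ d (ζ i)))
      positivity
    have hζ0 : (fun i => c * (algebraMap L E (ζ i) - algebraMap L E (ζ i₀))) i₀ = 0 := by simp
    have hm0 : (0 : ℝ) < max 1 ((p v).val μ) := by positivity
    have hdist : ∀ i, 0 < ℓ i → ∀ P, Real.exp (ℓ i) * max 1 ((p v).val μ) ≤
        (p v).val (O.y P - c * (algebraMap L E (ζ i) - algebraMap L E (ζ i₀))) := by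
      intro i hi P
      set D := ratDist K v.val a δ d (ζ i) with hD
      have hlogD : 0 < Real.log D := by
        by_contra hcon
        rw [not_lt] at hcon
        have : ℓ i = 0 := by simp only [hℓ, ← hD, max_eq_left hcon]; ring
        rw [this] at hi
        exact lt_irrefl _ hi
      have hDnn : 0 ≤ D := by
        rw [hD, ratDist]
        refine Real.iInf_nonneg (fun x => ?_)
        rw [normSize]
        have := v.val.nonneg a
        have := v.val.nonneg (algebraMap K L x - ζ i)
        positivity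
      have hDpos : 0 < D := by
        rcases hDnn.eq_or_lt with h | h
        · rw [← h, Real.log_zero] at hlogD
          exact absurd hlogD (lt_irrefl _)
        · exact h
      obtain ⟨x, hx⟩ := hrat P
      have e1 : O.y P - c * (algebraMap L E (ζ i) - algebraMap L E (ζ i₀)) =
          c * algebraMap L E (algebraMap K L x - ζ i) := by
        rw [hx, map_sub, ← IsScalarTower.algebraMap_apply K L E]
        ring
      have h1 := size_ext hd hc hμ v.val (p v).val (k v) hpv (algebraMap K L x - ζ i)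
      rw [← e1] at h1
      have h2 : D ≤ normSize v.val a δ d (algebraMap K L x - ζ i) := by
        rw [hD, ratDist]
        refine ciInf_le ⟨0, ?_⟩ x
        rintro _ ⟨y, rfl⟩
        simp only [normSize]
        have := v.val.nonneg a
        have := v.val.nonneg (algebraMap K L y - ζ i)
        positivity
      have h3 : Real.exp (ℓ i) ^ (d - 1) ≤
          ((p v).val (O.y P - c * (algebraMap L E (ζ i) - algebraMap L E (ζ i₀))) /
            max 1 ((p v).val μ)) ^ (d - 1) := by
        rw [h1, ← Real.exp_nat_mul]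
        have e2 : ((d - 1 : ℕ) : ℝ) * ℓ i = (k v : ℝ) * Real.log D := by
          simp only [hℓ, ← hD, max_eq_right hlogD.le]
          field_simp
        rw [e2, Real.exp_nat_mul, Real.exp_log hDpos]
        exact pow_le_pow_left₀ hDnn h2 _
      have h4 : Real.exp (ℓ i) ≤
          (p v).val (O.y P - c * (algebraMap L E (ζ i) - algebraMap L E (ζ i₀))) /
            max 1 ((p v).val μ) := by
        refine le_of_pow_le_pow_left₀ (by omega) ?_ h3
        exact div_nonneg ((p v).val.nonneg _) hm0.le
      exact (le_div_iff₀ hm0).mp h4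
    have hrho := rho_fixDiam hd hc hμ ζ i₀ v.val (p v).val (k v) hpv
    have hfd0 : 0 ≤ fixDiam v.val a δ ζ := by
      rw [fixDiam]
      refine Real.iSup_nonneg (fun q => ?_)
      rw [normSize]
      have := v.val.nonneg a
      have := v.val.nonneg (ζ q.1 - ζ q.2)
      positivity
    have hlogrho : ((d - 1 : ℕ) : ℝ) * Real.log (rho (fun i => c * (algebraMap L E (ζ i) -
        algebraMap L E (ζ i₀))) μ (p v).val) =
        (k v : ℝ) * Real.log (fixDiam v.val a δ ζ) := by
      rw [← Real.log_pow, ← Real.log_pow, hrho]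
    have hmax : max 0 (Real.log (rho (fun i => c * (algebraMap L E (ζ i) -
        algebraMap L E (ζ i₀))) μ (p v).val)) =
        (k v : ℝ) * max 0 (Real.log (fixDiam v.val a δ ζ)) / ((d - 1 : ℕ) : ℝ) := by
      rw [eq_div_iff hd1.ne', mul_comm, mul_max_of_nonneg _ _ hd1.le, mul_zero, hlogrho,
        mul_max_of_nonneg _ _ hk0.le, mul_zero]
    have hsum : ∑ i, ℓ i - max 0 (Real.log (rho (fun i => c * (algebraMap L E (ζ i) -
        algebraMap L E (ζ i₀))) μ (p v).val)) =
        (k v : ℝ) * raw v / ((d - 1 : ℕ) : ℝ) := by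
      rw [hmax]
      simp only [hℓ, raw]
      rw [← Finset.sum_div, ← Finset.mul_sum]
      ring
    have hδ' : algebraMap L E δ ≠ 0 := (_root_.map_ne_zero _).mpr hδ
    obtain ⟨g, hg⟩ := gain_of_dist hd hζ0 hδ' hμ O
      (isNonarchimedean (p v).val (p v).isFinitePlace) ℓ h0 hdist (by
        rw [hsum]
        positivity)
    refine ⟨g, fun _ => ?_⟩
    rw [hsum] at hg
    exact hg
  choose g₀ hg₀ using hgain
  let q : FinitePlace L → nonarchAbsVal (K := E) := fun v => ⟨(p v).val, (p v).isFinitePlace⟩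
  have hq : Function.Injective q := by
    intro v v' h
    apply hinj
    apply Subtype.ext
    exact congrArg Subtype.val h
  set T₀ := T.filter (fun v => 0 < raw v) with hT₀
  refine ⟨T₀.image q, Function.extend q lam₀ 0, Function.extend q g₀ 0, ?_, ?_, ?_⟩
  · intro w hw
    obtain ⟨v, hv, rfl⟩ := Finset.mem_image.1 hw
    rw [hq.extend_apply]
    have : 0 < raw v := (Finset.mem_filter.1 hv).2
    positivity
  · intro w hw
    obtain ⟨v, hv, rfl⟩ := Finset.mem_image.1 hw
    rw [hq.extend_apply, hq.extend_apply]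
    exact hg₀ v (Finset.mem_filter.1 hv).2
  · rw [Finset.sum_image (fun _ _ _ _ h => hq h)]
    have h1 : ∑ v ∈ T, ratDefect K v.val a δ ζ = ∑ v ∈ T₀, raw v := by
      rw [hT₀, Finset.sum_filter]
      refine Finset.sum_congr rfl (fun v _ => ?_)
      by_cases h : 0 < raw v
      · rw [if_pos h]
        exact max_eq_right h.le
      · rw [if_neg h]
        exact max_eq_left (not_lt.mp h)
    rw [h1, Finset.mul_sum]
    refine Finset.sum_le_sum (fun v hv => ?_)
    rw [hq.extend_apply]
    have h2 : 0 < raw v := (Finset.mem_filter.1 hv).2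
    have h3 : (1 : ℝ) ≤ k v := by exact_mod_cast hk v
    have h4 : ((d - 1 : ℕ) : ℝ) ≤ d := by exact_mod_cast Nat.sub_le d 1
    simp only [lam₀]
    rw [div_div, mul_div_assoc', le_div_iff₀ (by positivity)]
    have h5 : ((d - 1 : ℕ) : ℝ) * d ≤ (d : ℝ) ^ 2 := by nlinarith
    calc raw v * (((d - 1 : ℕ) : ℝ) * d) ≤ raw v * (d : ℝ) ^ 2 :=
          mul_le_mul_of_nonneg_left h5 h2.le
      _ ≤ (k v * raw v) * (d : ℝ) ^ 2 := by
          refine mul_le_mul_of_nonneg_right ?_ (by positivity)
          nlinarith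
      _ = _ := by ring

end Pool.Agent.H.MP_0e6b5f_nt.Df
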