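import Pool.Agent.H.MP_0e6b5f_nt.Df.RealOdd
import Pool.Agent.H.MP_0e6b5f_nt.Df.ExtC

/-!
# The gain at a real place
-/

namespace Pool.Agent.H.MP_0e6b5f_nt.Df

open Pool.Agent.H.MP_0e6b5f_nt Pool.Agent.H.MP_0e6b5f_nt.Dom Pool.Agent.H.MP_0e6b5f_nt.Eng
open Polynomial Module NumberField

/-- An embedding with real absolute values is real. -/
theorem embedding_eq_of_norm {K : Type*} [Field K] (e : K →+* ℂ) (τ : K →+* ℝ)
    (h : ∀ x, ‖e x‖ = |τ x|) (x : K) : e x = (τ x : ℂ) := by
  have h1 : (e x).re * (e x).re + (e x).im * (e x).im = τ x * τ x := by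
    have := h x
    rw [← Complex.normSq_apply, Complex.normSq_eq_norm_sq, this, sq_abs]; ring
  have h2 : ((e x).re + 1) * ((e x).re + 1) + (e x).im * (e x).im =
      (τ x + 1) * (τ x + 1) := by
    have h3 := h (x + 1)
    rw [map_add, map_add, map_one, map_one] at h3
    have h4 : Complex.normSq (e x + 1) = (τ x + 1) * (τ x + 1) := by
      rw [Complex.normSq_eq_norm_sq, h3, sq_abs]; ring
    rw [Complex.normSq_apply] at h4
    simpa using h4
  have h3 : (e x).re = τ x := by linarith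
  have h4 : (e x).im = 0 := by
    rw [h3] at h1
    have : (e x).im * (e x).im = 0 := by linarith
    exact mul_self_eq_zero.mp this
  apply Complex.ext
  · rw [h3, Complex.ofReal_re]
  · rw [h4, Complex.ofReal_im]

/-- A gain for `l` is a gain for every smaller number. -/
theorem Gain.mono {K : Type*} [Field K] {d : ℕ} {ζ : Fin d → K} {δ : K} {ι : Type*}
    {O : Orb ζ δ ι} {S : Finset ι} {μ : K} {v : AbsoluteValue K ℝ} {l l' : ℝ} {g : K[X]}
    (h : Gain O S μ v l g) (hl : l' ≤ l) : Gain O S μ v l' g := by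
  have h1 : (Real.exp (-l) * max 1 (v μ)) ^ g.natDegree ≤
      (Real.exp (-l') * max 1 (v μ)) ^ g.natDegree := by
    refine pow_le_pow_left₀ (by positivity) ?_ _
    exact mul_le_mul_of_nonneg_right (Real.exp_le_exp.mpr (by linarith)) (by positivity)
  exact ⟨h.monic, h.pos, h.le, fun P hP => (h.hy P hP).trans h1, fun P hP => (h.hx P hP).trans h1⟩

/-- The gain at an infinite place above a real place of `K`. -/
theorem real_gain {K L E : Type*} [Field K] [Field L] [NumberField L] [Field E] [NumberField E]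
    [Algebra K L] [Algebra L E] [Algebra K E] [IsScalarTower K L E] {d : ℕ} (hd : 2 ≤ d)
    (F : K[X]) {δ : K} (hδ : δ ≠ 0) (hFd : F.natDegree = d) (ζ : Fin d → L)
    (hF : F.map (algebraMap K L) = C (1 + algebraMap K L δ) * X +
      C (algebraMap K L F.leadingCoeff) * ∏ i, (X - C (ζ i)))
    {c μ : E} (hc : c ^ (d - 1) = algebraMap L E (algebraMap K L F.leadingCoeff))
    (hμ : μ ^ (d - 1) = algebraMap L E (algebraMap K L δ)) (i₀ : Fin d) {ι : Type*} [Fintype ι]
    [DecidableEq ι]
    (O : Orb (fun i => c * (algebraMap L E (ζ i) - algebraMap L E (ζ i₀)))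
      (algebraMap L E (algebraMap K L δ)) ι)
    (hrat : ∀ P, ∃ x : K, O.y P = c * (algebraMap K E x - algebraMap L E (ζ i₀)))
    (w : AbsoluteValue L ℝ) (hw : IsInfinitePlace w)
    (hreal : ∃ τ : K →+* ℝ, (∀ x : K, w (algebraMap K L x) = |τ x|) ∧
      (Even d ∨ 0 ≤ τ F.leadingCoeff * (1 + τ δ)))
    (h0 : 0 < fixDiam w (algebraMap K L F.leadingCoeff) (algebraMap K L δ) ζ)
    (hR : 100 ^ (d - 1) * fixDiam w (algebraMap K L F.leadingCoeff) (algebraMap K L δ) ζ ≤ 1) :
    ∃ w' : InfinitePlace E, (∀ x : L, w' (algebraMap L E x) = w x) ∧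
      ∃ (S : Finset ι) (g : E[X]), 4 * (Finset.univ \ S).card ≤ Fintype.card ι ∧
        Gain O S μ w'.val
          (-Real.log (fixDiam w (algebraMap K L F.leadingCoeff) (algebraMap K L δ) ζ) / (2 * d))
          g := by
  obtain ⟨τ, hτ, hcase⟩ := hreal
  obtain ⟨w₀, hw₀⟩ := isInfinitePlace_iff w |>.mp hw
  obtain ⟨w', hw'⟩ := exists_infinitePlace_over (K := L) E w₀
  have hw'' : ∀ x : L, w' (algebraMap L E x) = w x := by
    intro x
    rw [hw', ← hw₀]
    rfl
  refine ⟨w', hw'', ?_⟩
  set a := algebraMap K L F.leadingCoeff with ha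
  set R := fixDiam w a (algebraMap K L δ) ζ with hRdef
  set e : E →+* ℂ := w'.embedding with he
  have hen : ∀ x, w'.val x = ‖e x‖ := fun x => (InfinitePlace.norm_embedding_eq w' x).symm
  have heK : ∀ x : K, e (algebraMap K E x) = (τ x : ℂ) := by
    intro x
    refine embedding_eq_of_norm (e.comp (algebraMap K E)) τ (fun y => ?_) x
    have h1 := hen (algebraMap K E y)
    have h2 := hw'' (algebraMap K L y)
    rw [← IsScalarTower.algebraMap_apply K L E, hτ] at h2
    rw [RingHom.comp_apply, ← h1]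
    exact h2
  choose x hx using hrat
  have hF0 : F.leadingCoeff ≠ 0 := by
    rw [leadingCoeff_ne_zero]
    rintro rfl
    rw [natDegree_zero] at hFd
    omega
  have hτa : τ F.leadingCoeff ≠ 0 := (_root_.map_ne_zero τ).mpr hF0
  have ha0 : a ≠ 0 := (_root_.map_ne_zero _).mpr hF0
  have hc0 : c ≠ 0 := by
    rintro rfl
    rw [zero_pow (by omega)] at hc
    exact ha0 ((_root_.map_eq_zero (algebraMap L E)).mp hc.symm)
  have hcc : e c ≠ 0 := (_root_.map_ne_zero e).mpr hc0
  set z : Fin d → ℂ := fun i => e (algebraMap L E (ζ i)) with hz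
  -- the real polynomial
  set q : ℝ[X] := C (τ F.leadingCoeff)⁻¹ * (F.map τ - C (1 + τ δ) * X) with hq
  have hqm : q.map (algebraMap ℝ ℂ) = ∏ i, (X - C (z i)) := by
    have h1 : F.map ((algebraMap ℝ ℂ).comp τ) =
        C (1 + (τ δ : ℂ)) * X + C ((τ F.leadingCoeff : ℂ)) * ∏ i, (X - C (z i)) := by
      have h2 : (algebraMap ℝ ℂ).comp τ = (e.comp (algebraMap L E)).comp (algebraMap K L) := by
        ext y
        have h3 := heK y
        rw [IsScalarTower.algebraMap_apply K L E] at h3
        exact h3.symm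
      rw [h2, ← Polynomial.map_map, hF]
      simp only [Polynomial.map_add, Polynomial.map_mul, Polynomial.map_X, Polynomial.map_C,
        Polynomial.map_prod, Polynomial.map_sub, RingHom.comp_apply]
      have h4 := heK δ
      have h5 := heK F.leadingCoeff
      rw [IsScalarTower.algebraMap_apply K L E] at h4 h5
      have h6 : e (algebraMap L E (1 + algebraMap K L δ)) = 1 + (τ δ : ℂ) := by
        rw [RingHom.map_add, RingHom.map_add, RingHom.map_one, RingHom.map_one, h4]
      rw [h6, ha, h5]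
    rw [hq, Polynomial.map_mul, Polynomial.map_sub, Polynomial.map_map, h1]
    simp only [Polynomial.map_mul, Polynomial.map_X, Polynomial.map_C]
    have h6 : (algebraMap ℝ ℂ) (1 + τ δ) = 1 + (τ δ : ℂ) := by
      rw [RingHom.map_add, RingHom.map_one]; rfl
    have h7 : (algebraMap ℝ ℂ) (τ F.leadingCoeff)⁻¹ = (τ F.leadingCoeff : ℂ)⁻¹ := by
      rw [map_inv₀]; rfl
    have h8 : (τ F.leadingCoeff : ℂ) ≠ 0 := by exact_mod_cast hτa
    rw [h6, h7, add_sub_cancel_left, ← mul_assoc, ← C_mul, inv_mul_cancel₀ h8, C_1, one_mul]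
  -- the normalised diameter
  set ρ := rho (fun i => c * (algebraMap L E (ζ i) - algebraMap L E (ζ i₀))) μ w'.val with hρ
  have hρR : ρ ^ (d - 1) = R := by
    have h1 := rho_fixDiam hd hc hμ ζ i₀ w w'.val 1 (fun x => by
      rw [pow_one]; exact hw'' x)
    rw [pow_one] at h1
    exact h1
  have hρ0' : 0 ≤ ρ := div_nonneg (Real.iSup_nonneg fun _ => w'.val.nonneg _)
    (zero_le_one.trans (le_max_left _ _))
  have hρ0 : 0 < ρ := by
    rcases hρ0'.eq_or_lt with h1 | h1
    · rw [← h1, zero_pow (by omega)] at hρR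
      rw [← hρR] at h0
      exact absurd h0 (lt_irrefl _)
    · exact h1
  have hρ1 : ρ ≤ 1 / 100 := by
    rw [← hρR, ← mul_pow] at hR
    have h1 : 100 * ρ ≤ 1 := by
      by_contra hcon
      push Not at hcon
      have := one_lt_pow₀ hcon (n := d - 1) (by omega)
      linarith
    linarith
  have hα : e c ^ (d - 1) = τ F.leadingCoeff := by
    rw [← map_pow, hc, ha, ← IsScalarTower.algebraMap_apply K L E, heK]
  have ht : e (algebraMap L E (algebraMap K L δ)) = τ δ := by
    rw [← IsScalarTower.algebraMap_apply K L E, heK]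
  obtain ⟨S, hS, hG⟩ := gain_real2 hd
    (ζ := fun i => c * (algebraMap L E (ζ i) - algebraMap L E (ζ i₀))) (i₀ := i₀) (by simp)
    (μ := μ) O e hen hcc hα ht hcase (fun P => τ (x P)) z q hqm
    (fun P => by rw [hx, map_mul, map_sub, heK])
    (fun i => by rw [map_mul, map_sub]) hρ0 hρ1
  refine ⟨S, X, hS, hG.mono ?_⟩
  have h1 : Real.log R = ((d - 1 : ℕ) : ℝ) * Real.log ρ := by rw [← hρR, Real.log_pow]
  have h2 : Real.log ρ ≤ 0 := Real.log_nonpos hρ0.le (by linarith)
  have hd0 : (0 : ℝ) < d := by exact_mod_cast (by omega : 0 < d)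
  have h3 : ((d - 1 : ℕ) : ℝ) ≤ d := by exact_mod_cast Nat.sub_le _ _
  rw [h1, div_le_iff₀ (by positivity)]
  nlinarith

end Pool.Agent.H.MP_0e6b5f_nt.Df
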