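import Pool.Agent.H.MP_0e6b5f_nt.Df.Dat
import Pool.Agent.H.MP_0e6b5f_nt.Df.Real
import Pool.Agent.H.MP_0e6b5f_nt.Df.Nar
import Pool.Agent.H.MP_0e6b5f_nt.Df.Engine
import Pool.Agent.H.MP_0e6b5f_nt.Df.ExtE

/-!
# The bound by the defects
-/

namespace Pool.Agent.H.MP_0e6b5f_nt.Df

open Pool.Agent.H.MP_0e6b5f_nt Pool.Agent.H.MP_0e6b5f_nt.Dom Pool.Agent.H.MP_0e6b5f_nt.Eng
open Polynomial Module NumberField Height Height.AdmissibleAbsValues

theorem ratio_le {D H Λ₀ Λ n t m N : ℝ} (hD : 0 ≤ D) (hH : 0 ≤ H) (hΛ₀ : 0 < Λ₀) (hm : 0 < m)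
    (ht : t ≤ 2 * (n * (D + H))) (hΛ : Λ₀ / m ≤ Λ) (hN : 2 * m * n ≤ N) (hN1 : 1 ≤ N) :
    1 + t / Λ ≤ N * (1 + (D + H) / Λ₀) := by
  have hΛp : 0 < Λ := lt_of_lt_of_le (by positivity) hΛ
  have h1 : t / Λ ≤ N * ((D + H) / Λ₀) := by
    rw [div_le_iff₀ hΛp]
    have h3 : 0 ≤ (D + H) / Λ₀ := by positivity
    calc t ≤ 2 * (n * (D + H)) := ht
      _ = (2 * m * n) * ((D + H) / Λ₀) * (Λ₀ / m) := by field_simp
      _ ≤ N * ((D + H) / Λ₀) * (Λ₀ / m) :=
          mul_le_mul_of_nonneg_right (mul_le_mul_of_nonneg_right hN h3) (by positivity)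
      _ ≤ N * ((D + H) / Λ₀) * Λ := mul_le_mul_of_nonneg_left hΛ (by positivity)
  linarith

/-- The constant for the infinite places. -/
noncomputable def cR (d : ℕ) : ℝ := 2 ^ (200 * d ^ 3 * (d - 1))

theorem hundred_le_cR {d : ℕ} (hd : 2 ≤ d) : (100 : ℝ) ^ (d - 1) ≤ cR d := by
  rw [cR, pow_mul]
  refine pow_le_pow_left₀ (by norm_num) ?_ _
  have h1 : 7 ≤ 200 * d ^ 3 := by
    have : 1 ≤ d ^ 3 := Nat.one_le_pow _ _ (by omega)
    omega
  calc (100 : ℝ) ≤ 2 ^ 7 := by norm_num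
    _ ≤ 2 ^ (200 * d ^ 3) := pow_le_pow_right₀ (by norm_num) h1

theorem one_lt_cR {d : ℕ} (hd : 2 ≤ d) : 1 < cR d :=
  lt_of_lt_of_le (one_lt_pow₀ (by norm_num) (by omega)) (hundred_le_cR hd)

theorem ratDefect_nonneg (K : Type*) {L : Type*} [Field K] [Field L] [Algebra K L] {d : ℕ}
    (w : AbsoluteValue L ℝ) (a δ : L) (ζ : Fin d → L) : 0 ≤ ratDefect K w a δ ζ :=
  le_max_left _ _

/-- The diameter of a good place is not `0` or `1`. -/
theorem abs_log_pos {K L : Type*} [Field K] [Field L] [NumberField L] [Algebra K L] {d : ℕ}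
    (hd : 2 ≤ d) {w : AbsoluteValue L ℝ} {a δ : K} {ζ : Fin d → L}
    (h : GoodPlace (cR d) w a δ ζ) :
    0 < |Real.log (fixDiam w (algebraMap K L a) (algebraMap K L δ) ζ)| := by
  have h1 := one_lt_cR hd
  rcases h with ⟨-, h⟩ | ⟨-, h⟩ | ⟨-, -, h0, h⟩
  · exact abs_pos.mpr (Real.log_pos h).ne'
  · exact abs_pos.mpr (Real.log_pos (h1.trans_le h)).ne'
  · refine abs_pos.mpr (Real.log_neg h0 ?_).ne
    nlinarith

/-- The bound for an orbit over an extension. -/
theorem card_le_dat {d : ℕ} (hd : 2 ≤ d) : ∃ C₁ : ℝ, 0 ≤ C₁ ∧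
    ∀ {K L E : Type*} [Field K] [Field L] [NumberField L] [Field E] [NumberField E]
    [Algebra K L] [Algebra L E] [Algebra K E] [IsScalarTower K L E] (F : K[X]) {δ : K},
    δ ≠ 0 → F.natDegree = d → ∀ (ζ : Fin d → L),
    F.map (algebraMap K L) = C (1 + algebraMap K L δ) * X +
      C (algebraMap K L F.leadingCoeff) * ∏ i, (X - C (ζ i)) → ∀ {c μ : E},
    c ^ (d - 1) = algebraMap L E (algebraMap K L F.leadingCoeff) →
    μ ^ (d - 1) = algebraMap L E (algebraMap K L δ) → finrank L E ≤ (2 * d).factorial →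
    ∀ (w : AbsoluteValue L ℝ) (T : Finset (FinitePlace L)),
    GoodPlace (cR d) w F.leadingCoeff δ ζ →
    ∀ (S : Finset (K × K)), (∀ P ∈ S, P ∈ perRat F δ) →
    (S.card : ℝ) ≤ C₁ * (defectRatio w T F.leadingCoeff δ ζ *
      (1 + Real.log (defectRatio w T F.leadingCoeff δ ζ))) ^ 4 := by
  classical
  obtain ⟨C₀, hC₀, hE⟩ := engine2 hd
  set N : ℝ := 8 * (d : ℝ) ^ 2 * ((2 * d).factorial : ℝ) with hN
  have hd2 : (2 : ℝ) ≤ d := by exact_mod_cast hd
  have hfac1 : (1 : ℝ) ≤ ((2 * d).factorial : ℝ) := by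
    exact_mod_cast Nat.one_le_iff_ne_zero.mpr (Nat.factorial_ne_zero _)
  have hN1 : 1 ≤ N := by
    rw [hN]
    nlinarith [mul_le_mul hd2 hd2 (by norm_num) (by linarith : (0 : ℝ) ≤ d)]
  have hlogN : 0 ≤ Real.log N := Real.log_nonneg hN1
  have hcE := cE_nonneg d
  refine ⟨(cE d + C₀) * (N * (1 + Real.log N)) ^ 4, by positivity, ?_⟩
  intro K L E _ _ _ _ _ _ _ _ _ F δ hδ hFd ζ hF c μ hc hμ hfin w T hgood T₁ hT₁
  set a := algebraMap K L F.leadingCoeff with ha
  set δ' := algebraMap K L δ with hδ'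
  have hδ'0 : δ' ≠ 0 := (_root_.map_ne_zero _).mpr hδ
  have hδE0 : algebraMap L E δ' ≠ 0 := (_root_.map_ne_zero _).mpr hδ'0
  have i₀ : Fin d := ⟨0, by omega⟩
  obtain ⟨S, O, hcard, hrat, hinj⟩ := exists_dat (E := E) hd F hδ hFd ζ hF hc i₀ T₁ hT₁
  set R := fixDiam w a δ' ζ with hR
  set H := fixHeight a δ' ζ with hH
  set Λ₀ := |Real.log R| + ∑ v ∈ T, ratDefect K v.val a δ' ζ with hΛ₀
  set D : ℝ := ((finrank ℚ L : ℕ) : ℝ) with hD
  set n : ℝ := ((finrank L E : ℕ) : ℝ) with hn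
  have hY : defectRatio w T F.leadingCoeff δ ζ = 1 + (D + H) / Λ₀ := rfl
  have habs : 0 < |Real.log R| := abs_log_pos hd hgood
  have hsum0 : 0 ≤ ∑ v ∈ T, ratDefect K v.val a δ' ζ :=
    Finset.sum_nonneg (fun v _ => ratDefect_nonneg K _ _ _ _)
  have hΛ₀p : 0 < Λ₀ := by linarith
  have hD0 : 0 ≤ D := Nat.cast_nonneg _
  have hH0 : 0 ≤ H := add_nonneg (logHeight_nonneg _) (zero_le_logHeight₁ _)
  have hn0 : 0 ≤ n := Nat.cast_nonneg _
  have hY1 : 1 ≤ 1 + (D + H) / Λ₀ := by
    have : 0 ≤ (D + H) / Λ₀ := by positivity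
    linarith
  have hlogY : 0 ≤ Real.log (1 + (D + H) / Λ₀) := Real.log_nonneg hY1
  rw [hY]
  -- it is enough to bound the orbit
  suffices hkey : S.Nonempty → ∃ t Λ : ℝ, 0 ≤ t ∧ t ≤ 2 * (n * (D + H)) ∧
      Λ₀ / (4 * (d : ℝ) ^ 2) ≤ Λ ∧
      (S.card : ℝ) ≤ (cE d + C₀) * ((1 + t / Λ) * (1 + Real.log (1 + t / Λ))) ^ 4 by
    rcases S.eq_empty_or_nonempty with hS | hS
    · rw [hS, Finset.card_empty] at hcard
      have h0 : T₁.card = 0 := by omega
      rw [h0, Nat.cast_zero]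
      positivity
    · obtain ⟨t, Λ, ht0, ht, hΛ, hb⟩ := hkey hS
      have hΛp : 0 < Λ := lt_of_lt_of_le (by positivity) hΛ
      have hZ1 : 1 ≤ 1 + t / Λ := by
        have : 0 ≤ t / Λ := by positivity
        linarith
      have hle : 1 + t / Λ ≤ N * (1 + (D + H) / Λ₀) := by
        refine ratio_le hD0 hH0 hΛ₀p (m := 4 * (d : ℝ) ^ 2) (by positivity) ht hΛ ?_ hN1
        rw [hN]
        have : n ≤ ((2 * d).factorial : ℝ) := by
          rw [hn]
          exact_mod_cast hfin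
        have h8 : (0 : ℝ) ≤ 8 * (d : ℝ) ^ 2 := by positivity
        calc 2 * (4 * (d : ℝ) ^ 2) * n = 8 * (d : ℝ) ^ 2 * n := by ring
          _ ≤ _ := mul_le_mul_of_nonneg_left this h8
      have h2 := scale4 hN1 hY1 hZ1 hle
      have h3 : (T₁.card : ℝ) ≤ S.card := by exact_mod_cast hcard
      calc (T₁.card : ℝ) ≤ S.card := h3
        _ ≤ (cE d + C₀) * ((1 + t / Λ) * (1 + Real.log (1 + t / Λ))) ^ 4 := hb
        _ ≤ (cE d + C₀) * ((N * (1 + Real.log N)) ^ 4 *
            ((1 + (D + H) / Λ₀) * (1 + Real.log (1 + (D + H) / Λ₀))) ^ 4) :=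
            mul_le_mul_of_nonneg_left h2 (by positivity)
        _ = _ := by ring
  intro hS
  have hne : Nonempty S := hS.to_subtype
  have hζ0 : (fun i => c * (algebraMap L E (ζ i) - algebraMap L E (ζ i₀))) i₀ = 0 := by simp
  have hdeg : (totalWeight E : ℝ) = n * D := by
    rw [totalWeight_eq_finrank, ← finrank_mul_finrank ℚ L E, hn, hD]
    push_cast
    ring
  have hht := height_ext hd hc (δ := δ') ζ i₀
  set tt := tup (fun i => c * (algebraMap L E (ζ i) - algebraMap L E (ζ i₀))) with htt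
  have hT0 := mulHeight_pos tt
  have hDe0 : 0 < mulHeight₁ (algebraMap L E δ') := mulHeight₁_pos _
  have hDe1 : 0 ≤ Real.log (mulHeight₁ (algebraMap L E δ')) :=
    Real.log_nonneg (one_le_mulHeight₁ _)
  have hTl : 0 ≤ Real.log (mulHeight tt) := Real.log_nonneg (one_le_mulHeight _)
  have hh1 : Real.log (mulHeight tt * mulHeight₁ (algebraMap L E δ')) ≤ n * H := by
    rw [Real.log_mul hT0.ne' hDe0.ne']
    exact hht
  have ht1 : n * D + n * H ≤ 2 * (n * (D + H)) := by
    have : 0 ≤ n * (D + H) := by positivity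
    linarith
  have ht2 : n * D + 2 * (n * H) ≤ 2 * (n * (D + H)) := by
    have : 0 ≤ n * D := by positivity
    linarith
  have hcS : (Fintype.card S : ℝ) = S.card := by rw [Fintype.card_coe]
  have hd2' : (4 : ℝ) ≤ (d : ℝ) ^ 2 := by nlinarith
  rcases le_or_gt (Λ₀ / 2) (|Real.log R|) with hA | hB
  · by_cases hR1 : 1 < R
    · -- large diameter
      have hbig : IsFinitePlace w ∨ (IsInfinitePlace w ∧ cR d ≤ R) := by
        rcases hgood with ⟨h1, -⟩ | ⟨h1, h2⟩ | ⟨-, -, -, h2⟩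
        · exact Or.inl h1
        · exact Or.inr ⟨h1, h2⟩
        · exfalso
          have := one_lt_cR hd
          have h3 : cR d * R ≤ 1 := h2
          nlinarith
      obtain ⟨w', k, hk, hw', hplace⟩ : ∃ (w' : AbsoluteValue E ℝ) (k : ℕ), 1 ≤ k ∧
          (∀ x : L, w' (algebraMap L E x) = w x ^ k) ∧
          (w' ∈ nonarchAbsVal (K := E) ∨
            (w' ∉ nonarchAbsVal (K := E) ∧ w' ∈ archAbsVal (K := E) ∧ cR d ≤ R ^ k)) := by
        rcases hbig with hw | ⟨hw, hbig⟩
        · obtain ⟨w0, hw0⟩ := (isFinitePlace_iff w).mp hw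
          obtain ⟨w', k, hk, hw'⟩ := exists_finitePlace_over E w0
          refine ⟨w'.val, k, hk, fun x => ?_, Or.inl w'.isFinitePlace⟩
          rw [← hw0]
          exact hw' x
        · obtain ⟨w0, hw0⟩ : ∃ w0 : InfinitePlace L, w0.val = w := by
            exact ⟨⟨w, hw⟩, rfl⟩
          obtain ⟨w', hw'⟩ := exists_infinitePlace_over E w0
          by_cases hna : w'.val ∈ nonarchAbsVal (K := E)
          · refine ⟨w'.val, 1, le_rfl, fun x => ?_, Or.inl hna⟩
            rw [← hw0, pow_one]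
            exact hw' x
          refine ⟨w'.val, 1, le_rfl, fun x => ?_, Or.inr ⟨hna, ?_, by rw [pow_one]; exact hbig⟩⟩
          · rw [← hw0, pow_one]
            exact hw' x
          · exact mem_multisetInfinitePlace.mpr w'.isInfinitePlace
      have hrho := rho_fixDiam hd hc hμ ζ i₀ w w' k hw'
      rw [← hR] at hrho
      set r := rho (fun i => c * (algebraMap L E (ζ i) - algebraMap L E (ζ i₀))) μ w' with hr
      have hr0 : 0 ≤ r := rho_nonneg _ _ _
      have hd1 : d - 1 ≠ 0 := by omega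
      have hRk : 1 < R ^ k := one_lt_pow₀ hR1 (by omega)
      have hr1 : 1 < r := by
        rw [← hrho] at hRk
        exact (one_lt_pow_iff_of_nonneg hr0 hd1).mp hRk
      have hlogR : 0 < Real.log R := Real.log_pos hR1
      have hlogr : Real.log R ≤ (d : ℝ) * Real.log r := by
        have h1 := congrArg Real.log hrho
        rw [Real.log_pow, Real.log_pow] at h1
        have h2 : ((d - 1 : ℕ) : ℝ) ≤ d := by exact_mod_cast Nat.sub_le d 1
        have h3 : 0 < Real.log r := Real.log_pos hr1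
        have h4 : (1 : ℝ) ≤ k := by exact_mod_cast hk
        nlinarith
      have hw2 : (w' ∈ nonarchAbsVal (K := E) ∧ 1 < r) ∨
          (w' ∉ nonarchAbsVal (K := E) ∧ w' ∈ archAbsVal (K := E) ∧ 2 ^ (200 * d ^ 3) ≤ r) := by
        rcases hplace with h1 | ⟨h1, h2, h3⟩
        · exact Or.inl ⟨h1, hr1⟩
        · refine Or.inr ⟨h1, h2, ?_⟩
          rw [← hrho, cR, pow_mul] at h3
          exact (pow_le_pow_iff_left₀ (by positivity) hr0 hd1).mp h3
      have hμ' : ∀ x : E, mulHeight₁ x⁻¹ = mulHeight₁ x := fun x => mulHeight₁_inv x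
      have hs := sym_engine hd hζ0 hδE0 hμ O hinj w' hw2 (H := 2 * (n * H))
        (hh1.trans (by nlinarith [mul_nonneg hn0 hH0])) (by
          rw [mulHeight₁_inv]
          have h1 : mulHeight (tup (fun i => μ⁻¹ * (c * (algebraMap L E (ζ i) -
              algebraMap L E (ζ i₀))))) ≤ mulHeight₁ (algebraMap L E δ') * mulHeight tt := by
            refine (mulHeight_tup_scale _ μ⁻¹).trans ?_
            rw [mulHeight₁_inv]
            exact mul_le_mul_of_nonneg_right (mulHeight₁_root_le hd hμ) hT0.le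
          have h2 : mulHeight (tup (fun i => μ⁻¹ * (c * (algebraMap L E (ζ i) -
              algebraMap L E (ζ i₀))))) * mulHeight₁ (algebraMap L E δ') ≤
              mulHeight₁ (algebraMap L E δ') * mulHeight tt * mulHeight₁ (algebraMap L E δ') :=
            mul_le_mul_of_nonneg_right h1 hDe0.le
          have h3 := Real.log_le_log (mul_pos (mulHeight_pos _) hDe0) h2
          rw [Real.log_mul (mul_pos hDe0 hT0).ne' hDe0.ne', Real.log_mul hDe0.ne' hT0.ne'] at h3
          linarith)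
      rw [hdeg, hcS, ← hr] at hs
      refine ⟨n * D + 2 * (n * H), Real.log r, by positivity, ht2, ?_, ?_⟩
      · rw [abs_of_pos hlogR] at hA
        have h3 : 0 < Real.log r := Real.log_pos hr1
        rw [div_le_iff₀ (by positivity)]
        nlinarith
      · refine hs.trans (mul_le_mul_of_nonneg_right (by linarith) ?_)
        have h3 : 0 < Real.log r := Real.log_pos hr1
        have h4 : 0 ≤ Real.log (1 + (n * D + 2 * (n * H)) / Real.log r) := by
          apply Real.log_nonneg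
          have : 0 ≤ (n * D + 2 * (n * H)) / Real.log r := by positivity
          linarith
        positivity
    · -- small diameter at a real place
      obtain ⟨hinf, hreal, h0, hR0⟩ : IsInfinitePlace w ∧
          (∃ τ : K →+* ℝ, (∀ x : K, w (algebraMap K L x) = |τ x|) ∧
            (Even d ∨ 0 ≤ τ F.leadingCoeff * (1 + τ δ))) ∧ 0 < R ∧ cR d * R ≤ 1 := by
        have h1 := one_lt_cR hd
        rcases hgood with ⟨-, h⟩ | ⟨-, h⟩ | h
        · exact absurd h hR1
        · exact absurd (h1.trans_le h) hR1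
        · exact h
      have h100 : 100 ^ (d - 1) * R ≤ 1 :=
        (mul_le_mul_of_nonneg_right (hundred_le_cR hd) h0.le).trans hR0
      obtain ⟨w', -, S', g, hS', hg⟩ := real_gain hd F hδ hFd ζ hF hc hμ i₀ O hrat w hinf hreal
        h0 h100
      have hlog : Real.log R < 0 := by
        refine Real.log_neg h0 ?_
        have h1 := one_lt_cR hd
        nlinarith
      have hl0 : 0 < -Real.log R / (2 * d) := by
        have : 0 < -Real.log R := by linarith
        positivity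
      have hs := hE hζ0 hδE0 hμ O hinj S' hS' ∅ 0 0 (by simp) (by simp) w'.val
        (mem_multisetInfinitePlace.mpr w'.isInfinitePlace) hl0.le (Or.inr ⟨g, hg⟩)
        (Λ := -Real.log R / (2 * d)) (h := n * H) (by simp) hl0 hh1
      rw [hdeg, hcS] at hs
      refine ⟨n * D + n * H, -Real.log R / (2 * d), by positivity, ht1, ?_, ?_⟩
      · rw [abs_of_neg hlog] at hA
        rw [div_le_div_iff₀ (by positivity) (by positivity)]
        have h1 : 0 < -Real.log R := by linarith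
        have h2 : (4 : ℝ) * d ≤ 4 * (d : ℝ) ^ 2 := by nlinarith
        calc Λ₀ * (2 * d) ≤ (2 * -Real.log R) * (2 * d) :=
              mul_le_mul_of_nonneg_right (by linarith) (by positivity)
          _ = -Real.log R * (4 * d) := by ring
          _ ≤ -Real.log R * (4 * (d : ℝ) ^ 2) := mul_le_mul_of_nonneg_left h2 h1.le
      · refine hs.trans (mul_le_mul_of_nonneg_right (by linarith) ?_)
        have h4 : 0 ≤ Real.log (1 + (n * D + n * H) / (-Real.log R / (2 * d))) := by
          apply Real.log_nonneg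
          have : 0 ≤ (n * D + n * H) / (-Real.log R / (2 * d)) := by positivity
          linarith
        positivity
  · -- large defects
    obtain ⟨T', lam, g, hlam, hg, hsum⟩ := nar_gains hd hδ'0 hc hμ ζ i₀ O hrat T
    obtain ⟨w₁⟩ := (inferInstance : Nonempty (InfinitePlace E))
    have hΛ : Λ₀ / (2 * (d : ℝ) ^ 2) ≤ ∑ v ∈ T', lam v := by
      rw [div_le_iff₀ (by positivity)]
      linarith
    have hΛp : 0 < ∑ v ∈ T', lam v := lt_of_lt_of_le (by positivity) hΛ
    have hs := hE hζ0 hδE0 hμ O hinj Finset.univ (by simp) T' lam g hlam hg w₁.val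
      (mem_multisetInfinitePlace.mpr w₁.isInfinitePlace) le_rfl (Or.inl rfl)
      (Λ := ∑ v ∈ T', lam v) (h := n * H) (by simp) hΛp hh1
    rw [hdeg, hcS] at hs
    refine ⟨n * D + n * H, ∑ v ∈ T', lam v, by positivity, ht1, ?_, ?_⟩
    · refine le_trans ?_ hΛ
      refine div_le_div_of_nonneg_left hΛ₀p.le (by positivity) ?_
      have : (0 : ℝ) ≤ (d : ℝ) ^ 2 := by positivity
      linarith
    · refine hs.trans (mul_le_mul_of_nonneg_right (by linarith) ?_)
      have h4 : 0 ≤ Real.log (1 + (n * D + n * H) / ∑ v ∈ T', lam v) := by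
        apply Real.log_nonneg
        have : 0 ≤ (n * D + n * H) / ∑ v ∈ T', lam v := by positivity
        linarith
      positivity

/-- The bound by the defects. -/
theorem defect_bound2 (d : ℕ) (hd : 2 ≤ d) :
    ∃ c₁ R₀ : ℝ, 2 ≤ R₀ ∧ ∀ (K L : Type*) [Field K] [NumberField K] [Field L] [NumberField L]
      [Algebra K L] (F : K[X]) (δ : K) (ζ : Fin d → L) (w : AbsoluteValue L ℝ)
      (T : Finset (FinitePlace L)), F.natDegree = d → δ ≠ 0 →
      F.map (algebraMap K L) = C (1 + algebraMap K L δ) * X +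
        C (algebraMap K L F.leadingCoeff) * ∏ i, (X - C (ζ i)) →
      GoodPlace R₀ w F.leadingCoeff δ ζ →
      (perRat F δ).Finite ∧ ((perRat F δ).ncard : ℝ) ≤
        c₁ * (defectRatio w T F.leadingCoeff δ ζ *
          (1 + Real.log (defectRatio w T F.leadingCoeff δ ζ))) ^ 4 := by
  classical
  obtain ⟨C₁, hC₁, h⟩ := card_le_dat hd
  have h2 : (2 : ℝ) ≤ cR d := by
    refine le_trans ?_ (hundred_le_cR hd)
    calc (2 : ℝ) ≤ 100 ^ 1 := by norm_num
      _ ≤ 100 ^ (d - 1) := pow_le_pow_right₀ (by norm_num) (by omega)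
  refine ⟨C₁, cR d, h2, ?_⟩
  intro K L _ _ _ _ _ F δ ζ w T hFd hδ hF hgood
  obtain ⟨E, hE, c, μ, hfin, hc, hμ⟩ := exists_ext2 hd (algebraMap K L F.leadingCoeff)
    (algebraMap K L δ)
  have hfdQ : FiniteDimensional ℚ E := FiniteDimensional.trans ℚ L E
  have hnf : NumberField E := { to_charZero := inferInstance, to_finiteDimensional := hfdQ }
  let _ : Algebra K E := ((algebraMap L E).comp (algebraMap K L)).toAlgebra
  have hst : IsScalarTower K L E := IsScalarTower.of_algebraMap_eq (fun x => rfl)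
  exact finite_of_finset_card_le (fun S hS => h F hδ hFd ζ hF hc hμ hfin w T hgood S hS)

/-- The bound by the defects, with a weaker condition on the constant. -/
theorem defect_bound (d : ℕ) (hd : 2 ≤ d) :
    ∃ c₁ R₀ : ℝ, 1 ≤ R₀ ∧ ∀ (K L : Type*) [Field K] [NumberField K] [Field L] [NumberField L]
      [Algebra K L] (F : K[X]) (δ : K) (ζ : Fin d → L) (w : AbsoluteValue L ℝ)
      (T : Finset (FinitePlace L)), F.natDegree = d → δ ≠ 0 →
      F.map (algebraMap K L) = C (1 + algebraMap K L δ) * X +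
        C (algebraMap K L F.leadingCoeff) * ∏ i, (X - C (ζ i)) →
      GoodPlace R₀ w F.leadingCoeff δ ζ →
      (perRat F δ).Finite ∧ ((perRat F δ).ncard : ℝ) ≤
        c₁ * (defectRatio w T F.leadingCoeff δ ζ *
          (1 + Real.log (defectRatio w T F.leadingCoeff δ ζ))) ^ 4 := by
  obtain ⟨c₁, R₀, h0, h⟩ := defect_bound2 d hd
  exact ⟨c₁, R₀, by linarith, h⟩

end Pool.Agent.H.MP_0e6b5f_nt.Df
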