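import Pool.Agent.H.MP_0e6b5f_nt.Df.Loc
import Pool.Agent.H.MP_0e6b5f_nt.Df.DetTop
import Pool.Agent.H.MP_0e6b5f_nt.Cap.Multi
import Pool.Agent.H.MP_0e6b5f_nt.Eng.GlobRel

/-!
# The product formula with gains at many places
-/

namespace Pool.Agent.H.MP_0e6b5f_nt.Df

open Pool.Agent.H.MP_0e6b5f_nt.Dom Pool.Agent.H.MP_0e6b5f_nt.Eng
open Height Height.AdmissibleAbsValues Function Real Polynomial

variable {K : Type*} [Field K] [AdmissibleAbsValues K]

/-- The product formula together with local upper bounds, improved by the factors `G v` at the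
nonarchimedean places `v` in `V` and by the factor `G₁` at an archimedean place. -/
theorem global_multi_arch (g : K) (hg : g ≠ 0) (V : Finset (nonarchAbsVal (K := K)))
    (ba bn : AbsoluteValue K ℝ → ℝ) (G : nonarchAbsVal (K := K) → ℝ) (G₁ : ℝ)
    (w₁ : AbsoluteValue K ℝ) (hw₁ : w₁ ∈ archAbsVal (K := K))
    (ha : ∀ v ∈ archAbsVal (K := K), v g ≤ ba v) (ha₁ : w₁ g ≤ G₁ * ba w₁)
    (hn : ∀ v : nonarchAbsVal (K := K), v ∉ V → v.val g ≤ bn v.val)
    (hV : ∀ v ∈ V, v.val g ≤ G v * bn v.val) (hG : ∀ v ∈ V, 0 < G v)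
    (hfin : (fun v : nonarchAbsVal (K := K) => bn v.val).HasFiniteMulSupport) :
    1 ≤ ((∏ v ∈ V, G v) * G₁) *
      ((archAbsVal.map ba).prod * ∏ᶠ v : nonarchAbsVal (K := K), bn v.val) := by
  classical
  rw [← product_formula hg]
  have hfg : (fun v : nonarchAbsVal (K := K) => v.val g).HasFiniteMulSupport :=
    hasFiniteMulSupport hg
  have hG10 : 0 ≤ G₁ := by
    have h1 : 0 ≤ G₁ * ba w₁ := (w₁.nonneg g).trans ha₁
    have h2 : 0 < w₁ g := w₁.pos hg
    have h3 : 0 < ba w₁ := h2.trans_le (ha w₁ hw₁)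
    exact nonneg_of_mul_nonneg_left h1 h3
  have hba : ∀ v ∈ archAbsVal (K := K), 0 ≤ ba v := fun v hv => (v.nonneg g).trans (ha v hv)
  have hA : (archAbsVal.map (fun v : AbsoluteValue K ℝ => v g)).prod ≤
      G₁ * (archAbsVal.map ba).prod := by
    rw [← Multiset.cons_erase hw₁, Multiset.map_cons, Multiset.map_cons, Multiset.prod_cons,
      Multiset.prod_cons, ← mul_assoc]
    refine mul_le_mul ha₁ (Multiset.prod_map_le_prod_map₀ _ _ (fun v _ => v.nonneg g)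
      (fun v hv => ha v (Multiset.mem_of_mem_erase hv))) (Multiset.prod_nonneg ?_)
      (mul_nonneg hG10 (hba w₁ hw₁))
    intro a ha'
    obtain ⟨v, hv, rfl⟩ := Multiset.mem_map.mp ha'
    exact v.nonneg g
  have hN0 : 0 ≤ ∏ᶠ v : nonarchAbsVal (K := K), v.val g :=
    finprod_nonneg (fun v => v.val.nonneg g)
  have hbA0 : 0 ≤ (archAbsVal.map ba).prod := Multiset.prod_nonneg (by
      intro a ha'
      obtain ⟨v, hv, rfl⟩ := Multiset.mem_map.mp ha'
      exact hba v hv)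
  have hsub : (mulSupport fun v : nonarchAbsVal (K := K) => if v ∈ V then G v else 1) ⊆
      (V : Set (nonarchAbsVal (K := K))) := by
    intro v hv
    by_contra hcon
    exact hv (if_neg fun h => hcon (Finset.mem_coe.2 h))
  have hite : (fun v : nonarchAbsVal (K := K) => if v ∈ V then G v else 1).HasFiniteMulSupport :=
    V.finite_toSet.subset hsub
  have h1 : (∏ᶠ v : nonarchAbsVal (K := K), v.val g) ≤
      ∏ᶠ v : nonarchAbsVal (K := K), ((if v ∈ V then G v else 1) * bn v.val) := by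
    refine finprod_le_finprod hfg (fun v => v.val.nonneg g) (hite.fun_mul hfin) (fun v => ?_)
    show v.val g ≤ (if v ∈ V then G v else 1) * bn v.val
    split_ifs with h
    · exact hV v h
    · rw [one_mul]; exact hn v h
  rw [finprod_mul_distrib hite hfin, finprod_eq_prod_of_mulSupport_subset _ hsub,
    Finset.prod_congr rfl fun v hv => if_pos hv] at h1
  calc (archAbsVal.map (fun v : AbsoluteValue K ℝ => v g)).prod *
        ∏ᶠ v : nonarchAbsVal (K := K), v.val g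
      ≤ (G₁ * (archAbsVal.map ba).prod) *
          ((∏ v ∈ V, G v) * ∏ᶠ v : nonarchAbsVal (K := K), bn v.val) :=
        mul_le_mul hA h1 hN0 (mul_nonneg hG10 hbA0)
    _ = ((∏ v ∈ V, G v) * G₁) *
          ((archAbsVal.map ba).prod * ∏ᶠ v : nonarchAbsVal (K := K), bn v.val) := by ring

/-- The indices of the first triangle have small coordinates. -/
theorem enum_lt_of_lt_tri {N t : ℕ} (h : t < tri (N + 1)) : (enum t).1 ≤ N ∧ (enum t).2 ≤ N := by
  have h1 := edeg_lt h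
  rw [edeg] at h1
  omega

/-- The product formula for a nonzero interpolation determinant with gains, general number of
functions. -/
theorem glob_multi_aux {d : ℕ} (hd : 2 ≤ d) {ζ : Fin d → K} {i₀ : Fin d} (hi₀ : ζ i₀ = 0)
    {δ μ : K} (hδ : δ ≠ 0) (hμ : μ ^ (d - 1) = δ) {ι : Type*} [Finite ι] (O : Orb ζ δ ι)
    (S : Finset ι) (T : Finset (nonarchAbsVal (K := K))) (lam : nonarchAbsVal (K := K) → ℝ)
    (g : nonarchAbsVal (K := K) → K[X]) (hlam : ∀ w ∈ T, 0 ≤ lam w)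
    (hT : ∀ w ∈ T, Gain O S μ w.val (lam w) (g w))
    (w₁ : AbsoluteValue K ℝ) (hw₁ : w₁ ∈ archAbsVal (K := K)) {l₁ : ℝ} (hl₁ : 0 ≤ l₁)
    (h₁ : l₁ = 0 ∨ ∃ g₁, Gain O S μ w₁ l₁ g₁) {L n : ℕ} (hL : 1 ≤ L) {Q : ℝ}
    (hnk : ∀ k : Fin n, (enum k).1 < d ^ L ∧ (enum k).2 < d ^ L)
    (hQ : ∀ m : ℕ, 1 ≤ m → m ≤ d → Q ≤ ∑ k : Fin n, ((m * ((enum k).1 / m) : ℕ) : ℝ) ∧
      Q ≤ ∑ k : Fin n, ((m * ((enum k).2 / m) : ℕ) : ℝ))
    (p : Fin n → ι) (hp : ∀ j, p j ∈ S)
    (hdet : (Matrix.of (fun i j : Fin n => ee O L (enum i) (p j))).det ≠ 0) :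
    1 ≤ exp (-((∑ w ∈ T, lam w + l₁) * Q)) *
      (((n.factorial : ℝ) * 2 ^ ((d + 3) * (2 * (d - 1) * L * n))) ^ totalWeight K *
        (mulHeight (tup ζ) * mulHeight₁ δ) ^ (2 * (d - 1) * L * n)) := by
  classical
  have hζ : ∀ (v : AbsoluteValue K ℝ) i, v (ζ i) ≤ loc ζ v * max (v δ) 1 := by
    intro v i
    have h1 := le_loc ζ v i i₀
    rw [hi₀, sub_zero] at h1
    have h2 : 1 ≤ max (v δ) 1 := le_max_right _ _
    have h3 := one_le_loc ζ v
    nlinarith
  have hδv : ∀ v : AbsoluteValue K ℝ, v δ ≤ loc ζ v * max (v δ) 1 := by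
    intro v
    have h1 : v δ ≤ max (v δ) 1 := le_max_left _ _
    have h2 : 1 ≤ max (v δ) 1 := le_max_right _ _
    have h3 := one_le_loc ζ v
    nlinarith
  have hB : ∀ v : AbsoluteValue K ℝ, 1 ≤ loc ζ v * max (v δ) 1 := by
    intro v
    have h2 : 1 ≤ max (v δ) 1 := le_max_right _ _
    have h3 := one_le_loc ζ v
    nlinarith
  have hMa : ∀ v : AbsoluteValue K ℝ, (1 : ℝ) ≤ 2 ^ (d + 3) * (loc ζ v * max (v δ) 1) := by
    intro v
    have h1 : (1 : ℝ) ≤ 2 ^ (d + 3) := one_le_pow₀ (by norm_num)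
    have h2 := hB v
    nlinarith
  have hprod : ∀ M : ℝ, ∏ _k : Fin n, M ^ (2 * (d - 1) * L) = M ^ (2 * (d - 1) * L * n) := by
    intro M
    rw [Finset.prod_const, Finset.card_univ, Fintype.card_fin, ← pow_mul]
  have hexp : exp (-((∑ w ∈ T, lam w + l₁) * Q)) =
      (∏ w ∈ T, exp (-(lam w * Q))) * exp (-(l₁ * Q)) := by
    rw [← exp_sum, ← exp_add, Finset.sum_neg_distrib, ← Finset.sum_mul]
    congr 1
    ring
  rw [hexp, ← bounds_prod ζ hδ (n.factorial : ℝ) 0 (2 * (d - 1) * L * n) (d + 3)]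
  have harch : ∀ v : AbsoluteValue K ℝ,
      v (Matrix.of (fun i j : Fin n => ee O L (enum i) (p j))).det ≤ (n.factorial : ℝ) *
        (v δ ^ 0 * (2 ^ (d + 3) * (loc ζ v * max (v δ) 1)) ^ (2 * (d - 1) * L * n)) := by
    intro v
    have h1 := det_le_arch v (Matrix.of (fun (t : Fin n) (j : Fin n) => ee O L (enum t) (p j)))
      (fun _ => (2 ^ (d + 3) * (loc ζ v * max (v δ) 1)) ^ (2 * (d - 1) * L))
      (fun i j => ee_le hd O v (hMa v)
        (O.size hd (QU.of_two v) (by norm_num) (hB v) (hζ v) (hδv v)) L (enum i) (p j))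
    rw [hprod] at h1
    rw [pow_zero, one_mul]
    exact h1
  apply global_multi_arch _ hdet T (fun v => (n.factorial : ℝ) *
    (v δ ^ 0 * (2 ^ (d + 3) * (loc ζ v * max (v δ) 1)) ^ (2 * (d - 1) * L * n)))
    (fun v => v δ ^ 0 * (loc ζ v * max (v δ) 1) ^ (2 * (d - 1) * L * n))
    (fun v => exp (-(lam v * Q))) (exp (-(l₁ * Q))) w₁ hw₁
  · intro v _
    exact harch v
  · rcases h₁ with h0 | ⟨g₁, hg₁⟩
    · rw [h0, zero_mul, neg_zero, exp_zero, one_mul]
      exact harch w₁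
    · have h1 := loc_gain hd hi₀ hδ hμ O (QU.of_two w₁) (by norm_num) hl₁ hg₁ hL p hp hnk
        (hQ _ hg₁.pos hg₁.le).1 (hQ _ hg₁.pos hg₁.le).2 (Or.inl rfl)
      rw [pow_zero, one_mul]
      exact h1
  · intro v _
    have hna := isNonarchimedean v.val v.property
    have h1 := det_le_nonarch v.val hna
      (Matrix.of (fun (t : Fin n) (j : Fin n) => ee O L (enum t) (p j)))
      (fun _ => (loc ζ v.val * max (v.val δ) 1) ^ (2 * (d - 1) * L))
      (fun i j => ee_le hd O v.val (hB v.val) (fun P => by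
        have := O.size hd (QU.of_nonarch hna) le_rfl (hB v.val) (hζ v.val) (hδv v.val) P
        rwa [one_pow, one_mul] at this) L (enum i) (p j))
    rw [hprod] at h1
    rw [pow_zero, one_mul]
    exact h1
  · intro v hv
    have hna := isNonarchimedean v.val v.property
    have h1 := loc_gain hd hi₀ hδ hμ O (QU.of_nonarch hna) le_rfl (hlam v hv) (hT v hv) hL p hp hnk
      (hQ _ (hT v hv).pos (hT v hv).le).1 (hQ _ (hT v hv).pos (hT v hv).le).2
      (Or.inr ⟨hna, rfl⟩)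
    rw [one_pow, one_mul, one_mul] at h1
    rw [pow_zero, one_mul]
    exact h1
  · intro v _
    exact exp_pos _
  · have hδf : (fun v : nonarchAbsVal (K := K) => v.val δ).HasFiniteMulSupport :=
      hasFiniteMulSupport hδ
    exact (hδf.fun_pow 0).fun_mul
      (((loc_fin ζ).fun_mul (max_fin δ)).fun_pow (2 * (d - 1) * L * n))

/-- The product formula for a nonzero interpolation determinant with gains at the nonarchimedean
places of `T` and at one further place `w₁`. -/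
theorem glob_multi {d : ℕ} (hd : 2 ≤ d) {ζ : Fin d → K} {i₀ : Fin d} (hi₀ : ζ i₀ = 0) {δ μ : K}
    (hδ : δ ≠ 0) (hμ : μ ^ (d - 1) = δ) {ι : Type*} [Finite ι] (O : Orb ζ δ ι) (S : Finset ι)
    (T : Finset (nonarchAbsVal (K := K))) (lam : nonarchAbsVal (K := K) → ℝ)
    (g : nonarchAbsVal (K := K) → K[X]) (hlam : ∀ w ∈ T, 0 ≤ lam w)
    (hT : ∀ w ∈ T, Gain O S μ w.val (lam w) (g w))
    (w₁ : AbsoluteValue K ℝ) (hw₁ : w₁ ∈ archAbsVal (K := K)) {l₁ : ℝ} (hl₁ : 0 ≤ l₁)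
    (h₁ : l₁ = 0 ∨ ∃ g₁, Gain O S μ w₁ l₁ g₁) {L N : ℕ} (hL : 1 ≤ L) (hN : N < d ^ L)
    (p : Fin (tri (N + 1)) → ι) (hp : ∀ j, p j ∈ S) (hNd : 3 * d ≤ N)
    (hdet : (Matrix.of (fun i j : Fin (tri (N + 1)) => ee O L (enum i) (p j))).det ≠ 0) :
    1 ≤ exp (-((∑ w ∈ T, lam w + l₁) * ((tri (N + 1) : ℝ) * (N / 3 - d)))) *
      ((((tri (N + 1)).factorial : ℝ) * 2 ^ ((d + 3) * (2 * (d - 1) * L * tri (N + 1)))) ^
          totalWeight K *
        (mulHeight (tup ζ) * mulHeight₁ δ) ^ (2 * (d - 1) * L * tri (N + 1))) := by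
  refine glob_multi_aux hd hi₀ hδ hμ O S T lam g hlam hT w₁ hw₁ hl₁ h₁ hL (fun k => ?_)
    (fun m hm hmd => ⟨gain_fst hm hmd, gain_snd hm hmd⟩) p hp hdet
  have h1 := enum_lt_of_lt_tri k.2
  omega

end Pool.Agent.H.MP_0e6b5f_nt.Df
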