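import Pool.Agent.H.MP_0e6b5f_nt.Df.Tops
import Pool.Agent.H.MP_0e6b5f_nt.Df.Dist

/-!
# The determinant at a place with a small monic polynomial
-/

namespace Pool.Agent.H.MP_0e6b5f_nt.Df

open Pool.Agent.H.MP_0e6b5f_nt.Dom Pool.Agent.H.MP_0e6b5f_nt.Eng
open Pool.Agent.H.MP_0e6b5f_nt.Cap
open Polynomial Real

variable {K : Type*} [Field K]

theorem bb_le {d : ℕ} (hd : 2 ≤ d) {ζ : Fin d → K} {δ : K} {ι : Type*} (O : Orb ζ δ ι)
    (v : AbsoluteValue K ℝ) {M : ℝ} (hM : 1 ≤ M) (hy : ∀ P, v (O.y P) ≤ M) (L j : ℕ) (P : ι) :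
    v (bb O L j P) ≤ M ^ ((d - 1) * L) := by
  have h1 := dynP_apply_le (n := 1) (L := L) (by omega : 1 ≤ d)
    (fun k _ => O.y ((O.σ⁻¹ ^ (k + 1)) P)) v hM (fun k j => hy _) j 0
  have e1 : bb O L j P = dynP d (fun k (_ : Fin 1) => O.y ((O.σ⁻¹ ^ (k + 1)) P)) L j 0 := by
    simp only [bb, dynP, Finset.prod_apply, Pi.pow_apply]
  rw [e1]; exact h1

theorem uu_le {d : ℕ} (hd : 2 ≤ d) {ζ : Fin d → K} {δ : K} {ι : Type*} (O : Orb ζ δ ι)
    (v : AbsoluteValue K ℝ) {M : ℝ} (hM : 1 ≤ M) (hy : ∀ P, v (O.y P) ≤ M) (L j : ℕ) (P : ι) :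
    v (uu O L j P) ≤ M ^ ((d - 1) * L) := by
  have h1 := dynP_apply_le (n := 1) (L := L) (by omega : 1 ≤ d)
    (fun k _ => O.y ((O.σ ^ k) P)) v hM (fun k j => hy _) j 0
  have e1 : uu O L j P = dynP d (fun k (_ : Fin 1) => O.y ((O.σ ^ k) P)) L j 0 := by
    simp only [uu, dynP, Finset.prod_apply, Pi.pow_apply]
  rw [e1]; exact h1

/-- The size of the powers of `g`. -/
theorem gp_le {d : ℕ} {g : K[X]} (hpos : 1 ≤ g.natDegree) (hle : g.natDegree ≤ d)
    (v : AbsoluteValue K ℝ) {l B m : ℝ} (hB : 1 ≤ B) (hm : 1 ≤ m) {z : K}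
    (hg : v (g.eval z) ≤ (exp (-l) * m) ^ g.natDegree) (hz : v z ≤ B * m) (q : ℕ) :
    v (gp g q z) ≤ exp (-(l * ((g.natDegree * (q / g.natDegree) : ℕ) : ℝ))) * B ^ (d - 1) *
      m ^ q := by
  have hm0 : 0 < m := by linarith
  have hB0 : 0 < B := by linarith
  set e := g.natDegree with he
  rw [gp, v.map_mul, v.map_pow, v.map_pow, ← he]
  have h1 : v (g.eval z) ^ (q / e) ≤ exp (-(l * ((e * (q / e) : ℕ) : ℝ))) * m ^ (e * (q / e)) := by
    calc v (g.eval z) ^ (q / e) ≤ ((exp (-l) * m) ^ e) ^ (q / e) :=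
          pow_le_pow_left₀ (v.nonneg _) hg _
      _ = (exp (-l) * m) ^ (e * (q / e)) := (pow_mul _ _ _).symm
      _ = exp (-(l * ((e * (q / e) : ℕ) : ℝ))) * m ^ (e * (q / e)) := by
          rw [mul_pow, ← exp_nat_mul]
          congr 2
          ring
  have h2 : v z ^ (q % e) ≤ B ^ (d - 1) * m ^ (q % e) := by
    calc v z ^ (q % e) ≤ (B * m) ^ (q % e) := pow_le_pow_left₀ (v.nonneg _) hz _
      _ = B ^ (q % e) * m ^ (q % e) := mul_pow _ _ _
      _ ≤ B ^ (d - 1) * m ^ (q % e) := by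
          refine mul_le_mul_of_nonneg_right (pow_le_pow_right₀ hB ?_) (by positivity)
          have := Nat.mod_lt q (by omega : e > 0)
          omega
  calc v (g.eval z) ^ (q / e) * v z ^ (q % e)
      ≤ (exp (-(l * ((e * (q / e) : ℕ) : ℝ))) * m ^ (e * (q / e))) *
        (B ^ (d - 1) * m ^ (q % e)) :=
        mul_le_mul h1 h2 (pow_nonneg (v.nonneg _) _) (by positivity)
    _ = exp (-(l * ((e * (q / e) : ℕ) : ℝ))) * B ^ (d - 1) *
        (m ^ (e * (q / e)) * m ^ (q % e)) := by ring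
    _ = _ := by rw [← pow_add, Nat.div_add_mod]

/-- The bound for the interpolation determinant at a place with a gain. -/
theorem loc_gain {d : ℕ} (hd : 2 ≤ d) {ζ : Fin d → K} {i₀ : Fin d} (hi₀ : ζ i₀ = 0) {δ μ : K}
    (hδ : δ ≠ 0) (hμ : μ ^ (d - 1) = δ) {ι : Type*} [Finite ι] (O : Orb ζ δ ι) {S : Finset ι}
    {v : AbsoluteValue K ℝ} {A : ℝ} (hqu : QU v A) (hA : 1 ≤ A) {l : ℝ} (hl : 0 ≤ l) {g : K[X]}
    (hG : Gain O S μ v l g) {L : ℕ} (hL : 1 ≤ L) {n : ℕ} (p : Fin n → ι) (hp : ∀ j, p j ∈ S)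
    (hn : ∀ k : Fin n, (enum k).1 < d ^ L ∧ (enum k).2 < d ^ L) {Q : ℝ}
    (hQ1 : Q ≤ ∑ k : Fin n, ((g.natDegree * ((enum k).1 / g.natDegree) : ℕ) : ℝ))
    (hQ2 : Q ≤ ∑ k : Fin n, ((g.natDegree * ((enum k).2 / g.natDegree) : ℕ) : ℝ))
    {c : ℝ} (hc : c = (n.factorial : ℝ) ∨ (IsNonarchimedean v ∧ c = 1)) :
    v (Matrix.of (fun i j : Fin n => ee O L (enum i) (p j))).det ≤
      exp (-(l * Q)) *
        (c * (A ^ (d + 3) * (loc ζ v * max (v δ) 1)) ^ (2 * (d - 1) * L * n)) := by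
  set B := A ^ (d + 3) * max 1 (rho ζ μ v) with hBdef
  set m := max 1 (v μ) with hmdef
  set M := A ^ (d + 3) * (loc ζ v * max (v δ) 1) with hMdef
  have hA3 : 1 ≤ A ^ (d + 3) := one_le_pow₀ hA
  have hm1 : 1 ≤ m := le_max_left _ _
  have hm0 : 0 < m := by linarith
  have hB1 : 1 ≤ B := one_le_mul_of_one_le_of_one_le hA3 (le_max_left _ _)
  have hB0 : 0 < B := by linarith
  have hmδ : m ≤ max (v δ) 1 := by
    rw [max_comm, max_root hμ v]
    exact le_self_pow₀ hm1 (by omega)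
  have hrloc : max 1 (rho ζ μ v) * m ≤ loc ζ v * max (v δ) 1 := by
    have h1 : rho ζ μ v * m ≤ loc ζ v := by
      rw [rho, div_mul_cancel₀ _ hm0.ne']
      exact diam_le_loc ζ v
    have h2 := one_le_loc ζ v
    rcases le_total 1 (rho ζ μ v) with h3 | h3
    · rw [max_eq_right h3]
      have h4 : 1 ≤ max (v δ) 1 := le_max_right _ _
      nlinarith
    · rw [max_eq_left h3, one_mul]
      nlinarith
  have hBM : B * m ≤ M := by
    rw [hBdef, hMdef, mul_assoc]
    exact mul_le_mul_of_nonneg_left hrloc (by positivity)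
  have hM1 : 1 ≤ M := le_trans (one_le_mul_of_one_le_of_one_le hB1 hm1) hBM
  have hM0 : 0 < M := by linarith
  have hyB : ∀ P, v (O.y P) ≤ B * m := fun P => size_norm hd hi₀ hδ hμ O hqu hA P
  have hyM : ∀ P, v (O.y P) ≤ M := fun P => (hyB P).trans hBM
  set e := g.natDegree with he
  -- the conclusion from a bound for the entries
  have hfin : ∀ (N : Matrix (Fin n) (Fin n) K) (s : Fin n → ℕ),
      Q ≤ ∑ k : Fin n, ((e * (s k / e) : ℕ) : ℝ) →
      (∀ i j, v (N i j) ≤ exp (-(l * ((e * (s i / e) : ℕ) : ℝ))) * M ^ (2 * (d - 1) * L)) →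
      v N.det ≤ exp (-(l * Q)) * (c * M ^ (2 * (d - 1) * L * n)) := by
    intro N s hQ hN
    have hprod : ∏ i : Fin n, (exp (-(l * ((e * (s i / e) : ℕ) : ℝ))) * M ^ (2 * (d - 1) * L)) ≤
        exp (-(l * Q)) * M ^ (2 * (d - 1) * L * n) := by
      rw [Finset.prod_mul_distrib, Finset.prod_const, Finset.card_univ, Fintype.card_fin,
        ← pow_mul, ← exp_sum]
      refine mul_le_mul_of_nonneg_right (exp_le_exp.mpr ?_) (by positivity)
      rw [Finset.sum_neg_distrib, ← Finset.mul_sum]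
      have := mul_le_mul_of_nonneg_left hQ hl
      linarith
    rcases hc with hc | ⟨hna, hc⟩
    · have h1 := det_le_arch v N _ hN
      rw [hc]
      calc v N.det ≤ (n.factorial : ℝ) * _ := h1
        _ ≤ (n.factorial : ℝ) * (exp (-(l * Q)) * M ^ (2 * (d - 1) * L * n)) :=
            mul_le_mul_of_nonneg_left hprod (Nat.cast_nonneg _)
        _ = _ := by ring
    · have h1 := det_le_nonarch v hna N _ hN
      rw [hc, one_mul]
      exact h1.trans hprod
  have hexp : (d - 1) * L + (d - 1) ≤ 2 * (d - 1) * L := by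
    have : (d - 1) * 1 ≤ (d - 1) * L := Nat.mul_le_mul_left _ hL
    rw [mul_assoc 2]; omega
  rcases le_or_gt (v μ) 1 with h | h
  · -- the Jacobian is at most one
    have hm : m = 1 := max_eq_left h
    rw [det_thinY hd hδ O L p hn hG.monic]
    refine hfin _ (fun i => (enum i).2) hQ2 (fun i j => ?_)
    rw [Matrix.of_apply, v.map_mul]
    have h1 := bb_le hd O v hM1 hyM L (enum i).1 (p j)
    have h2 := gp_le hG.pos hG.le v hB1 hm1 (hG.hy (p j) (hp j)) (hyB (p j)) (enum i).2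
    rw [hm, one_pow, mul_one, ← he] at h2
    have h3 : B ^ (d - 1) ≤ M ^ (d - 1) := by
      refine pow_le_pow_left₀ hB0.le ?_ _
      rw [hm, mul_one] at hBM
      exact hBM
    calc v (bb O L (enum i).1 (p j)) * v (gp g (enum i).2 (O.y (p j)))
        ≤ M ^ ((d - 1) * L) * (exp (-(l * ((e * ((enum i).2 / e) : ℕ) : ℝ))) * B ^ (d - 1)) :=
          mul_le_mul h1 h2 (v.nonneg _) (by positivity)
      _ ≤ M ^ ((d - 1) * L) * (exp (-(l * ((e * ((enum i).2 / e) : ℕ) : ℝ))) * M ^ (d - 1)) :=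
          mul_le_mul_of_nonneg_left (mul_le_mul_of_nonneg_left h3 (exp_pos _).le) (by positivity)
      _ = exp (-(l * ((e * ((enum i).2 / e) : ℕ) : ℝ))) * M ^ ((d - 1) * L + (d - 1)) := by
          rw [pow_add]; ring
      _ ≤ _ := mul_le_mul_of_nonneg_left (pow_le_pow_right₀ hM1 hexp) (exp_pos _).le
  · -- the Jacobian is at least one
    have hm : m = v μ := max_eq_right h.le
    rw [det_thinX hd hδ O L p hn hG.monic]
    refine hfin _ (fun i => (enum i).1) hQ1 (fun i j => ?_)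
    rw [Matrix.of_apply, v.map_mul, v.map_mul]
    have h1 := uu_le hd O v hM1 hyM L (enum i).2 (p j)
    have h2 := gp_le hG.pos hG.le v hB1 hm1 (hG.hx (p j) (hp j)) (hyB (O.σ⁻¹ (p j))) (enum i).1
    rw [← he] at h2
    have e1 : v ((δ⁻¹) ^ dynE d L (enum i).1) = (m ^ ((d - 1) * dynE d L (enum i).1))⁻¹ := by
      rw [map_pow, map_inv₀, ← hμ, map_pow, inv_pow, ← pow_mul, hm]
    have h3 : m ^ (enum i).1 ≤ m ^ ((d - 1) * dynE d L (enum i).1) * m ^ ((d - 1) * L) := by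
      rw [← pow_add]
      exact pow_le_pow_right₀ hm1 (le_dynE (by omega) L _ (hn i).1)
    have h4 : B ^ (d - 1) * m ^ ((d - 1) * L) ≤ M ^ ((d - 1) * L) := by
      calc B ^ (d - 1) * m ^ ((d - 1) * L) ≤ B ^ ((d - 1) * L) * m ^ ((d - 1) * L) := by
            refine mul_le_mul_of_nonneg_right (pow_le_pow_right₀ hB1 ?_) (by positivity)
            exact Nat.le_mul_of_pos_right _ hL
        _ = (B * m) ^ ((d - 1) * L) := (mul_pow _ _ _).symm
        _ ≤ _ := pow_le_pow_left₀ (by positivity) hBM _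
    have hme : 0 < m ^ ((d - 1) * dynE d L (enum i).1) := by positivity
    set E := exp (-(l * ((e * ((enum i).1 / e) : ℕ) : ℝ))) with hE
    have hE0 : 0 < E := exp_pos _
    rw [e1]
    calc (m ^ ((d - 1) * dynE d L (enum i).1))⁻¹ * v (gp g (enum i).1 (O.y (O.σ⁻¹ (p j)))) *
          v (uu O L (enum i).2 (p j))
        ≤ (m ^ ((d - 1) * dynE d L (enum i).1))⁻¹ * (E * B ^ (d - 1) * m ^ (enum i).1) *
          M ^ ((d - 1) * L) :=
          mul_le_mul (mul_le_mul_of_nonneg_left h2 (by positivity)) h1 (v.nonneg _)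
            (by positivity)
      _ ≤ (m ^ ((d - 1) * dynE d L (enum i).1))⁻¹ * (E * B ^ (d - 1) *
          (m ^ ((d - 1) * dynE d L (enum i).1) * m ^ ((d - 1) * L))) * M ^ ((d - 1) * L) := by
          refine mul_le_mul_of_nonneg_right (mul_le_mul_of_nonneg_left
            (mul_le_mul_of_nonneg_left h3 (by positivity)) (by positivity)) (by positivity)
      _ = E * (B ^ (d - 1) * m ^ ((d - 1) * L)) * M ^ ((d - 1) * L) := by
          field_simp
      _ ≤ E * M ^ ((d - 1) * L) * M ^ ((d - 1) * L) := by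
          refine mul_le_mul_of_nonneg_right (mul_le_mul_of_nonneg_left h4 hE0.le) (by positivity)
      _ = E * M ^ (2 * (d - 1) * L) := by
          rw [mul_assoc, ← pow_add]
          congr 2
          ring

end Pool.Agent.H.MP_0e6b5f_nt.Df
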