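import Pool.Agent.H.MP_0e6b5f_nt.Df.Def
import Pool.Agent.H.MP_0e6b5f_nt.Cap.RealMom

/-!
# Points near the fixed points at a real place
-/

namespace Pool.Agent.H.MP_0e6b5f_nt.Df

open Pool.Agent.H.MP_0e6b5f_nt.Dom Pool.Agent.H.MP_0e6b5f_nt.Eng
open Polynomial Real Filter

/-- Where a monic real polynomial of even degree is negative, all its complex roots are near. -/
theorem real_neg {d : ℕ} (hd : 2 ≤ d) (hev : Even d) (z : Fin d → ℂ) (q : ℝ[X])
    (hq : q.map (algebraMap ℝ ℂ) = ∏ i, (X - C (z i))) {Δ : ℝ}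
    (hΔ : ∀ i j, ‖z i - z j‖ ≤ Δ) {x : ℝ} (hx : q.eval x < 0) (k : Fin d) :
    ‖(x : ℂ) - z k‖ ≤ 2 * Δ := by
  have hmonic : (∏ i, (X - C (z i)) : ℂ[X]).Monic := monic_prod_X_sub_C _ _
  have hqm : q.Monic := by
    rw [← hq] at hmonic
    exact (monic_map_iff (f := algebraMap ℝ ℂ)).mp hmonic
  have hdeg : q.natDegree = d := by
    have h1 : (q.map (algebraMap ℝ ℂ)).natDegree = q.natDegree :=
      natDegree_map _
    rw [← h1, hq, natDegree_prod_of_monic _ _ (fun i _ => monic_X_sub_C _)]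
    simp
  have hroot : ∀ u : ℝ, q.eval u = 0 → ∃ i, z i = u := by
    intro u hu
    have h1 : (q.map (algebraMap ℝ ℂ)).eval (u : ℂ) = 0 := by
      have h2 := eval_map_algebraMap (B := ℂ) q (u : ℂ)
      have h3 : (q.map (algebraMap ℝ ℂ)).eval (algebraMap ℝ ℂ u) = algebraMap ℝ ℂ (q.eval u) :=
        eval_map_apply _ _
      rw [hu, map_zero] at h3
      exact h3
    rw [hq, eval_prod, Finset.prod_eq_zero_iff] at h1
    obtain ⟨i, -, hi⟩ := h1
    refine ⟨i, ?_⟩
    rw [eval_sub, eval_X, eval_C] at hi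
    exact (sub_eq_zero.mp hi).symm
  have hdpos : 0 < q.degree := by
    rw [← natDegree_pos_iff_degree_pos, hdeg]; omega
  have htop : Tendsto (fun x => q.eval x) atTop atTop :=
    q.tendsto_atTop_of_leadingCoeff_nonneg hdpos (by rw [hqm.leadingCoeff]; norm_num)
  have hbot : Tendsto (fun x => q.eval x) atBot atTop := by
    have h1 : 0 < (q.comp (-X)).degree := by
      rw [← natDegree_pos_iff_degree_pos, natDegree_comp, natDegree_neg, natDegree_X, hdeg]; omega
    have h2 : Tendsto (fun x => (q.comp (-X)).eval x) atTop atTop := by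
      refine (q.comp (-X)).tendsto_atTop_of_leadingCoeff_nonneg h1 ?_
      rw [comp_neg_X_leadingCoeff_eq, hqm.leadingCoeff, hdeg, hev.neg_one_pow]
      norm_num
    have h3 := h2.comp tendsto_neg_atBot_atTop
    refine h3.congr fun x => ?_
    simp
  have hcont : Continuous (fun x => q.eval x) := q.continuous
  obtain ⟨w, hw, hw0⟩ : ∃ w, x ≤ w ∧ q.eval w = 0 := by
    obtain ⟨b, hb, hbx⟩ := ((htop.eventually (eventually_ge_atTop 0)).and
      (eventually_ge_atTop x)).exists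
    obtain ⟨w, hw, hw0⟩ := intermediate_value_Icc hbx hcont.continuousOn ⟨hx.le, hb⟩
    exact ⟨w, hw.1, hw0⟩
  obtain ⟨u, hu, hu0⟩ : ∃ u, u ≤ x ∧ q.eval u = 0 := by
    obtain ⟨b, hb, hbx⟩ := ((hbot.eventually (eventually_ge_atTop 0)).and
      (eventually_le_atBot x)).exists
    obtain ⟨w, hw, hw0⟩ := intermediate_value_Icc' hbx hcont.continuousOn ⟨hx.le, hb⟩
    exact ⟨w, hw.2, hw0⟩
  obtain ⟨i, hi⟩ := hroot w hw0
  obtain ⟨j, hj⟩ := hroot u hu0
  have h1 := hΔ i j
  rw [hi, hj, ← Complex.ofReal_sub, Complex.norm_real, Real.norm_eq_abs,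
    abs_of_nonneg (by linarith)] at h1
  have h2 : (x : ℂ) - z k = ((x : ℂ) - u) + (z j - z k) := by rw [hj]; ring
  rw [h2]
  refine (norm_add_le _ _).trans ?_
  rw [← Complex.ofReal_sub, Complex.norm_real, Real.norm_eq_abs, abs_of_nonneg (by linarith)]
  have h3 := hΔ j k
  linarith

/-- At a real place, for even degree: if the fixed points are close to each other, then nine tenths
of the points of an invariant set are close to them. -/
theorem gain_real {d : ℕ} (hd : 2 ≤ d) (hev : Even d) {E : Type*} [Field E] {ζ : Fin d → E}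
    {i₀ : Fin d} (hi₀ : ζ i₀ = 0) {δ μ : E} {ι : Type*} [Fintype ι] [DecidableEq ι]
    (O : Orb ζ δ ι) {v : AbsoluteValue E ℝ} (e : E →+* ℂ) (he : ∀ x, v x = ‖e x‖) {cc : ℂ}
    (hcc : cc ≠ 0) (r : ι → ℝ) (z : Fin d → ℂ) (q : ℝ[X])
    (hq : q.map (algebraMap ℝ ℂ) = ∏ i, (X - C (z i)))
    (hy : ∀ P, e (O.y P) = cc * (r P - z i₀)) (hz : ∀ i, e (ζ i) = cc * (z i - z i₀))
    (h0 : 0 < rho ζ μ v) (hR : rho ζ μ v ≤ 1 / 100) :
    ∃ S : Finset ι, 4 * (Finset.univ \ S).card ≤ Fintype.card ι ∧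
      Gain O S μ v (-log (rho ζ μ v) / 2) X := by
  classical
  set M := max 1 (v μ) with hM
  have hM1 : 1 ≤ M := le_max_left _ _
  set ρ := rho ζ μ v with hρ
  have hccn : 0 < ‖cc‖ := norm_pos_iff.mpr hcc
  set Δ := ρ * M / ‖cc‖ with hΔdef
  have hΔ0 : 0 < Δ := by positivity
  have hΔ : ∀ i j, ‖z i - z j‖ ≤ Δ := by
    intro i j
    have h1 : v (ζ i - ζ j) ≤ ⨆ p : Fin d × Fin d, v (ζ p.1 - ζ p.2) :=
      le_ciSup (f := fun p : Fin d × Fin d => v (ζ p.1 - ζ p.2)) (Set.finite_range _).bddAbove (i, j)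
    have h2 : (⨆ p : Fin d × Fin d, v (ζ p.1 - ζ p.2)) = ρ * M := by
      rw [hρ, rho, div_mul_cancel₀ _ (by positivity)]
    have h3 : v (ζ i - ζ j) = ‖cc‖ * ‖z i - z j‖ := by
      rw [he, map_sub, hz, hz, ← norm_mul]
      congr 1; ring
    rw [h2, h3] at h1
    rw [hΔdef, le_div_iff₀ hccn, mul_comm]
    exact h1
  -- the sum of the values is zero
  have hev1 : ∀ x : ℝ, ((q.eval x : ℝ) : ℂ) = ∏ i, ((x : ℂ) - z i) := by
    intro x
    have h3 : (q.map (algebraMap ℝ ℂ)).eval (algebraMap ℝ ℂ x) = algebraMap ℝ ℂ (q.eval x) :=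
      eval_map_apply _ _
    rw [hq, eval_prod] at h3
    simp only [eval_sub, eval_X, eval_C] at h3
    exact h3.symm
  have hsum : ∑ P, q.eval (r P) = 0 := by
    have h1 := congrArg e (Cap.sum_prod_zero O)
    rw [map_sum, map_zero] at h1
    have h2 : ∀ P, e (∏ i, (O.y P - ζ i)) = cc ^ d * ((q.eval (r P) : ℝ) : ℂ) := by
      intro P
      rw [map_prod, hev1]
      have h3 : ∀ i, e (O.y P - ζ i) = cc * ((r P : ℂ) - z i) := by
        intro i
        rw [map_sub, hy, hz]; ring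
      rw [Finset.prod_congr rfl fun i _ => h3 i, Finset.prod_mul_distrib, Finset.prod_const,
        Finset.card_univ, Fintype.card_fin]
    simp_rw [h2] at h1
    rw [← Finset.mul_sum, mul_eq_zero] at h1
    rcases h1 with h1 | h1
    · exact absurd h1 (pow_ne_zero _ hcc)
    · exact_mod_cast h1
  -- the far points
  set F : Finset ι := Finset.univ.filter (fun P => 10 * Δ < ‖(r P : ℂ) - z i₀‖) with hF
  have hfar : ∀ P ∈ F, (9 * Δ) ^ d ≤ q.eval (r P) := by
    intro P hP
    rw [hF, Finset.mem_filter] at hP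
    have h1 : 0 ≤ q.eval (r P) := by
      by_contra hcon
      push Not at hcon
      have := real_neg hd hev z q hq hΔ hcon i₀
      linarith [hP.2]
    have h2 : q.eval (r P) = ‖∏ i, ((r P : ℂ) - z i)‖ := by
      rw [← hev1, Complex.norm_real, Real.norm_eq_abs, abs_of_nonneg h1]
    rw [h2, norm_prod]
    calc (9 * Δ) ^ d = ∏ _i : Fin d, (9 * Δ) := by
          rw [Finset.prod_const, Finset.card_univ, Fintype.card_fin]
      _ ≤ ∏ i, ‖(r P : ℂ) - z i‖ := by
          refine Finset.prod_le_prod (fun _ _ => by positivity) fun i _ => ?_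
          have h3 : (r P : ℂ) - z i₀ = ((r P : ℂ) - z i) + (z i - z i₀) := by ring
          have h4 := norm_add_le ((r P : ℂ) - z i) (z i - z i₀)
          rw [← h3] at h4
          linarith [hP.2, hΔ i i₀]
  have hany : ∀ P, -(2 * Δ) ^ d ≤ q.eval (r P) := by
    intro P
    rcases lt_or_ge (q.eval (r P)) 0 with h1 | h1
    · have h2 : ‖∏ i, ((r P : ℂ) - z i)‖ ≤ (2 * Δ) ^ d := by
        rw [norm_prod]
        calc ∏ i, ‖(r P : ℂ) - z i‖ ≤ ∏ _i : Fin d, (2 * Δ) :=
              Finset.prod_le_prod (fun _ _ => norm_nonneg _)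
                fun i _ => real_neg hd hev z q hq hΔ h1 i
          _ = _ := by rw [Finset.prod_const, Finset.card_univ, Fintype.card_fin]
      rw [← hev1, Complex.norm_real, Real.norm_eq_abs, abs_of_neg h1] at h2
      linarith
    · have : 0 ≤ (2 * Δ) ^ d := by positivity
      linarith
  have hFcard : 8 * F.card ≤ Fintype.card ι := by
    have h1 : (F.card : ℝ) * (9 * Δ) ^ d ≤ ∑ P ∈ F, q.eval (r P) := by
      rw [← nsmul_eq_mul]
      exact Finset.card_nsmul_le_sum _ _ _ hfar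
    have h2 : -((Fintype.card ι : ℝ) * (2 * Δ) ^ d) ≤ ∑ P ∈ Finset.univ \ F, q.eval (r P) := by
      have h3 : ((Finset.univ \ F).card : ℝ) * (-(2 * Δ) ^ d) ≤
          ∑ P ∈ Finset.univ \ F, q.eval (r P) := by
        rw [← nsmul_eq_mul]
        exact Finset.card_nsmul_le_sum _ _ _ fun P _ => hany P
      have h4 : ((Finset.univ \ F).card : ℝ) ≤ Fintype.card ι := by
        exact_mod_cast Finset.card_le_univ _
      have h5 : 0 ≤ (2 * Δ) ^ d := by positivity
      nlinarith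
    have h3 : ∑ P ∈ Finset.univ \ F, q.eval (r P) + ∑ P ∈ F, q.eval (r P) = 0 := by
      rw [Finset.sum_sdiff (Finset.subset_univ F)]
      exact hsum
    have h4 : (F.card : ℝ) * (9 * Δ) ^ d ≤ (Fintype.card ι : ℝ) * (2 * Δ) ^ d := by linarith
    have h5 : (9 * Δ) ^ d = (9 / 2) ^ d * (2 * Δ) ^ d := by
      rw [← mul_pow]; congr 1; ring
    rw [h5, ← mul_assoc] at h4
    have h6 : (F.card : ℝ) * (9 / 2) ^ d ≤ Fintype.card ι :=
      le_of_mul_le_mul_right h4 (by positivity)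
    have h7 : (8 : ℝ) ≤ (9 / 2) ^ d := by
      calc (8 : ℝ) ≤ (9 / 2) ^ 2 := by norm_num
        _ ≤ (9 / 2) ^ d := pow_le_pow_right₀ (by norm_num) hd
    have h8 : (8 : ℝ) * F.card ≤ Fintype.card ι := by
      have : (0 : ℝ) ≤ F.card := Nat.cast_nonneg _
      nlinarith
    exact_mod_cast h8
  refine ⟨Finset.univ \ (F ∪ F.image O.σ), ?_, ?_⟩
  · rw [sdiff_sdiff_right_self]
    have h1 : (F ∪ F.image O.σ).card ≤ F.card + F.card :=
      (Finset.card_union_le _ _).trans (Nat.add_le_add_left Finset.card_image_le _)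
    have h2 : (Finset.univ ⊓ (F ∪ F.image O.σ)).card ≤ (F ∪ F.image O.σ).card :=
      Finset.card_le_card Finset.inter_subset_right
    omega
  · have hexp : exp (-(-log ρ / 2)) * M = √ρ * M := by
      congr 1
      rw [neg_div, neg_neg, ← Real.log_sqrt h0.le, Real.exp_log (Real.sqrt_pos.mpr h0)]
    have hnear : ∀ P, P ∉ F → v (O.y P) ≤ √ρ * M := by
      intro P hP
      rw [hF, Finset.mem_filter] at hP
      push Not at hP
      have h1 := hP (Finset.mem_univ P)
      rw [he, hy, norm_mul]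
      have h2 : ‖cc‖ * Δ = ρ * M := by rw [hΔdef]; field_simp
      have h3 : 10 * ρ ≤ √ρ := by
        apply Real.le_sqrt_of_sq_le
        nlinarith
      calc ‖cc‖ * ‖(r P : ℂ) - z i₀‖ ≤ ‖cc‖ * (10 * Δ) :=
            mul_le_mul_of_nonneg_left h1 hccn.le
        _ = 10 * (‖cc‖ * Δ) := by ring
        _ = 10 * ρ * M := by rw [h2]; ring
        _ ≤ √ρ * M := mul_le_mul_of_nonneg_right h3 (by linarith)
    refine ⟨monic_X, by simp, by rw [natDegree_X]; omega, fun P hP => ?_, fun P hP => ?_⟩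
    · rw [natDegree_X, pow_one, eval_X, hexp]
      apply hnear
      intro hPF
      exact (Finset.mem_sdiff.mp hP).2 (Finset.mem_union_left _ hPF)
    · rw [natDegree_X, pow_one, eval_X, hexp]
      apply hnear
      intro hPF
      refine (Finset.mem_sdiff.mp hP).2 (Finset.mem_union_right _ ?_)
      exact Finset.mem_image.mpr ⟨_, hPF, O.σ.apply_symm_apply P⟩

end Pool.Agent.H.MP_0e6b5f_nt.Df
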