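import Pool.Agent.H.MP_0e6b5f_nt.Df.RealMom

/-!
# Points near the fixed points at a real place, in even and odd degree
-/

namespace Pool.Agent.H.MP_0e6b5f_nt.Df

open Pool.Agent.H.MP_0e6b5f_nt.Dom Pool.Agent.H.MP_0e6b5f_nt.Eng
open Polynomial Real Filter

theorem map_eval_real {m : ℕ} (z : Fin m → ℂ) (q : ℝ[X])
    (hq : q.map (algebraMap ℝ ℂ) = ∏ i, (X - C (z i))) (x : ℝ) :
    ((q.eval x : ℝ) : ℂ) = ∏ i, ((x : ℂ) - z i) := by
  have h3 : (q.map (algebraMap ℝ ℂ)).eval (algebraMap ℝ ℂ x) = algebraMap ℝ ℂ (q.eval x) :=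
    eval_map_apply _ _
  rw [hq, eval_prod] at h3
  simp only [eval_sub, eval_X, eval_C] at h3
  exact h3.symm

/-- If the sum of the values of a polynomial of even degree is at most `0`, then few of the points
are far away from its roots. -/
theorem far_card {m : ℕ} (hm : 2 ≤ m) (hev : Even m) (z : Fin m → ℂ) (q : ℝ[X])
    (hq : q.map (algebraMap ℝ ℂ) = ∏ i, (X - C (z i))) {Δ : ℝ} (hΔ0 : 0 < Δ)
    (hΔ : ∀ i j, ‖z i - z j‖ ≤ Δ) {ι : Type*} [Fintype ι] [DecidableEq ι] (r : ι → ℝ)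
    (hsum : ∑ P, q.eval (r P) ≤ 0) (i₀ : Fin m) (F : Finset ι)
    (hF : ∀ P ∈ F, 10 * Δ < ‖(r P : ℂ) - z i₀‖) : 8 * F.card ≤ Fintype.card ι := by
  have hev1 := map_eval_real z q hq
  have hfar : ∀ P ∈ F, (9 * Δ) ^ m ≤ q.eval (r P) := by
    intro P hP
    have h1 : 0 ≤ q.eval (r P) := by
      by_contra hcon
      push Not at hcon
      have := real_neg hm hev z q hq hΔ hcon i₀
      linarith [hF P hP]
    have h2 : q.eval (r P) = ‖∏ i, ((r P : ℂ) - z i)‖ := by
      rw [← hev1, Complex.norm_real, Real.norm_eq_abs, abs_of_nonneg h1]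
    rw [h2, norm_prod]
    calc (9 * Δ) ^ m = ∏ _i : Fin m, (9 * Δ) := by
          rw [Finset.prod_const, Finset.card_univ, Fintype.card_fin]
      _ ≤ ∏ i, ‖(r P : ℂ) - z i‖ := by
          refine Finset.prod_le_prod (fun _ _ => by positivity) fun i _ => ?_
          have h3 : (r P : ℂ) - z i₀ = ((r P : ℂ) - z i) + (z i - z i₀) := by ring
          have h4 := norm_add_le ((r P : ℂ) - z i) (z i - z i₀)
          rw [← h3] at h4
          linarith [hF P hP, hΔ i i₀]
  have hany : ∀ P, -(2 * Δ) ^ m ≤ q.eval (r P) := by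
    intro P
    rcases lt_or_ge (q.eval (r P)) 0 with h1 | h1
    · have h2 : ‖∏ i, ((r P : ℂ) - z i)‖ ≤ (2 * Δ) ^ m := by
        rw [norm_prod]
        calc ∏ i, ‖(r P : ℂ) - z i‖ ≤ ∏ _i : Fin m, (2 * Δ) :=
              Finset.prod_le_prod (fun _ _ => norm_nonneg _)
                fun i _ => real_neg hm hev z q hq hΔ h1 i
          _ = _ := by rw [Finset.prod_const, Finset.card_univ, Fintype.card_fin]
      rw [← hev1, Complex.norm_real, Real.norm_eq_abs, abs_of_neg h1] at h2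
      linarith
    · have : 0 ≤ (2 * Δ) ^ m := by positivity
      linarith
  have h1 : (F.card : ℝ) * (9 * Δ) ^ m ≤ ∑ P ∈ F, q.eval (r P) := by
    rw [← nsmul_eq_mul]
    exact Finset.card_nsmul_le_sum _ _ _ hfar
  have h2 : -((Fintype.card ι : ℝ) * (2 * Δ) ^ m) ≤ ∑ P ∈ Finset.univ \ F, q.eval (r P) := by
    have h3 : ((Finset.univ \ F).card : ℝ) * (-(2 * Δ) ^ m) ≤
        ∑ P ∈ Finset.univ \ F, q.eval (r P) := by
      rw [← nsmul_eq_mul]
      exact Finset.card_nsmul_le_sum _ _ _ fun P _ => hany P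
    have h4 : ((Finset.univ \ F).card : ℝ) ≤ Fintype.card ι := by
      exact_mod_cast Finset.card_le_univ _
    have h5 : 0 ≤ (2 * Δ) ^ m := by positivity
    nlinarith
  have h3 : ∑ P ∈ Finset.univ \ F, q.eval (r P) + ∑ P ∈ F, q.eval (r P) ≤ 0 := by
    rw [Finset.sum_sdiff (Finset.subset_univ F)]
    exact hsum
  have h4 : (F.card : ℝ) * (9 * Δ) ^ m ≤ (Fintype.card ι : ℝ) * (2 * Δ) ^ m := by linarith
  have h5 : (9 * Δ) ^ m = (9 / 2) ^ m * (2 * Δ) ^ m := by
    rw [← mul_pow]; congr 1; ring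
  rw [h5, ← mul_assoc] at h4
  have h6 : (F.card : ℝ) * (9 / 2) ^ m ≤ Fintype.card ι :=
    le_of_mul_le_mul_right h4 (by positivity)
  have h7 : (8 : ℝ) ≤ (9 / 2) ^ m := by
    calc (8 : ℝ) ≤ (9 / 2) ^ 2 := by norm_num
      _ ≤ (9 / 2) ^ m := pow_le_pow_right₀ (by norm_num) hm
  have h8 : (8 : ℝ) * F.card ≤ Fintype.card ι := by
    have : (0 : ℝ) ≤ F.card := Nat.cast_nonneg _
    nlinarith
  exact_mod_cast h8

/-- A real polynomial of odd degree has a real root. -/
theorem exists_real_root {d : ℕ} (hodd : ¬ Even d) (z : Fin d → ℂ) (q : ℝ[X])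
    (hq : q.map (algebraMap ℝ ℂ) = ∏ i, (X - C (z i))) : ∃ (s : ℝ) (j : Fin d), z j = s := by
  have hmonic : (∏ i, (X - C (z i)) : ℂ[X]).Monic := monic_prod_X_sub_C _ _
  have hqm : q.Monic := by
    rw [← hq] at hmonic
    exact (monic_map_iff (f := algebraMap ℝ ℂ)).mp hmonic
  have hdeg : q.natDegree = d := by
    have h1 : (q.map (algebraMap ℝ ℂ)).natDegree = q.natDegree :=
      natDegree_map _
    rw [← h1, hq, natDegree_prod_of_monic _ _ (fun i _ => monic_X_sub_C _)]
    simp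
  have hd0 : d ≠ 0 := by
    rintro rfl
    exact hodd ⟨0, rfl⟩
  have hdpos : 0 < q.degree := by
    rw [← natDegree_pos_iff_degree_pos, hdeg]; omega
  have htop : Tendsto (fun x => q.eval x) atTop atTop :=
    q.tendsto_atTop_of_leadingCoeff_nonneg hdpos (by rw [hqm.leadingCoeff]; norm_num)
  have hbot : Tendsto (fun x => q.eval x) atBot atBot := by
    have h1 : 0 < (q.comp (-X)).degree := by
      rw [← natDegree_pos_iff_degree_pos, natDegree_comp, natDegree_neg, natDegree_X, hdeg]; omega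
    have h2 : Tendsto (fun x => (q.comp (-X)).eval x) atTop atBot := by
      refine (q.comp (-X)).tendsto_atBot_of_leadingCoeff_nonpos h1 ?_
      rw [comp_neg_X_leadingCoeff_eq, hqm.leadingCoeff, hdeg,
        (Nat.not_even_iff_odd.mp hodd).neg_one_pow]
      norm_num
    have h3 := h2.comp tendsto_neg_atBot_atTop
    refine h3.congr fun x => ?_
    simp
  obtain ⟨b, hb⟩ := (htop.eventually (eventually_ge_atTop 0)).exists
  obtain ⟨b', hb'⟩ := (hbot.eventually (eventually_le_atBot 0)).exists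
  obtain ⟨s, hs⟩ := mem_range_of_exists_le_of_exists_ge q.continuous ⟨b', hb'⟩ ⟨b, hb⟩
  have h1 := map_eval_real z q hq s
  have hs' : q.eval s = 0 := hs
  rw [hs', Complex.ofReal_zero] at h1
  obtain ⟨j, -, hj⟩ := Finset.prod_eq_zero_iff.mp h1.symm
  exact ⟨s, j, (sub_eq_zero.mp hj).symm⟩

/-- The sum over an orbit of the values of the polynomial multiplied by `X - s`. -/
theorem sum_moment {ι : Type*} [Fintype ι] (σ : Equiv.Perm ι) (r : ι → ℝ) (t s : ℝ) :
    ∑ P, (r P - s) * (r (σ P) + t * r (σ⁻¹ P) - (1 + t) * r P) =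
      -((1 + t) / 2) * ∑ P, (r P - r (σ P)) ^ 2 := by
  have h1 : ∑ P, r P * r (σ⁻¹ P) = ∑ P, r (σ P) * r P := by
    rw [← Equiv.sum_comp σ (fun P => r P * r (σ⁻¹ P))]
    refine Finset.sum_congr rfl fun P _ => ?_
    have h : σ⁻¹ (σ P) = P := σ.symm_apply_apply P
    rw [h]
  have h2 : ∑ P, r (σ P) = ∑ P, r P := Equiv.sum_comp σ r
  have h3 : ∑ P, r (σ⁻¹ P) = ∑ P, r P := Equiv.sum_comp σ⁻¹ r
  have h4 : ∑ P, r (σ P) ^ 2 = ∑ P, r P ^ 2 := Equiv.sum_comp σ (fun P => r P ^ 2)
  have e1 : ∀ P, (r P - s) * (r (σ P) + t * r (σ⁻¹ P) - (1 + t) * r P) =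
      r (σ P) * r P + t * (r P * r (σ⁻¹ P)) - (1 + t) * r P ^ 2 - s * r (σ P) -
        s * t * r (σ⁻¹ P) + s * (1 + t) * r P := fun P => by ring
  have e2 : ∀ P, (r P - r (σ P)) ^ 2 = r P ^ 2 - 2 * (r (σ P) * r P) + r (σ P) ^ 2 :=
    fun P => by ring
  simp_rw [e1, e2]
  simp only [Finset.sum_add_distrib, Finset.sum_sub_distrib, ← Finset.mul_sum]
  rw [h1, h2, h3, h4]
  ring

/-- At a real place: if the fixed points are close to each other and the degree is even or the
leading coefficient and `1 + δ` have the same sign, then most of the points of an invariant set are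
close to the fixed points. -/
theorem gain_real2 {d : ℕ} (hd : 2 ≤ d) {E : Type*} [Field E] {ζ : Fin d → E}
    {i₀ : Fin d} (hi₀ : ζ i₀ = 0) {δ μ : E} {ι : Type*} [Fintype ι] [DecidableEq ι]
    (O : Orb ζ δ ι) {v : AbsoluteValue E ℝ} (e : E →+* ℂ) (he : ∀ x, v x = ‖e x‖) {cc : ℂ}
    (hcc : cc ≠ 0) {α t : ℝ} (hα : cc ^ (d - 1) = α) (ht : e δ = t)
    (hcase : Even d ∨ 0 ≤ α * (1 + t)) (r : ι → ℝ) (z : Fin d → ℂ) (q : ℝ[X])
    (hq : q.map (algebraMap ℝ ℂ) = ∏ i, (X - C (z i)))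
    (hy : ∀ P, e (O.y P) = cc * (r P - z i₀)) (hz : ∀ i, e (ζ i) = cc * (z i - z i₀))
    (h0 : 0 < rho ζ μ v) (hR : rho ζ μ v ≤ 1 / 100) :
    ∃ S : Finset ι, 4 * (Finset.univ \ S).card ≤ Fintype.card ι ∧
      Gain O S μ v (-log (rho ζ μ v) / 2) X := by
  classical
  set M := max 1 (v μ) with hM
  have hM1 : 1 ≤ M := le_max_left _ _
  set ρ := rho ζ μ v with hρ
  have hccn : 0 < ‖cc‖ := norm_pos_iff.mpr hcc
  set Δ := ρ * M / ‖cc‖ with hΔdef
  have hΔ0 : 0 < Δ := by positivity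
  have hΔ : ∀ i j, ‖z i - z j‖ ≤ Δ := by
    intro i j
    have h1 : v (ζ i - ζ j) ≤ ⨆ p : Fin d × Fin d, v (ζ p.1 - ζ p.2) :=
      le_ciSup (f := fun p : Fin d × Fin d => v (ζ p.1 - ζ p.2)) (Set.finite_range _).bddAbove (i, j)
    have h2 : (⨆ p : Fin d × Fin d, v (ζ p.1 - ζ p.2)) = ρ * M := by
      rw [hρ, rho, div_mul_cancel₀ _ (by positivity)]
    have h3 : v (ζ i - ζ j) = ‖cc‖ * ‖z i - z j‖ := by
      rw [he, map_sub, hz, hz, ← norm_mul]
      congr 1; ring
    rw [h2, h3] at h1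
    rw [hΔdef, le_div_iff₀ hccn, mul_comm]
    exact h1
  have hev1 := map_eval_real z q hq
  -- the relation over the real numbers
  have hrel : ∀ P, r (O.σ P) + t * r (O.σ⁻¹ P) - (1 + t) * r P = α * q.eval (r P) := by
    intro P
    have h1 := O.rel P
    rw [nf_eval] at h1
    have h2 : ∏ i, (O.y P - ζ i) =
        O.y (O.σ P) + δ * O.y (O.σ⁻¹ P) - (1 + δ) * O.y P := by
      rw [h1]; ring
    have h3 : e (∏ i, (O.y P - ζ i)) = cc ^ d * ((q.eval (r P) : ℝ) : ℂ) := by
      rw [map_prod, hev1]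
      have h3 : ∀ i, e (O.y P - ζ i) = cc * ((r P : ℂ) - z i) := by
        intro i
        rw [map_sub, hy, hz]; ring
      rw [Finset.prod_congr rfl fun i _ => h3 i, Finset.prod_mul_distrib, Finset.prod_const,
        Finset.card_univ, Fintype.card_fin]
    have h4 : cc ^ d = cc * α := by
      rw [← hα, ← pow_succ']
      congr 1
      omega
    rw [h2, map_sub, map_add, map_mul, map_mul, map_add, map_one, hy, hy, hy, ht, h4] at h3
    have h5 : cc * ((r (O.σ P) : ℂ) + t * r (O.σ⁻¹ P) - (1 + t) * r P) =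
        cc * (α * ((q.eval (r P) : ℝ) : ℂ)) := by
      rw [← mul_assoc, ← h3]
      ring
    have h6 := mul_left_cancel₀ hcc h5
    exact_mod_cast h6
  have hα0 : α ≠ 0 := by
    rintro rfl
    rw [Complex.ofReal_zero] at hα
    exact hcc (pow_eq_zero_iff (by omega) |>.mp hα)
  -- the far points
  set F : Finset ι := Finset.univ.filter (fun P => 10 * Δ < ‖(r P : ℂ) - z i₀‖) with hF
  have hFmem : ∀ P ∈ F, 10 * Δ < ‖(r P : ℂ) - z i₀‖ := fun P hP => (Finset.mem_filter.mp hP).2
  have hFcard : 8 * F.card ≤ Fintype.card ι := by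
    by_cases hev : Even d
    · refine far_card hd hev z q hq hΔ0 hΔ r ?_ i₀ F hFmem
      have h1 : α * ∑ P, q.eval (r P) = 0 := by
        rw [Finset.mul_sum, ← Finset.sum_congr rfl fun P _ => hrel P]
        have h2 : ∑ P, r (O.σ P) = ∑ P, r P := Equiv.sum_comp O.σ r
        have h3 : ∑ P, r (O.σ⁻¹ P) = ∑ P, r P := Equiv.sum_comp O.σ⁻¹ r
        simp only [Finset.sum_add_distrib, Finset.sum_sub_distrib, ← Finset.mul_sum]
        rw [h2, h3]
        ring
      exact ((mul_eq_zero.mp h1).resolve_left hα0).le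
    · have hpos : 0 ≤ α * (1 + t) := hcase.resolve_left hev
      obtain ⟨s, j, hj⟩ := exists_real_root hev z q hq
      have hsum := sum_moment O.σ r t s
      simp_rw [hrel] at hsum
      refine far_card (m := d + 1) (by omega) (by
          rw [Nat.even_add_one]
          exact hev) (Fin.cons (z j) z) ((X - C s) * q) ?_ hΔ0 ?_ r ?_ i₀.succ F ?_
      · rw [Polynomial.map_mul, hq, Fin.prod_univ_succ]
        simp only [Fin.cons_zero, Fin.cons_succ, Polynomial.map_sub, Polynomial.map_X,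
          Polynomial.map_C, hj]
        rfl
      · intro k l
        refine Fin.cases ?_ (fun k => ?_) k <;> refine Fin.cases ?_ (fun l => ?_) l
        · simp only [Fin.cons_zero, sub_self, norm_zero]
          exact hΔ0.le
        · simp only [Fin.cons_zero, Fin.cons_succ]
          exact hΔ _ _
        · simp only [Fin.cons_zero, Fin.cons_succ]
          exact hΔ _ _
        · simp only [Fin.cons_succ]
          exact hΔ _ _
      · have h1 : α ^ 2 * ∑ P, ((X - C s) * q).eval (r P) ≤ 0 := by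
          have h2 : ∑ P, ((X - C s) * q).eval (r P) * α = ∑ P, (r P - s) * (α * q.eval (r P)) := by
            refine Finset.sum_congr rfl fun P _ => ?_
            rw [eval_mul, eval_sub, eval_X, eval_C]
            ring
          rw [← Finset.sum_mul] at h2
          have h3 : α ^ 2 * ∑ P, ((X - C s) * q).eval (r P) =
              α * ((∑ P, ((X - C s) * q).eval (r P)) * α) := by ring
          rw [h3, h2, hsum]
          have h4 : 0 ≤ ∑ P, (r P - r (O.σ P)) ^ 2 := Finset.sum_nonneg fun P _ => sq_nonneg _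
          nlinarith [mul_nonneg hpos h4]
        have h2 : 0 < α ^ 2 := by positivity
        by_contra hcon
        push Not at hcon
        have := mul_pos h2 hcon
        linarith
      · intro P hP
        simp only [Fin.cons_succ]
        exact hFmem P hP
  refine ⟨Finset.univ \ (F ∪ F.image O.σ), ?_, ?_⟩
  · rw [sdiff_sdiff_right_self]
    have h1 : (F ∪ F.image O.σ).card ≤ F.card + F.card :=
      (Finset.card_union_le _ _).trans (Nat.add_le_add_left Finset.card_image_le _)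
    have h2 : (Finset.univ ⊓ (F ∪ F.image O.σ)).card ≤ (F ∪ F.image O.σ).card :=
      Finset.card_le_card Finset.inter_subset_right
    omega
  · have hexp : exp (-(-log ρ / 2)) * M = √ρ * M := by
      congr 1
      rw [neg_div, neg_neg, ← Real.log_sqrt h0.le, Real.exp_log (Real.sqrt_pos.mpr h0)]
    have hnear : ∀ P, P ∉ F → v (O.y P) ≤ √ρ * M := by
      intro P hP
      rw [hF, Finset.mem_filter] at hP
      push Not at hP
      have h1 := hP (Finset.mem_univ P)
      rw [he, hy, norm_mul]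
      have h2 : ‖cc‖ * Δ = ρ * M := by rw [hΔdef]; field_simp
      have h3 : 10 * ρ ≤ √ρ := by
        apply Real.le_sqrt_of_sq_le
        nlinarith
      calc ‖cc‖ * ‖(r P : ℂ) - z i₀‖ ≤ ‖cc‖ * (10 * Δ) :=
            mul_le_mul_of_nonneg_left h1 hccn.le
        _ = 10 * (‖cc‖ * Δ) := by ring
        _ = 10 * ρ * M := by rw [h2]; ring
        _ ≤ √ρ * M := mul_le_mul_of_nonneg_right h3 (by linarith)
    refine ⟨monic_X, by simp, by rw [natDegree_X]; omega, fun P hP => ?_, fun P hP => ?_⟩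
    · rw [natDegree_X, pow_one, eval_X, hexp]
      apply hnear
      intro hPF
      exact (Finset.mem_sdiff.mp hP).2 (Finset.mem_union_left _ hPF)
    · rw [natDegree_X, pow_one, eval_X, hexp]
      apply hnear
      intro hPF
      refine (Finset.mem_sdiff.mp hP).2 (Finset.mem_union_right _ ?_)
      exact Finset.mem_image.mpr ⟨_, hPF, O.σ.apply_symm_apply P⟩

end Pool.Agent.H.MP_0e6b5f_nt.Df
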