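import Pool.Agent.H.MP_0e6b5f_nt.Df.Def
import Pool.Agent.H.MP_0e6b5f_nt.Cap.Loc

/-!
# Leading parts of the dynamical monomials and of the modified monomials
-/

namespace Pool.Agent.H.MP_0e6b5f_nt.Df

open Pool.Agent.H.MP_0e6b5f_nt.Dom Pool.Agent.H.MP_0e6b5f_nt.Eng
open Pool.Agent.H.MP_0e6b5f_nt.Cap
open Polynomial

variable {K : Type*} [Field K]

/-- The polynomial of which `gp` is the value. -/
theorem gp_eq (g : K[X]) (q : ℕ) {N : ℕ} (Z : Fin N → K) (j : Fin N) :
    (aeval Z (gpow g g.natDegree q)) j = gp g q (Z j) := by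
  rw [Dom.aeval_pi_apply, gpow, eval_mul, eval_pow, eval_pow, eval_X, gp]

/-- The determinant of the dynamical monomials is not changed if the future part is replaced by
powers of a monic polynomial in the second coordinate. -/
theorem det_thinY {d : ℕ} (hd : 2 ≤ d) {ζ : Fin d → K} {δ : K} (hδ : δ ≠ 0) {ι : Type*}
    (O : Orb ζ δ ι) (L : ℕ) {n : ℕ} (p : Fin n → ι)
    (hn : ∀ k : Fin n, (enum k).1 < d ^ L ∧ (enum k).2 < d ^ L) {g : K[X]} (hg : g.Monic) :
    (Matrix.of (fun i j : Fin n => ee O L (enum i) (p j))).det =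
      (Matrix.of (fun i j : Fin n =>
        bb O L (enum i).1 (p j) * gp g (enum i).2 (O.y (p j)))).det := by
  set X : Fin n → K := fun j => O.y (O.σ⁻¹ (p j)) with hX
  set Y : Fin n → K := fun j => O.y (p j) with hY
  set u : ℕ → (Fin n → K) := fun k j => O.y ((O.σ ^ k) (p j)) with hu
  set b : ℕ → (Fin n → K) := fun k j => O.y ((O.σ⁻¹ ^ (k + 1)) (p j)) with hb
  set q : Fin n → (Fin n → K) := fun t =>
    dynP d b L (enum t).1 * aeval Y (gpow g g.natDegree (enum t).2) with hq
  set P : Fin n → (Fin n → K) := fun t => dynP d b L (enum t).1 * dynP d u L (enum t).2 with hP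
  have h1 := det_cmp X Y P q (fun t => (δ⁻¹) ^ dynE d L (enum t).1)
    (fun t => (δ⁻¹) ^ dynE d L (enum t).1)
    (fun t => by
      have h1 := (top_dynP b X δ⁻¹ (top_b hd hδ O p) L (enum t).1 (hn t).1).mul
        (top_dynP u Y 1 (top_u hd O p) L (enum t).2 (hn t).2)
      rw [one_pow, one_smul, smul_mul_assoc] at h1
      exact h1)
    (fun t => by
      have h1 := (top_dynP b X δ⁻¹ (top_b hd hδ O p) L (enum t).1 (hn t).1).mul
        (top_monic (K := K) (x := X) (y := Y) (z := Y) y_mem_W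
          (gpow_monic hg g.natDegree (enum t).2) (gpow_natDegree hg rfl (enum t).2))
      rw [smul_mul_assoc] at h1
      exact h1)
  have h2 : (∏ t : Fin n, (δ⁻¹) ^ dynE d L (enum t).1) ≠ 0 :=
    Finset.prod_ne_zero_iff.mpr fun t _ => pow_ne_zero _ (inv_ne_zero hδ)
  have h3 : (Matrix.of P).det = (Matrix.of q).det := mul_left_cancel₀ h2 h1
  have h4 : (Matrix.of (fun i j : Fin n => ee O L (enum i) (p j))) = Matrix.of P := by
    ext t j
    simp only [Matrix.of_apply, hP, Pi.mul_apply, ee, hb, hu]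
    simp only [dynP, Finset.prod_apply, Pi.pow_apply]
  have h5 : (Matrix.of (fun i j : Fin n =>
        bb O L (enum i).1 (p j) * gp g (enum i).2 (O.y (p j)))) = Matrix.of q := by
    ext t j
    simp only [Matrix.of_apply, hq, Pi.mul_apply]
    rw [gp_eq]
    simp only [bb, hb, dynP, Finset.prod_apply, Pi.pow_apply, hY]
  rw [h4, h5, h3]

/-- The determinant of the dynamical monomials is not changed if the past part is replaced by
powers of a monic polynomial in the first coordinate. -/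
theorem det_thinX {d : ℕ} (hd : 2 ≤ d) {ζ : Fin d → K} {δ : K} (hδ : δ ≠ 0) {ι : Type*}
    (O : Orb ζ δ ι) (L : ℕ) {n : ℕ} (p : Fin n → ι)
    (hn : ∀ k : Fin n, (enum k).1 < d ^ L ∧ (enum k).2 < d ^ L) {g : K[X]} (hg : g.Monic) :
    (Matrix.of (fun i j : Fin n => ee O L (enum i) (p j))).det =
      (Matrix.of (fun i j : Fin n =>
        (δ⁻¹ ^ dynE d L (enum i).1 * gp g (enum i).1 (O.y (O.σ⁻¹ (p j)))) *
          uu O L (enum i).2 (p j))).det := by
  set X : Fin n → K := fun j => O.y (O.σ⁻¹ (p j)) with hX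
  set Y : Fin n → K := fun j => O.y (p j) with hY
  set u : ℕ → (Fin n → K) := fun k j => O.y ((O.σ ^ k) (p j)) with hu
  set b : ℕ → (Fin n → K) := fun k j => O.y ((O.σ⁻¹ ^ (k + 1)) (p j)) with hb
  set q : Fin n → (Fin n → K) := fun t =>
    (((δ⁻¹) ^ dynE d L (enum t).1) • aeval X (gpow g g.natDegree (enum t).1)) *
      dynP d u L (enum t).2 with hq
  set P : Fin n → (Fin n → K) := fun t => dynP d b L (enum t).1 * dynP d u L (enum t).2 with hP
  have h1 := det_cmp X Y P q (fun t => (δ⁻¹) ^ dynE d L (enum t).1)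
    (fun t => (δ⁻¹) ^ dynE d L (enum t).1)
    (fun t => by
      have h1 := (top_dynP b X δ⁻¹ (top_b hd hδ O p) L (enum t).1 (hn t).1).mul
        (top_dynP u Y 1 (top_u hd O p) L (enum t).2 (hn t).2)
      rw [one_pow, one_smul, smul_mul_assoc] at h1
      exact h1)
    (fun t => by
      have h1 := ((top_monic (K := K) (x := X) (y := Y) (z := X) x_mem_W
        (gpow_monic hg g.natDegree (enum t).1) (gpow_natDegree hg rfl (enum t).1)).smul
          ((δ⁻¹) ^ dynE d L (enum t).1)).mul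
        (top_dynP u Y 1 (top_u hd O p) L (enum t).2 (hn t).2)
      rw [one_pow, one_smul, smul_mul_assoc (_ : K) (X ^ (enum t).1)] at h1
      exact h1)
  have h2 : (∏ t : Fin n, (δ⁻¹) ^ dynE d L (enum t).1) ≠ 0 :=
    Finset.prod_ne_zero_iff.mpr fun t _ => pow_ne_zero _ (inv_ne_zero hδ)
  have h3 : (Matrix.of P).det = (Matrix.of q).det := mul_left_cancel₀ h2 h1
  have h4 : (Matrix.of (fun i j : Fin n => ee O L (enum i) (p j))) = Matrix.of P := by
    ext t j
    simp only [Matrix.of_apply, hP, Pi.mul_apply, ee, hb, hu]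
    simp only [dynP, Finset.prod_apply, Pi.pow_apply]
  have h5 : (Matrix.of (fun i j : Fin n =>
        (δ⁻¹ ^ dynE d L (enum i).1 * gp g (enum i).1 (O.y (O.σ⁻¹ (p j)))) *
          uu O L (enum i).2 (p j))) = Matrix.of q := by
    ext t j
    simp only [Matrix.of_apply, hq, Pi.mul_apply, Pi.smul_apply, smul_eq_mul]
    rw [gp_eq]
    simp only [uu, hu, dynP, Finset.prod_apply, Pi.pow_apply, hX]
  rw [h4, h5, h3]

end Pool.Agent.H.MP_0e6b5f_nt.Df
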